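import Pool.Agent.Helper18.BI.H.StF3
import Pool.Agent.Helper70.BI.M_W4
import Pool.Agent.Helper70.BI.M_Final2

/-!
# Project BI, stage 3 (H): the main theorem in the 4-sphere
-/

set_option autoImplicit false

open scoped Manifold ContDiff Topology ComplexConjugate
open Set Filter Pool.Agent.Helper65.Barb Pool.Agent.Helper18.BI
open Pool.Agent.Helper70.BI (I4 IsW MW StW4 StEI StX2c)
open Pool.Agent.Helper70.BI.Fin2 (SP_sub_NB sph_sub_flat SP_sub_FB isCompact_flat)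

namespace Pool.Agent.Helper18.BI.H

namespace F3

/-- the spine of a barbell in the 4-sphere is compact with empty interior -/
theorem spine_small (hEI : StEI) (hS4 : StS4) (B : PartialDiffeomorph 𝓘(ℝ, R4) (𝓡 4) R4 S4 ∞)
    (hB : NB ⊆ B.source) : IsCompact (B '' SP) ∧ interior (B '' SP) = ∅ := by
  refine hEI _ _ (𝓡 4) S4 B SP hS4.2.2.2.2.2.2.2.2.1 ?_ ?_
  · rintro p ((hp | hp) | hp)
    · exact hp.1
    · exact hp.1
    · exact hp.1
  · intro p hp
    exact ⟨B, hB (SP_sub_NB hp), fun _ _ => rfl⟩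

/-- transfer of a barbell to a chart -/
theorem transfer (hT2 : StT2) (hT4 : StT4) (hX1 : StX1) (hX3 : StX3) (c : R4 → S4)
    (hc : EmbOn (𝓡 4) c univ) (B : PartialDiffeomorph 𝓘(ℝ, R4) (𝓡 4) R4 S4 ∞) (β : R4 → R4)
    (hB : NB ⊆ B.source) (hβ : IsBarbellMap β) (hBc : B '' SP ⊆ range c) :
    EmbOn I4 (fun p => Function.invFun c (B p)) SP ∧
      (∃ φ, Thin I4 (fun p => Function.invFun c (B p)) φ) ∧
      ∀ φ, Thin I4 (fun p => Function.invFun c (B p)) φ →
        CIsot (𝓡 4) (imp c univ φ) (implantation B β) := by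
  obtain ⟨-, tii, -, -, tv, -, -⟩ := hT2 _ _ (𝓡 4) S4
  obtain ⟨hE, hT⟩ := hT4 B β hB hβ
  obtain ⟨hF, U1, hU1o, hU1s, hU1⟩ := hX3 _ _ (𝓡 4) S4 c B SP hc hE hBc
  obtain ⟨-, -, z3, -⟩ := hX1 _ _ (𝓡 4) S4 c hc
  refine ⟨hF, ?_, ?_⟩
  · obtain ⟨ε₁, hε₁, hφ⟩ := (hT2 _ _ 𝓘(ℝ, R4) R4).1 _ hF
    exact ⟨_, hφ (ε₁ / 2) ⟨by positivity, by linarith⟩⟩
  · intro φ hφ
    exact tii B _ _ (tv _ _ U1 _ hU1o hU1s (fun p hp => hU1 p hp) (z3 _ _ hφ)) hT

theorem invFun_continuousAt {c : R4 → S4} (hc : EmbOn (𝓡 4) c univ) {y : S4}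
    (hy : y ∈ range c) : ContinuousAt (Function.invFun c) y :=
  (Pool.Agent.Helper70.BI.W4.invFun_ld hc hy).contMDiffAt.continuousAt

end F3

open F3 in
theorem m_F3 (hW4 : StW4) (hHC : StHC) (hNULC : StNULC) (hSMH : StSMH) (hR3 : StR3) (hA1 : StA1)
    (hS4 : StS4) (hT2 : StT2) (hT4 : StT4) (hX1 : StX1) (hX2c : StX2c) (hX3 : StX3) (hEI : StEI)
    (hCI : StCI) {W : R4 → R4} (hW : IsW W) : StFinal3 := by
  obtain ⟨W₄, c₀, F₀, α₀, β₀, k1, k2, k3, k4, k5, k6, k7⟩ := hW4 W hW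
  obtain ⟨-, tii, -, -, tv, -, -⟩ := hT2 _ _ (𝓡 4) S4
  obtain ⟨-, cs, cself, ct, cc, -, -, cconj, ciso, -⟩ := hCI _ _ (𝓡 4) S4
  have hE₀ : EmbOn (𝓡 4) F₀ SP := ⟨fun p hp => k6.loc p (SP_sub_FB hp), k6.inj⟩
  obtain ⟨B₀, hB₀, hBF, hiso⟩ := hR3 _ _ (𝓡 4) S4 F₀ W₄ hE₀ k7
  obtain ⟨δ₀, hδ, hδF⟩ := hA1 R4 _ _ (𝓡 4) S4 F₀ (flat 0 ∪ flat 1)
    ((isCompact_flat 0).union (isCompact_flat 1))
    (fun p hp => k6.loc p (Or.inl hp)) k6.balls
  have hWi : implantation B₀ barMap = push B₀ barMap :=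
    implantation_eq_push B₀ hB₀ isBarbellMap_barMap
  rw [← hWi] at hiso
  refine ⟨implantation B₀ barMap, ⟨⟨B₀, δ₀, hB₀, hδ, fun p hp => ?_, rfl⟩, ?_, ?_⟩, ?_⟩
  · have hp' : p ∈ flat 0 ∪ flat 1 := hp.imp (fun h => sph_sub_flat 0 h) fun h => sph_sub_flat 1 h
    rw [hδF p (hδ hp'), hBF p hp]
  · -- order two
    have h1 := cc _ _ _ _ hiso hiso
    exact ciso _ _ (ct _ _ _ (cs _ _ h1) k3)
  · -- centrality
    intro Ψ Ψ' hΨ hΨ' i1 i2
    have h1 := cconj _ _ Ψ Ψ' hiso hΨ hΨ' i1 i2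
    exact ciso _ _ (ct _ _ _ (cs _ _ h1) (ct _ _ _ (k4 Ψ Ψ' hΨ hΨ' i1 i2) hiso))
  intro B β c d hB hβ hcd
  have hsd : ∀ e : ℝ, (e = 0 ∨ e = 1) → sph e ⊆ SP := by
    rintro e (rfl | rfl) p hp
    · exact Or.inl (Or.inl hp)
    · exact Or.inl (Or.inr hp)
  have hc01 : c = 0 ∨ c = 1 := by rcases hcd with h | h <;> simp [h.1]
  have hd01 : d = 0 ∨ d = 1 := by rcases hcd with h | h <;> simp [h.2]
  -- compact sets
  have hfixc : IsCompact (B '' sph c) := by
    have h1 : IsCompact (sph c) := by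
      have h2 : IsCompact (flat c) := isCompact_flat c
      refine h2.of_isClosed_subset ?_ (sph_sub_flat c)
      apply IsClosed.inter (isClosed_eq continuous_fst continuous_const)
      exact isClosed_eq (continuous_rsq c) continuous_const
    refine h1.image_of_continuousOn ?_
    intro p hp
    have : IsLocalDiffeomorphAt 𝓘(ℝ, R4) (𝓡 4) ∞ B p :=
      ⟨B, hB (SP_sub_NB (hsd c hc01 hp)), fun _ _ => rfl⟩
    exact this.contMDiffAt.continuousAt.continuousWithinAt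
  have hsphd : IsCompact (sph d) := by
    have h2 : IsCompact (flat d) := isCompact_flat d
    refine h2.of_isClosed_subset ?_ (sph_sub_flat d)
    apply IsClosed.inter (isClosed_eq continuous_fst continuous_const)
    exact isClosed_eq (continuous_rsq d) continuous_const
  have hsm : ∀ (B' : PartialDiffeomorph 𝓘(ℝ, R4) (𝓡 4) R4 S4 ∞), NB ⊆ B'.source →
      ∀ p ∈ sph d, ContMDiffAt 𝓘(ℝ, R4) (𝓡 4) ∞ B' p := by
    intro B' hB' p hp
    have : IsLocalDiffeomorphAt 𝓘(ℝ, R4) (𝓡 4) ∞ B' p :=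
      ⟨B', hB' (SP_sub_NB (hsd d hd01 hp)), fun _ _ => rfl⟩
    exact this.contMDiffAt
  have hdom : IsCompact (Icc (0 : ℝ) 1 ×ˢ sph d) := isCompact_Icc.prod hsphd
  refine ⟨?_, ?_⟩
  · intro B' β' U h hB' hβ' hU hcU hEq hh h0 h1 hoff
    obtain ⟨h', hh', h0', h1', hoff', hint⟩ := hSMH B B' h (B '' sph c) d hfixc (hsm B hB)
      (hsm B' hB') hh h0 h1 hoff
    obtain ⟨s1, s2⟩ := spine_small hEI hS4 B hB
    obtain ⟨s3, s4⟩ := spine_small hEI hS4 B' hB'
    have s5 : IsCompact (h' '' (Icc (0 : ℝ) 1 ×ˢ sph d)) := hdom.image_of_continuousOn hh'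
    obtain ⟨ch, hch, hsub⟩ := hX2c ((B '' SP ∪ B' '' SP) ∪ h' '' (Icc (0 : ℝ) 1 ×ˢ sph d))
      ((s1.union s3).union s5) (by
        rw [interior_union_isClosed_of_interior_empty (s1.union s3).isClosed hint,
          interior_union_isClosed_of_interior_empty s1.isClosed s4, s2])
    obtain ⟨hF, ⟨φ, hφ⟩, hT⟩ := transfer hT2 hT4 hX1 hX3 ch hch B β hB hβ
      ((subset_union_left.trans subset_union_left).trans hsub)
    obtain ⟨hF', ⟨φ', hφ'⟩, hT'⟩ := transfer hT2 hT4 hX1 hX3 ch hch B' β' hB' hβ'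
      ((subset_union_right.trans subset_union_left).trans hsub)
    have hhr : ∀ z ∈ Icc (0 : ℝ) 1 ×ˢ sph d, h' z ∈ range ch := fun z hz =>
      hsub (Or.inr (mem_image_of_mem _ hz))
    have hinv : ∀ y ∈ range ch, ch (Function.invFun ch y) = y := fun y hy => Function.invFun_eq hy
    obtain ⟨z1, -, -, z4, -⟩ := hX1 _ _ (𝓡 4) S4 ch hch
    have hor := hHC (fun p => Function.invFun ch (B p)) (fun p => Function.invFun ch (B' p)) U
      (fun z => Function.invFun ch (h' z)) W c d hW hcd hF hF' hU hcU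
      (fun p hp => by
        have : B p = B' p := hEq hp
        simp only [this])
      (fun z hz => (invFun_continuousAt hch (hhr z hz)).comp_continuousWithinAt (hh' z hz))
      (fun p hp => by simp only [h0' p hp]) (fun p hp => by simp only [h1' p hp])
      (fun u hu p hp => by
        rintro ⟨q, hq, he⟩
        have he' : Function.invFun ch (B q) = Function.invFun ch (h' (u, p)) := he
        have hBq : B q ∈ range ch :=
          hsub (Or.inl (Or.inl (mem_image_of_mem _ (hsd c hc01 hq))))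
        have e1 : B q = h' (u, p) := by
          rw [← hinv _ hBq, he', hinv _ (hhr (u, p) ⟨hu, hp⟩)]
        exact hoff' u hu p hp ⟨q, hq, e1⟩)
      φ φ' hφ hφ'
    have q1 := hT φ hφ
    have q2 := hT' φ' hφ'
    rcases hor with e | e
    · exact Or.inl (ciso _ _ (ct _ _ _ (cs _ _ q2) (ct _ _ _ (z1 _ _ e) q1)))
    · right
      have h1 := z1 _ _ e
      have e : imp ch univ (fun x => W (φ x)) = fun y => imp ch univ W (imp ch univ φ y) :=
        funext (z4 W φ)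
      rw [e] at h1
      have h2 : CIsot (𝓡 4) (imp ch univ W) (implantation B₀ barMap) := ct _ _ _ (k2 ch hch) hiso
      have h3 := cc _ _ _ _ h2 q1
      exact ciso _ _ (ct _ _ _ (cs _ _ q2) (ct _ _ _ h1 h3))
  · intro h y hh h0 h1 hoff
    obtain ⟨h', hh', h0', h1', hoff', hint⟩ := hSMH B (fun _ => y) h (B '' sph c) d hfixc (hsm B hB)
      (fun p _ => contMDiffAt_const) hh h0 h1 hoff
    obtain ⟨s1, s2⟩ := spine_small hEI hS4 B hB
    have s5 : IsCompact (h' '' (Icc (0 : ℝ) 1 ×ˢ sph d)) := hdom.image_of_continuousOn hh'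
    obtain ⟨ch, hch, hsub⟩ := hX2c (B '' SP ∪ h' '' (Icc (0 : ℝ) 1 ×ˢ sph d))
      (s1.union s5) (by
        rw [interior_union_isClosed_of_interior_empty s1.isClosed hint, s2])
    obtain ⟨hF, ⟨φ, hφ⟩, hT⟩ := transfer hT2 hT4 hX1 hX3 ch hch B β hB hβ
      (subset_union_left.trans hsub)
    have hhr : ∀ z ∈ Icc (0 : ℝ) 1 ×ˢ sph d, h' z ∈ range ch := fun z hz =>
      hsub (Or.inr (mem_image_of_mem _ hz))
    have hinv : ∀ y ∈ range ch, ch (Function.invFun ch y) = y := fun y hy => Function.invFun_eq hy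
    obtain ⟨z1, -, -, z4, -⟩ := hX1 _ _ (𝓡 4) S4 ch hch
    have hor := hNULC (fun p => Function.invFun ch (B p))
      (fun z => Function.invFun ch (h' z)) (Function.invFun ch y) W φ c d hW hcd hF
      (fun z hz => (invFun_continuousAt hch (hhr z hz)).comp_continuousWithinAt (hh' z hz))
      (fun p hp => by simp only [h0' p hp]) (fun p hp => by simp only [h1' p hp])
      (fun u hu p hp => by
        rintro ⟨q, hq, he⟩
        have he' : Function.invFun ch (B q) = Function.invFun ch (h' (u, p)) := he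
        have hBq : B q ∈ range ch :=
          hsub (Or.inl (mem_image_of_mem _ (hsd c hc01 hq)))
        have e1 : B q = h' (u, p) := by
          rw [← hinv _ hBq, he', hinv _ (hhr (u, p) ⟨hu, hp⟩)]
        exact hoff' u hu p hp ⟨q, hq, e1⟩)
      hφ
    have q1 := hT φ hφ
    rcases hor with e | e
    · left
      have h2 := z1 _ _ e
      rw [Pool.Agent.Helper70.BI.W4.imp_id] at h2
      exact ciso _ _ (ct _ _ _ (cs _ _ q1) h2)
    · right
      have h2 : CIsot (𝓡 4) (imp ch univ W) (implantation B₀ barMap) := ct _ _ _ (k2 ch hch) hiso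
      exact ciso _ _ (ct _ _ _ (cs _ _ q1) (ct _ _ _ (z1 _ _ e) h2))

end Pool.Agent.Helper18.BI.H
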