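import Pool.Agent.Helper18.BI.H.StF3
import Pool.Agent.Helper34.BI.BF

/-!
# Project BI, stage 3 (H), modules HC and NULC: both cuffs
-/

set_option autoImplicit false

open scoped Manifold ContDiff Topology ComplexConjugate
open Set Pool.Agent.Helper65.Barb Pool.Agent.Helper18.BI
open Pool.Agent.Helper70.BI (I4 IsW MW StMWL)
open Pool.Agent.Helper27.BI (swp StR2sw)
open Pool.Agent.Helper34.BI (swp_swp swp_mem_sph_zero swp_mem_sph_one swp_mem_SP continuous_swp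
  isLocalDiffeomorphAt_swp)

namespace Pool.Agent.Helper18.BI.H

theorem embOn_swp {G : R4 → R4} (hG : EmbOn I4 G SP) : EmbOn I4 (fun p => G (swp p)) SP :=
  ⟨fun p hp => isLocalDiffeomorphAt_swp (hG.1 _ (swp_mem_SP hp)), fun p hp q hq hpq => by
    have := hG.2 (swp_mem_SP hp) (swp_mem_SP hq) hpq
    rw [← swp_swp p, this, swp_swp]⟩

theorem image_swp (F : R4 → R4) : (fun p => F (swp p)) '' sph 1 = F '' sph 0 := by
  apply Subset.antisymm
  · rintro _ ⟨p, hp, rfl⟩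
    exact ⟨swp p, swp_mem_sph_zero hp, rfl⟩
  · rintro _ ⟨p, hp, rfl⟩
    refine ⟨swp p, swp_mem_sph_one hp, ?_⟩
    show F (swp (swp p)) = F p
    rw [swp_swp]

theorem m_HC (hH : StHMain) (hMWL : StMWL) : StHC := by
  intro F F' U h W c d hW hcd hF hF' hU hcU hEq hh h0 h1 hoff
  rcases hcd with ⟨rfl, rfl⟩ | ⟨rfl, rfl⟩
  · -- the fixed cuff is `sph 0`: apply the theorem to `F ∘ swp`
    obtain ⟨-, -, -, -, -, hsw, -⟩ := hMWL W hW
    apply hsw F F' hF hF'
    intro φ ψ hφ hψ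
    refine hH (fun p => F (swp p)) (fun p => F' (swp p)) (swp ⁻¹' U) (fun z => h (z.1, swp z.2)) W
      φ ψ hW (embOn_swp hF) (embOn_swp hF') (hU.preimage continuous_swp)
      (fun p hp => hcU (swp_mem_sph_zero hp))
      (fun p hp => hEq hp) ?_ (fun p hp => h0 _ (swp_mem_sph_one hp))
      (fun p hp => h1 _ (swp_mem_sph_one hp)) (fun u hu p hp => ?_) hφ hψ
    · refine hh.comp (Continuous.continuousOn ?_) ?_
      · exact continuous_fst.prodMk (continuous_swp.comp continuous_snd)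
      · rintro ⟨u, p⟩ ⟨hu, hp⟩
        exact ⟨hu, swp_mem_sph_one hp⟩
    · rw [image_swp]
      exact hoff u hu _ (swp_mem_sph_one hp)
  · intro φ ψ hφ hψ
    exact hH F F' U h W φ ψ hW hF hF' hU hcU hEq hh h0 h1 hoff hφ hψ

theorem m_NULC (hHC : StHC) (hN : StNUL) (hT2 : StT2) (hCI : StCI) (hsw : StR2sw) : StNULC := by
  intro F h y W φ c d hW hcd hF hh h0 h1 hoff hφ
  obtain ⟨cid, cs, cself, ct, cc, cinv, cex, -⟩ := hCI _ _ 𝓘(ℝ, R4) R4
  obtain ⟨-, tii, -, -, -, -, tvii⟩ := hT2 _ _ 𝓘(ℝ, R4) R4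
  have hWW : CIsot I4 W W := by
    obtain ⟨F₀, α₀, β₀, -, hT⟩ := hW.rep
    exact tvii _ _ hT
  have key : ∀ (F : R4 → R4) (h : ℝ × R4 → R4) (φ : R4 → R4), EmbOn I4 F SP →
      ContinuousOn h (Icc (0 : ℝ) 1 ×ˢ sph 0) → (∀ p ∈ sph 0, h (0, p) = F p) →
      (∀ p ∈ sph 0, h (1, p) = y) →
      (∀ u ∈ Icc (0 : ℝ) 1, ∀ p ∈ sph 0, h (u, p) ∉ F '' sph 1) → Thin I4 F φ →
      CIsot I4 φ (fun x => x) ∨ CIsot I4 φ W := by
    intro F h φ hF hh h0 h1 hoff hφ
    obtain ⟨F', U, h', hF', hU, hsU, hE, hh', h0', h1', hoff', hid⟩ := hN F h y hF hh h0 h1 hoff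
    have hmw := hHC F F' U h' W 1 0 hW (Or.inr ⟨rfl, rfl⟩) hF hF' hU hsU hE hh' h0' h1' hoff'
      φ (fun x => x) hφ hid
    rcases hmw with e | e
    · exact Or.inl (cs _ _ e)
    · right
      have e1 : CIsot I4 (fun x => W x) (fun x => W (W (φ x))) := cc W W _ _ hWW e
      have e2 : CIsot I4 (fun x => W (W (φ x))) φ :=
        cc (fun x => W (W x)) (fun x => x) φ φ hW.sq (tvii _ _ hφ)
      exact cs _ _ (ct _ _ _ e1 e2)
  rcases hcd with ⟨rfl, rfl⟩ | ⟨rfl, rfl⟩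
  · obtain ⟨φ', hφ', i1, i2⟩ := cex φ (tvii _ _ hφ)
    have hT : Thin I4 (fun p => F (swp p)) φ' := (hsw _ _ 𝓘(ℝ, R4) R4 F φ φ' hF i1 i2).1 hφ
    have hor := key (fun p => F (swp p)) (fun z => h (z.1, swp z.2)) φ' (embOn_swp hF) (by
      refine hh.comp (Continuous.continuousOn ?_) ?_
      · exact continuous_fst.prodMk (continuous_swp.comp continuous_snd)
      · rintro ⟨u, p⟩ ⟨hu, hp⟩
        exact ⟨hu, swp_mem_sph_one hp⟩) (fun p hp => h0 _ (swp_mem_sph_one hp))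
      (fun p hp => h1 _ (swp_mem_sph_one hp)) (fun u hu p hp => by
        rw [image_swp]
        exact hoff u hu _ (swp_mem_sph_one hp)) hT
    rcases hor with e | e
    · left
      exact cinv φ' (fun x => x) φ (fun x => x) e i2 (fun _ => rfl)
    · right
      obtain ⟨W', hW', j1, j2⟩ := cex W hWW
      have e1 : CIsot I4 φ W' := cinv φ' W φ W' e i2 j1
      have e2 : CIsot I4 (fun x => W (W (W' x))) W' :=
        cc (fun x => W (W x)) (fun x => x) W' W' hW.sq hW'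
      have e3 : (fun x => W (W (W' x))) = W := by
        funext x
        rw [j1]
      rw [e3] at e2
      exact ct _ _ _ e1 (cs _ _ e2)
  · exact key F h φ hF hh h0 h1 hoff hφ

end Pool.Agent.Helper18.BI.H
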