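import Pool.Agent.Helper18.BI.H.StF3
import Pool.Agent.Helper27.BI.AsmC
import Pool.Agent.Helper70.BI.Base

/-!
# Project BI, stage 3 (H), module NUL: null-homotopic cuffs (helper8)
-/

set_option autoImplicit false

open scoped Manifold ContDiff Topology ComplexConjugate
open Set Filter Pool.Agent.Helper65.Barb Pool.Agent.Helper18.BI
open Pool.Agent.Helper70.BI (I4 IsW MW ld_iff embOn_iff embOn_comp EmbOn.mono')

namespace Pool.Agent.Helper18.BI.H

namespace NUL

/-! ### concatenation of homotopies in a complement -/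

/-- `f` and `g` are homotopic on `S` in the complement of `K` -/
private def Hom (S K : Set R4) (f g : R4 → R4) : Prop :=
  ∃ h : ℝ × R4 → R4, ContinuousOn h (Icc (0 : ℝ) 1 ×ˢ S) ∧ (∀ p ∈ S, h (0, p) = f p) ∧
    (∀ p ∈ S, h (1, p) = g p) ∧ ∀ u ∈ Icc (0 : ℝ) 1, ∀ p ∈ S, h (u, p) ∉ K

private theorem Hom.trans {S K : Set R4} {f g k : R4 → R4} (hS : IsClosed S) (h1 : Hom S K f g)
    (h2 : Hom S K g k) : Hom S K f k := by
  obtain ⟨a, a1, a2, a3, a4⟩ := h1
  obtain ⟨b, b1, b2, b3, b4⟩ := h2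
  let c : ℝ × R4 → R4 := fun z => if z.1 ≤ 1 / 2 then a (2 * z.1, z.2) else b (2 * z.1 - 1, z.2)
  have ca : ∀ u p, u ≤ 1 / 2 → c (u, p) = a (2 * u, p) := fun u p hu => if_pos hu
  have cb : ∀ u, ∀ p ∈ S, 1 / 2 ≤ u → c (u, p) = b (2 * u - 1, p) := by
    intro u p hp hu
    by_cases h : u ≤ 1 / 2
    · have h3 : u = 1 / 2 := le_antisymm h hu
      subst h3
      rw [ca _ _ le_rfl]
      have e1 : (2 * (1 / 2 : ℝ) - 1) = 0 := by norm_num
      have e2 : (2 * (1 / 2 : ℝ)) = 1 := by norm_num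
      rw [e1, e2, a3 p hp, b2 p hp]
    · exact if_neg h
  refine ⟨c, ?_, ?_, ?_, ?_⟩
  · have hU : Icc (0 : ℝ) 1 ×ˢ S = (Icc (0 : ℝ) (1 / 2) ×ˢ S) ∪ (Icc (1 / 2 : ℝ) 1 ×ˢ S) := by
      rw [← Set.union_prod, Set.Icc_union_Icc_eq_Icc (by norm_num) (by norm_num)]
    rw [hU]
    refine ContinuousOn.union_of_isClosed ?_ ?_ (isClosed_Icc.prod hS) (isClosed_Icc.prod hS)
    · refine ContinuousOn.congr (f := fun z : ℝ × R4 => a (2 * z.1, z.2)) ?_ ?_
      · refine a1.comp (Continuous.continuousOn (by fun_prop)) ?_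
        rintro ⟨u, p⟩ ⟨hu, hp⟩
        exact ⟨⟨by show (0 : ℝ) ≤ 2 * u; linarith [hu.1], by show 2 * u ≤ (1 : ℝ); linarith [hu.2]⟩, hp⟩
      · rintro ⟨u, p⟩ ⟨hu, hp⟩
        exact ca u p hu.2
    · refine ContinuousOn.congr (f := fun z : ℝ × R4 => b (2 * z.1 - 1, z.2)) ?_ ?_
      · refine b1.comp (Continuous.continuousOn (by fun_prop)) ?_
        rintro ⟨u, p⟩ ⟨hu, hp⟩
        exact ⟨⟨by show (0 : ℝ) ≤ 2 * u - 1; linarith [hu.1],
          by show 2 * u - 1 ≤ (1 : ℝ); linarith [hu.2]⟩, hp⟩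
      · rintro ⟨u, p⟩ ⟨hu, hp⟩
        exact cb u p hp hu.1
  · intro p hp
    rw [ca 0 p (by norm_num), mul_zero, a2 p hp]
  · intro p hp
    have e1 : (2 * (1 : ℝ) - 1) = 1 := by norm_num
    rw [cb 1 p hp (by norm_num), e1, b3 p hp]
  · intro u hu p hp
    by_cases h : u ≤ 1 / 2
    · rw [ca u p h]
      exact a4 _ ⟨by linarith [hu.1], by linarith⟩ p hp
    · rw [cb u p hp (not_le.1 h).le]
      exact b4 _ ⟨by linarith [not_le.1 h], by linarith [hu.2]⟩ p hp

/-! ### the compression of the flat ball -/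

private noncomputable def T (a : ℝ) : ℝ := step (20 * a - 14)

private noncomputable def kax (r a : ℝ) : ℝ := T a * a + (1 - T a) * (3 / 5 + 5 * r * a)

private noncomputable def mk (r a : ℝ) : ℝ := T a + (1 - T a) * (5 * r)

private noncomputable def kap (r : ℝ) (p : R4) : R4 := (p.1, (kax r p.2.1, mk r p.2.1 • p.2.2))

private theorem T_lo {a : ℝ} (h : a ≤ 7 / 10) : T a = 0 := step_of_nonpos (by linarith)

private theorem T_hi {a : ℝ} (h : 3 / 4 ≤ a) : T a = 1 := step_of_one_le (by linarith)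

private theorem T_mem (a : ℝ) : T a ∈ Icc (0 : ℝ) 1 := step_mem _

private theorem T_smooth : ContDiff ℝ ∞ T := contDiff_step.comp (by fun_prop)

private theorem T_mono : Monotone T := by
  intro a b hab
  exact Real.smoothTransition.monotone (by linarith)

private theorem kax_smooth (r : ℝ) : ContDiff ℝ ∞ (kax r) := by
  unfold kax
  exact (T_smooth.mul contDiff_id).add ((contDiff_const.sub T_smooth).mul (by fun_prop))

private theorem mk_smooth (r : ℝ) : ContDiff ℝ ∞ (mk r) := by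
  unfold mk
  exact T_smooth.add ((contDiff_const.sub T_smooth).mul contDiff_const)

private theorem mk_pos {r : ℝ} (h0 : 0 < r) (a : ℝ) : 0 < mk r a := by
  have h := T_mem a
  unfold mk
  rcases h.1.eq_or_lt with h1 | h1
  · rw [← h1]
    linarith
  · have h2 : 0 ≤ (1 - T a) * (5 * r) := mul_nonneg (by linarith [h.2]) (by linarith)
    linarith

private theorem kax_deriv {r : ℝ} (h0 : 0 < r) (h1 : r ≤ 1 / 100) (a : ℝ) : 0 < deriv (kax r) a := by
  have hT : HasDerivAt T (deriv T a) a := (T_smooth.differentiable (by simp) a).hasDerivAt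
  have hk : HasDerivAt (kax r) (deriv T a * (a - (3 / 5 + 5 * r * a)) + mk r a) a := by
    have e1 : HasDerivAt (fun a : ℝ => T a * a) (deriv T a * a + T a * 1) a := hT.mul (hasDerivAt_id a)
    have e2 : HasDerivAt (fun a : ℝ => (3 / 5 + 5 * r * a)) (5 * r) a := by
      have := ((hasDerivAt_id a).const_mul (5 * r)).const_add (3 / 5)
      simpa using this
    have e3 : HasDerivAt (fun a : ℝ => 1 - T a) (-(deriv T a)) a := hT.const_sub 1
    have e4 := e1.add (e3.mul e2)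
    refine e4.congr_deriv ?_
    unfold mk
    ring
  rw [hk.deriv]
  have hm := mk_pos h0 a
  rcases lt_or_ge a (7 / 10) with h | h
  · have h2 : deriv T a = 0 := by
      have h3 : T =ᶠ[𝓝 a] fun _ => 0 := by
        filter_upwards [Iio_mem_nhds h] with b hb
        exact T_lo (le_of_lt hb)
      rw [h3.deriv_eq, deriv_const]
    rw [h2]
    linarith
  · have h2 : 0 ≤ deriv T a := T_mono.deriv_nonneg
    have h3 : 0 ≤ a - (3 / 5 + 5 * r * a) := by nlinarith
    have h4 := mul_nonneg h2 h3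
    linarith

private theorem kax_strictMono {r : ℝ} (h0 : 0 < r) (h1 : r ≤ 1 / 100) : StrictMono (kax r) :=
  strictMono_of_deriv_pos (kax_deriv h0 h1)

private theorem kap_inj {r : ℝ} (h0 : 0 < r) (h1 : r ≤ 1 / 100) : Function.Injective (kap r) := by
  rintro ⟨s, a, w⟩ ⟨s', a', w'⟩ h
  simp only [kap, Prod.mk.injEq] at h
  obtain ⟨e1, e2, e3⟩ := h
  have e4 : a = a' := (kax_strictMono h0 h1).injective e2
  subst e4
  have e5 : w = w' := smul_right_injective ℂ (mk_pos h0 a).ne' e3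
  rw [e1, e5]

private theorem kap_smooth (r : ℝ) : ContDiff ℝ ∞ (kap r) := by
  unfold kap
  exact contDiff_fst.prodMk (((kax_smooth r).comp (contDiff_fst.comp contDiff_snd)).prodMk
    (((mk_smooth r).comp (contDiff_fst.comp contDiff_snd)).smul (contDiff_snd.comp contDiff_snd)))

private theorem kap_ld {r : ℝ} (h0 : 0 < r) (h1 : r ≤ 1 / 100) (p : R4) :
    Pool.Agent.Helper70.BI.LD (kap r) p := by
  rw [ld_iff]
  refine ⟨Eventually.of_forall fun q => (kap_smooth r).contDiffAt, ?_⟩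
  have hA : HasFDerivAt (fun p : R4 => p.2.1)
      ((ContinuousLinearMap.fst ℝ ℝ ℂ).comp (ContinuousLinearMap.snd ℝ ℝ R3)) p :=
    ((ContinuousLinearMap.fst ℝ ℝ ℂ).comp (ContinuousLinearMap.snd ℝ ℝ R3)).hasFDerivAt
  have hW : HasFDerivAt (fun p : R4 => p.2.2)
      ((ContinuousLinearMap.snd ℝ ℝ ℂ).comp (ContinuousLinearMap.snd ℝ ℝ R3)) p :=
    ((ContinuousLinearMap.snd ℝ ℝ ℂ).comp (ContinuousLinearMap.snd ℝ ℝ R3)).hasFDerivAt
  have hS : HasFDerivAt (fun p : R4 => p.1) (ContinuousLinearMap.fst ℝ ℝ R3) p :=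
    (ContinuousLinearMap.fst ℝ ℝ R3).hasFDerivAt
  have hk : HasDerivAt (kax r) (deriv (kax r) p.2.1) p.2.1 :=
    ((kax_smooth r).differentiable (by simp) _).hasDerivAt
  have hm : HasDerivAt (mk r) (deriv (mk r) p.2.1) p.2.1 :=
    ((mk_smooth r).differentiable (by simp) _).hasDerivAt
  have h2 := hS.prodMk ((hk.comp_hasFDerivAt p hA).prodMk ((hm.comp_hasFDerivAt p hA).smul hW))
  have h3 : HasFDerivAt (kap r) _ p := h2
  rw [h3.fderiv]
  rw [injective_iff_map_eq_zero]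
  rintro ⟨v1, v2, v3⟩ hv
  simp only [ContinuousLinearMap.prod_apply, ContinuousLinearMap.coe_fst', Prod.mk_eq_zero,
    _root_.smul_apply, ContinuousLinearMap.comp_apply, ContinuousLinearMap.coe_snd',
    _root_.add_apply, ContinuousLinearMap.smulRight_apply, smul_eq_mul, Function.comp] at hv
  obtain ⟨e1, e2, e3⟩ := hv
  have e4 : v2 = 0 := by
    rcases mul_eq_zero.1 e2 with h | h
    · exact absurd h (kax_deriv h0 h1 _).ne'
    · exact h
  subst e4
  rw [mul_zero, zero_smul, add_zero] at e3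
  have e5 : v3 = 0 := by
    rcases smul_eq_zero.1 e3 with h | h
    · exact absurd h (mk_pos h0 _).ne'
    · exact h
  rw [e1, e5]
  rfl

private theorem kap_emb {r : ℝ} (h0 : 0 < r) (h1 : r ≤ 1 / 100) (L : Set R4) : EmbOn I4 (kap r) L :=
  ⟨fun p _ => kap_ld h0 h1 p, (kap_inj h0 h1).injOn⟩

private theorem kap_hi {r : ℝ} {p : R4} (h : 3 / 4 ≤ p.2.1) : kap r p = p := by
  unfold kap kax mk
  rw [T_hi h]
  simp

private theorem kap_lo {r : ℝ} {p : R4} (h : p.2.1 ≤ 7 / 10) :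
    kap r p = (p.1, (3 / 5 + 5 * r * p.2.1, (5 * r) • p.2.2)) := by
  unfold kap kax mk
  rw [T_lo h]
  simp

/-! ### coordinates -/

private theorem rsq0_bound {p : R4} (h : rsq 0 p ≤ 1 / 25) : |p.2.1| ≤ 1 / 5 ∧ ‖p.2.2‖ ≤ 1 / 5 := by
  have e : rsq 0 p = p.2.1 ^ 2 + ‖p.2.2‖ ^ 2 := by
    unfold rsq nsq
    rw [← Complex.normSq_eq_norm_sq, Complex.normSq_apply]
    simp only [sub_zero]
    ring
  rw [e] at h
  constructor
  · apply abs_le_of_sq_le_sq _ (by norm_num)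
    nlinarith [sq_nonneg ‖p.2.2‖]
  · apply le_of_sq_le_sq _ (by norm_num)
    nlinarith [sq_nonneg p.2.1]

private theorem sph1_hi {p : R4} (h : p ∈ sph 1) : 4 / 5 ≤ p.2.1 := by
  have e : rsq 1 p = (p.2.1 - 1) ^ 2 + ‖p.2.2‖ ^ 2 := by
    unfold rsq nsq
    rw [← Complex.normSq_eq_norm_sq, Complex.normSq_apply]
    ring
  have h2 := h.2
  rw [e] at h2
  have h3 : |p.2.1 - 1| ≤ 1 / 5 := by
    apply abs_le_of_sq_le_sq _ (by norm_num)
    nlinarith [sq_nonneg ‖p.2.2‖]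
  linarith [(abs_le.1 h3).1]

private theorem small_dist {t : ℝ} (h0 : 0 ≤ t) {p : R4} (h : rsq 0 p ≤ 1 / 25) :
    dist ((1 / 2, (3 / 5 + t * p.2.1, t • p.2.2)) : R4) (bar (3 / 5)) ≤ t / 5 := by
  obtain ⟨h1, h2⟩ := rsq0_bound h
  unfold bar
  rw [Prod.dist_eq, Prod.dist_eq]
  simp only [dist_self, Real.dist_eq, dist_zero_right, add_sub_cancel_left, abs_mul, norm_smul,
    Real.norm_eq_abs, abs_of_nonneg h0]
  refine max_le (by positivity) (max_le ?_ ?_)
  · nlinarith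
  · nlinarith

end NUL

open NUL in
/-- **NUL.** -/
theorem m_NUL : StNUL := by
  intro F h y hF hc h0 h1 hoff
  -- the open set on which `F` is an embedding
  have hSPc : IsCompact SP := X2.isCompact_SP
  obtain ⟨δ, hδ, hδF⟩ := hA1 R4 R4 R4 I4 R4 F SP hSPc hF.1 hF.2
  have hO : IsOpen δ.source := δ.open_source
  have hFO : EmbOn I4 F δ.source := by
    refine ⟨fun p hp => ?_, fun p hp q hq he => ?_⟩
    · exact ⟨δ, hp, fun q hq => (hδF q hq).symm⟩
    · rw [← hδF p hp, ← hδF q hq] at he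
      exact δ.toPartialEquiv.injOn hp hq he
  have hFc : ContinuousOn F δ.source := by
    intro p hp
    exact ((ld_iff.1 (hFO.1 p hp)).1.self_of_nhds).continuousAt.continuousWithinAt
  -- the radius
  have h35 : bar (3 / 5) ∈ SP := Or.inr ⟨rfl, by show (1 / 5 : ℝ) ≤ 3 / 5; norm_num,
    by show (3 / 5 : ℝ) ≤ 4 / 5; norm_num, rfl⟩
  obtain ⟨ρ, hρ, hball⟩ := Metric.isOpen_iff.1 hO _ (hδ h35)
  obtain ⟨r, hr0, hr1, hrρ⟩ : ∃ r : ℝ, 0 < r ∧ r ≤ 1 / 100 ∧ r < ρ :=
    ⟨min (1 / 100) (ρ / 2), lt_min (by norm_num) (by linarith), min_le_left _ _,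
      lt_of_le_of_lt (min_le_right _ _) (by linarith)⟩
  have hsmall : ∀ t : ℝ, 0 ≤ t → t ≤ 5 * r → ∀ p : R4, rsq 0 p ≤ 1 / 25 →
      ((1 / 2, (3 / 5 + t * p.2.1, t • p.2.2)) : R4) ∈ δ.source := by
    intro t ht0 ht1 p hp
    apply hball
    rw [Metric.mem_ball]
    have := small_dist ht0 hp
    linarith
  -- `F '' sph 1` is missed by the images of the points of `δ.source` with `a < 4/5`
  have hmiss : ∀ z ∈ δ.source, z.2.1 < 4 / 5 → F z ∉ F '' sph 1 := by
    rintro z hz hz1 ⟨q, hq, he⟩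
    have h2 : q = z := hFO.2 (hδ (Or.inl (Or.inr hq))) hz he
    have h3 := sph1_hi hq
    rw [h2] at h3
    linarith
  -- the new germ
  have hflat : ∀ p ∈ flat 0, kap r p ∈ δ.source := by
    intro p hp
    have h2 := (rsq0_bound hp.2).1
    rw [kap_lo (by linarith [(abs_le.1 h2).2]), hp.1]
    exact hsmall (5 * r) (by linarith) le_rfl p hp.2
  have hsph : ∀ p ∈ sph 1, kap r p = p := fun p hp => kap_hi (by linarith [sph1_hi hp])
  have hneck : ∀ p ∈ neck, kap r p ∈ neck := by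
    intro p hp
    obtain ⟨e1, e2, e3, e4⟩ := hp
    have hm := (kax_strictMono hr0 hr1).monotone
    refine ⟨e1, ?_, ?_, ?_⟩
    · show 1 / 5 ≤ kax r p.2.1
      have h2 : kax r (1 / 5) ≤ kax r p.2.1 := hm e2
      have h3 : kax r (1 / 5) = 3 / 5 + 5 * r * (1 / 5) := by
        unfold kax
        rw [T_lo (by norm_num)]
        ring
      rw [h3] at h2
      linarith
    · show kax r p.2.1 ≤ 4 / 5
      have h2 : kax r p.2.1 ≤ kax r (4 / 5) := hm e3
      have h3 : kax r (4 / 5) = 4 / 5 := by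
        unfold kax
        rw [T_hi (by norm_num)]
        ring
      rw [h3] at h2
      exact h2
    · show mk r p.2.1 • p.2.2 = 0
      rw [e4, smul_zero]
  have hF' : EmbOn I4 (F ∘ kap r) (flat 0 ∪ sph 1 ∪ neck) := by
    refine embOn_comp hFO (kap_emb hr0 hr1 _) ?_
    rintro p ((hp | hp) | hp)
    · exact hflat p hp
    · rw [hsph p hp]
      exact hδ (Or.inl (Or.inr hp))
    · exact hδ (Or.inr (hneck p hp))
  have hthin := Pool.Agent.Helper27.BI.hVanT R4 R4 I4 R4 (F ∘ kap r) hF'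
  have hsub : SP ⊆ flat 0 ∪ sph 1 ∪ neck := by
    rintro p ((hp | hp) | hp)
    · exact Or.inl (Or.inl ⟨hp.1, hp.2.le⟩)
    · exact Or.inl (Or.inr hp)
    · exact Or.inr hp
  -- the homotopy
  have hfoot : foot0 ∈ sph 0 := by
    refine ⟨rfl, ?_⟩
    show nsq _ = _
    unfold nsq foot0
    norm_num
  have hclosed : IsClosed (sph 0) := by
    have hrc : Continuous (rsq 0) := by
      unfold rsq nsq
      fun_prop
    exact (isClosed_eq continuous_fst continuous_const).inter (isClosed_eq hrc continuous_const)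
  have H1 : Hom (sph 0) (F '' sph 1) F (fun _ => y) := ⟨h, hc, h0, h1, hoff⟩
  have H2 : Hom (sph 0) (F '' sph 1) (fun _ => y) (fun _ => F foot0) := by
    refine ⟨fun z => h (1 - z.1, foot0), ?_, ?_, ?_, ?_⟩
    · refine hc.comp (Continuous.continuousOn (by fun_prop)) ?_
      rintro ⟨u, p⟩ ⟨hu, hp⟩
      exact ⟨⟨by show (0 : ℝ) ≤ 1 - u; linarith [hu.2], by show 1 - u ≤ (1 : ℝ); linarith [hu.1]⟩, hfoot⟩
    · intro p _
      show h (1 - 0, foot0) = y
      rw [sub_zero, h1 _ hfoot]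
    · intro p _
      show h (1 - 1, foot0) = F foot0
      rw [sub_self, h0 _ hfoot]
    · intro u hu p _
      exact hoff _ ⟨by linarith [hu.2], by linarith [hu.1]⟩ _ hfoot
  have hbar : ∀ a ∈ Icc (1 / 5 : ℝ) (3 / 5), bar a ∈ SP := fun a ha =>
    Or.inr ⟨rfl, ha.1, by show a ≤ 4 / 5; linarith [ha.2], rfl⟩
  have H3 : Hom (sph 0) (F '' sph 1) (fun _ => F foot0) (fun _ => F (bar (3 / 5))) := by
    refine ⟨fun z => F (bar (1 / 5 + 2 / 5 * z.1)), ?_, ?_, ?_, ?_⟩
    · refine hFc.comp (Continuous.continuousOn ?_) ?_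
      · unfold bar
        fun_prop
      · rintro ⟨u, p⟩ ⟨hu, hp⟩
        exact hδ (hbar _ ⟨by show (1 / 5 : ℝ) ≤ 1 / 5 + 2 / 5 * u; linarith [hu.1],
          by show 1 / 5 + 2 / 5 * u ≤ (3 / 5 : ℝ); linarith [hu.2]⟩)
    · intro p _
      show F (bar (1 / 5 + 2 / 5 * 0)) = F foot0
      rw [mul_zero, add_zero]
      rfl
    · intro p _
      show F (bar (1 / 5 + 2 / 5 * 1)) = F (bar (3 / 5))
      norm_num
    · intro u hu p _
      refine hmiss _ (hδ (hbar _ ⟨by linarith [hu.1], by linarith [hu.2]⟩)) ?_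
      show 1 / 5 + 2 / 5 * u < 4 / 5
      linarith [hu.2]
  have H4 : Hom (sph 0) (F '' sph 1) (fun _ => F (bar (3 / 5))) (F ∘ kap r) := by
    refine ⟨fun z => F (1 / 2, (3 / 5 + (z.1 * (5 * r)) * z.2.2.1, (z.1 * (5 * r)) • z.2.2.2)), ?_, ?_, ?_, ?_⟩
    · refine hFc.comp (Continuous.continuousOn (by fun_prop)) ?_
      rintro ⟨u, p⟩ ⟨hu, hp⟩
      refine hsmall (u * (5 * r)) (mul_nonneg hu.1 (by linarith)) ?_ p hp.2.le
      nlinarith [hu.2]
    · intro p _
      show F (1 / 2, (3 / 5 + (0 * (5 * r)) * p.2.1, (0 * (5 * r)) • p.2.2)) = F (bar (3 / 5))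
      rw [zero_mul, zero_mul, zero_smul, add_zero]
      rfl
    · intro p hp
      show F (1 / 2, (3 / 5 + (1 * (5 * r)) * p.2.1, (1 * (5 * r)) • p.2.2)) = F (kap r p)
      have h2 := (rsq0_bound hp.2.le).1
      rw [one_mul, kap_lo (by linarith [(abs_le.1 h2).2]), hp.1]
    · intro u hu p hp
      have h2 := (rsq0_bound hp.2.le).1
      have h3 : 0 ≤ u * (5 * r) := mul_nonneg hu.1 (by linarith)
      have h4 : u * (5 * r) ≤ 5 * r := by nlinarith [hu.2]
      refine hmiss _ (hsmall (u * (5 * r)) h3 h4 p hp.2.le) ?_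
      show 3 / 5 + (u * (5 * r)) * p.2.1 < 4 / 5
      have h5 := (abs_le.1 h2).2
      nlinarith
  obtain ⟨h', a1, a2, a3, a4⟩ := ((H1.trans hclosed H2).trans hclosed H3).trans hclosed H4
  refine ⟨F ∘ kap r, {p | 3 / 4 < p.2.1}, h', Pool.Agent.Helper70.BI.EmbOn.mono' hF' hsub, ?_, ?_, ?_, a1, a2, a3, a4, hthin⟩
  · exact isOpen_lt continuous_const (continuous_fst.comp continuous_snd)
  · intro p hp
    show 3 / 4 < p.2.1
    linarith [sph1_hi hp]
  · intro p hp
    have hp' : 3 / 4 < p.2.1 := hp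
    show F p = F (kap r p)
    rw [kap_hi hp'.le]

end Pool.Agent.Helper18.BI.H
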