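import Pool.Agent.Helper18.BI.H.StS7
import Pool.Agent.Helper18.BI.AsmA
import Pool.Agent.Helper27.BI.M_ZNSQ

/-!
# Project BI, stage 3 (H), module SM: smoothing the homotopy of the loops of arcs
-/

set_option autoImplicit false

open scoped Manifold ContDiff Topology ComplexConjugate
open Set Pool.Agent.Helper65.Barb Pool.Agent.Helper18.BI
open Pool.Agent.Helper27.BI (zarc phi)

namespace Pool.Agent.Helper18.BI.H

namespace SM

private theorem SM_neg {x : ℝ} (h : 1 / 5 ≤ x) : 0 ≤ -(1 / 25 - x ^ 2) := by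
  have h0 : (1 / 25 : ℝ) = 1 / 5 * (1 / 5) := by norm_num
  have h1 : (1 / 5 : ℝ) * (1 / 5) ≤ x * x := mul_self_le_mul_self (by norm_num) h
  rw [h0, pow_two]
  exact neg_nonneg.2 (sub_nonpos.2 h1)

private theorem SM_sqrt {x : ℝ} (h : 0 ≤ -x) : √(x ^ 2 + 0 ^ 2) = -x := by
  have e : x ^ 2 + (0 : ℝ) ^ 2 = (-x) ^ 2 := by ring
  rw [e]
  exact Real.sqrt_sq h

private theorem SM_num : ((9 : ℝ) / 20 < 11 / 20) ∧ ((1 : ℝ) / 4 < 1 / 3) ∧ ((2 : ℝ) / 3 < 3 / 4) ∧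
    ((3 : ℝ) / 5 < 13 / 20) ∧ ((0 : ℝ) ≤ 1 / 4) ∧ ((0 : ℝ) ≤ 1 / 3) ∧ ((3 : ℝ) / 4 ≤ 1) ∧
    ((2 : ℝ) / 3 ≤ 1) ∧ ((7 : ℝ) / 10 ≤ 73 / 100) ∧ ((73 : ℝ) / 100 ≤ 39 / 50) ∧
    ((7 : ℝ) / 10 < 73 / 100) ∧ ((3 : ℝ) / 4 < 39 / 50) := by
  norm_num

private theorem SM_one {m : R3} (hm : m = (1, 0)) :
    3 / 5 ≤ 73 / 100 * m.1 ∧ 13 / 20 ≤ 73 / 100 * m.1 := by
  rw [hm]
  norm_num

private theorem sq_bar_sm (s a : ℝ) (w : ℂ) (h1 : 1 / 5 ≤ a) (h2 : a ≤ 4 / 5) :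
    sq 0 (s, (a, w)) = bar a := by
  have hp : prof 0 a = 0 := by
    unfold prof
    have e1 : √((1 / 25 - a ^ 2) ^ 2 + 0 ^ 2) = -(1 / 25 - a ^ 2) := SM_sqrt (SM_neg h1)
    have e2 : √((1 / 25 - (a - 1) ^ 2) ^ 2 + 0 ^ 2) = -(1 / 25 - (a - 1) ^ 2) := by
      refine SM_sqrt ?_
      have h3 : (1 : ℝ) / 5 ≤ 1 - a := le_sub_comm.1 (h2.trans_eq (by norm_num))
      have h4 := SM_neg h3
      have h5 : (a - 1) ^ 2 = (1 - a) ^ 2 := by ring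
      rw [h5]
      exact h4
    rw [e1, e2]
    ring
  have hf : ∀ k : ℝ, fac 0 a k = 0 := by
    intro k
    unfold fac
    rw [hp]
    simp
  have ha : axc 0 a = a := by
    unfold axc
    have e1 : √((a + 1 / 5) ^ 2 + 0 ^ 2) = a + 1 / 5 := by
      have h0 : (0 : ℝ) ≤ a + 1 / 5 :=
        add_nonneg (le_trans (by norm_num) h1) (by norm_num)
      rw [zero_pow two_ne_zero, add_zero]
      exact Real.sqrt_sq h0
    have e2 : √((a - 6 / 5) ^ 2 + 0 ^ 2) = -(a - 6 / 5) :=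
      SM_sqrt (neg_nonneg.2 (sub_nonpos.2 (h2.trans (by norm_num))))
    rw [e1, e2]
    ring
  unfold sq bar
  simp only [hf, ha]
  simp

private theorem sq_fst_sm (s : ℝ) (x : R3) : sq 0 (s, x) = sq 0 (1 / 2, x) := by
  unfold sq
  simp

private theorem nsq_mm (q s : ℝ) : nsq (mm q s) = 1 := by
  unfold mm
  rw [Pool.Agent.Helper27.BI.m_ZNSQ]
  ring

private theorem mm_out (q s : ℝ) (h : s ≤ 9 / 20 ∨ 11 / 20 ≤ s) : mm q s = (1, 0) := by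
  have h1 : Real.cos (phi (10 * s - 9 / 2)) = 1 ∧ Real.sin (phi (10 * s - 9 / 2)) = 0 := by
    unfold phi step
    rcases h with h | h
    · rw [Real.smoothTransition.zero_of_nonpos (by linarith only [h]), mul_zero]
      exact ⟨Real.cos_zero, Real.sin_zero⟩
    · rw [Real.smoothTransition.one_of_one_le (by linarith only [h]), mul_one]
      exact ⟨Real.cos_two_pi, Real.sin_two_pi⟩
  unfold mm zarc Pool.Agent.Helper27.BI.chi
  rw [h1.1, h1.2]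
  refine Prod.ext (by simp) (Complex.ext (by simp) (by simp))

private theorem mm_smooth : ContDiff ℝ ∞ (fun z : ℝ × ℝ => mm z.1 z.2) := by
  have hst : ContDiff ℝ ∞ (fun z : ℝ × ℝ => step (10 * z.2 - 9 / 2)) :=
    Real.smoothTransition.contDiff.comp ((contDiff_const.mul contDiff_snd).sub contDiff_const)
  have hphi : ContDiff ℝ ∞ (fun z : ℝ × ℝ => phi (10 * z.2 - 9 / 2)) :=
    contDiff_const.mul hst
  have hchi : ContDiff ℝ ∞ (fun z : ℝ × ℝ => Pool.Agent.Helper27.BI.chi (10 * z.2 - 9 / 2)) :=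
    (contDiff_const.sub (Real.contDiff_cos.comp hphi)).div_const _
  have hq : ContDiff ℝ ∞ (fun z : ℝ × ℝ => 2 * Real.pi * z.1) := contDiff_const.mul contDiff_fst
  have hq' : ContDiff ℝ ∞ (fun z : ℝ × ℝ => Real.pi * z.1) := contDiff_const.mul contDiff_fst
  have h1 : ContDiff ℝ ∞ (fun z : ℝ × ℝ =>
      1 + Pool.Agent.Helper27.BI.chi (10 * z.2 - 9 / 2) * (Real.cos (2 * Real.pi * z.1) - 1)) :=
    contDiff_const.add (hchi.mul ((Real.contDiff_cos.comp hq).sub contDiff_const))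
  have h2 : ContDiff ℝ ∞ (fun z : ℝ × ℝ =>
      -Real.sin (Real.pi * z.1) * Real.sin (phi (10 * z.2 - 9 / 2))) :=
    (Real.contDiff_sin.comp hq').neg.mul (Real.contDiff_sin.comp hphi)
  have h3 : ContDiff ℝ ∞ (fun z : ℝ × ℝ =>
      Pool.Agent.Helper27.BI.chi (10 * z.2 - 9 / 2) * Real.sin (2 * Real.pi * z.1)) :=
    hchi.mul (Real.contDiff_sin.comp hq)
  have h4 : ContDiff ℝ ∞ (fun z : ℝ × ℝ =>
      ((-Real.sin (Real.pi * z.1) * Real.sin (phi (10 * z.2 - 9 / 2)) : ℝ) : ℂ) +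
        ((Pool.Agent.Helper27.BI.chi (10 * z.2 - 9 / 2) * Real.sin (2 * Real.pi * z.1) : ℝ) : ℂ) * Complex.I) :=
    (Complex.ofRealCLM.contDiff.comp h2).add ((Complex.ofRealCLM.contDiff.comp h3).mul
      contDiff_const)
  have h5 := h1.prodMk h4
  refine (congrArg (ContDiff ℝ ∞) (funext fun z => ?_)).mp h5
  unfold mm zarc
  refine Prod.ext rfl (Complex.ext ?_ ?_)
  · rw [Complex.add_re, Complex.ofReal_re, Complex.re_ofReal_mul, Complex.I_re, mul_zero, add_zero]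
  · rw [Complex.add_im, Complex.ofReal_im, Complex.im_ofReal_mul, Complex.I_im, mul_one, zero_add]

private theorem fst_le_sm {m : R3} (hm : nsq m = 1) : m.1 ≤ 1 := by
  unfold nsq at hm
  have h : m.1 ^ 2 ≤ 1 := by linarith only [hm, sq_nonneg m.2.re, sq_nonneg m.2.im]
  exact (le_abs_self _).trans ((sq_le_one_iff_abs_le_one _).1 h)

private theorem mem_SP_sm (s r : ℝ) (m : R3) (hm : nsq m = 1) (h1 : 7 / 10 ≤ r)
    (h2 : r ≤ 39 / 50) : sq 0 (s, r • m) ∈ SP := by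
  apply hS4.1
  have h3 := fst_le_sm hm
  unfold nsq at hm
  refine ⟨?_, ?_⟩
  · show ((1 : ℝ) / 5) ^ 2 ≤ nsq _
    unfold nsq
    simp only [Prod.smul_fst, Prod.smul_snd, smul_eq_mul, Complex.real_smul, Complex.mul_re,
      Complex.mul_im, Complex.ofReal_re, Complex.ofReal_im, zero_mul, sub_zero, add_zero]
    have h4 : (r * m.1) ^ 2 + (r * m.2.re) ^ 2 + (r * m.2.im) ^ 2 = r ^ 2 := by
      linear_combination r ^ 2 * hm
    rw [h4]
    exact pow_le_pow_left₀ (by norm_num) (le_trans (by norm_num) h1) 2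
  · show ((1 : ℝ) / 5) ^ 2 ≤ nsq _
    unfold nsq
    simp only [Prod.smul_fst, Prod.smul_snd, smul_eq_mul, Complex.real_smul, Complex.mul_re,
      Complex.mul_im, Complex.ofReal_re, Complex.ofReal_im, zero_mul, sub_zero, add_zero]
    have h4 : (r * m.1 - 1) ^ 2 + (r * m.2.re) ^ 2 + (r * m.2.im) ^ 2 =
        r ^ 2 - 2 * r * m.1 + 1 := by linear_combination r ^ 2 * hm
    rw [h4]
    have h5 : (0 : ℝ) ≤ r * (1 - m.1) :=
      mul_nonneg (le_trans (by norm_num) h1) (sub_nonneg.2 h3)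
    have h6 : ((1 : ℝ) / 5) ^ 2 ≤ (1 - r) ^ 2 :=
      pow_le_pow_left₀ (by norm_num) (le_sub_comm.1 (h2.trans (by norm_num))) 2
    have h7 : r ^ 2 - 2 * r * m.1 + 1 = (1 - r) ^ 2 + 2 * (r * (1 - m.1)) := by ring
    rw [h7]
    exact h6.trans (le_add_of_nonneg_right (mul_nonneg zero_le_two h5))

private theorem mem_neckE_sm (s r : ℝ) (m : R3) (hm : nsq m = 1) (h1 : 7 / 10 ≤ r)
    (h2 : r ≤ 39 / 50) (h : r = 73 / 100 ∨ m = (1, 0)) (h3 : 3 / 5 ≤ 73 / 100 * m.1) :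
    sq 0 (s, r • m) ∈ neckE := by
  have h4 := fst_le_sm hm
  have h5 : 3 / 5 ≤ r * m.1 ∧ r * m.1 ≤ 4 / 5 := by
    rcases h with h | h
    · rw [h]; exact ⟨h3, by linarith only [h4]⟩
    · rw [h]
      show 3 / 5 ≤ r * 1 ∧ r * 1 ≤ 4 / 5
      rw [mul_one]
      exact ⟨le_trans (by norm_num) h1, h2.trans (by norm_num)⟩
  have e : ((s, r • m) : R4) = (s, (r * m.1, (r : ℝ) • m.2)) := rfl
  have h6 : (1 : ℝ) / 5 ≤ r * m.1 := le_trans (by norm_num) h5.1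
  rw [e, sq_bar_sm _ _ _ h6 h5.2]
  exact ⟨⟨rfl, h6, h5.2, rfl⟩, h5.1⟩

private theorem nu_cont_sm : Continuous nu := by
  have h : ContinuousOn ((fun q : ℝ × R4 => sq q.1 q.2) ∘
      fun m : R3 => (((0 : ℝ), ((1 : ℝ) / 2, ((73 : ℝ) / 100) • m)) : ℝ × R4)) univ :=
    hS3.comp (continuous_const.prodMk
      (continuous_const.prodMk (continuous_const_smul _))).continuousOn
      (fun m _ => ⟨self_mem_Ici, mem_univ _⟩)
  exact continuousOn_univ.1 h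

private theorem near_sm {F : R4 → R4} (h : EmbOn 𝓘(ℝ, R4) F SP) :
    ∃ O : Set R4, IsOpen O ∧ SP ⊆ O ∧ ContDiffOn ℝ ∞ F O := by
  refine ⟨{p | IsLocalDiffeomorphAt 𝓘(ℝ, R4) 𝓘(ℝ, R4) ∞ F p}, ?_, fun p hp => h.1 p hp, ?_⟩
  · rw [isOpen_iff_mem_nhds]
    rintro p ⟨Φ, hp, heq⟩
    exact Filter.mem_of_superset (Φ.open_source.mem_nhds hp) fun q hq => ⟨Φ, hq, heq⟩
  · intro p hp
    exact (contMDiffAt_iff_contDiffAt.1 (IsLocalDiffeomorphAt.contMDiffAt hp)).contDiffWithinAt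

private theorem sphere_cpt : IsCompact {m : R3 | nsq m = 1} := by
  have hc : Continuous (fun m : R3 => nsq m) := by
    unfold nsq
    fun_prop
  refine (isCompact_closedBall (0 : R3) 1).of_isClosed_subset
    (isClosed_singleton.preimage hc) ?_
  intro m hm
  have hm' : m.1 ^ 2 + m.2.re ^ 2 + m.2.im ^ 2 = 1 := hm
  rw [mem_closedBall_zero_iff, Prod.norm_def]
  refine max_le ?_ ?_
  · rw [Real.norm_eq_abs]
    exact (sq_le_one_iff_abs_le_one _).1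
      (by linarith only [hm', sq_nonneg m.2.re, sq_nonneg m.2.im])
  · have h2 : ‖m.2‖ ^ 2 ≤ 1 := by
      rw [← Complex.normSq_eq_norm_sq, Complex.normSq_apply]
      linarith only [hm', sq_nonneg m.1]
    exact (sq_le_one_iff₀ (norm_nonneg _)).1 h2

private theorem tube_sm {F : R4 → R4} {O U : Set R4} {T : Set (ℝ × ℝ × R3)} {δ : ℝ}
    (hO : IsOpen O) (hF : ContinuousOn F O) (hT : IsCompact T) (hU : IsOpen U)
    (hz : ∀ z ∈ T, sq 0 (z.1, z.2.1 • z.2.2) ∈ O)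
    (hzU : ∀ z ∈ T, 3 / 5 ≤ 73 / 100 * z.2.2.1 → sq 0 (z.1, z.2.1 • z.2.2) ∈ U) (hδ : 0 < δ) :
    ∃ ε₀ > 0, ∀ ε ∈ Ioo 0 ε₀, ∀ z ∈ T, sq ε (z.1, z.2.1 • z.2.2) ∈ O ∧
      dist (F (sq ε (z.1, z.2.1 • z.2.2))) (F (sq 0 (z.1, z.2.1 • z.2.2))) < δ ∧
      (3 / 5 ≤ 73 / 100 * z.2.2.1 → sq ε (z.1, z.2.1 • z.2.2) ∈ U) := by
  have hc : ContinuousOn (fun x : ℝ × (ℝ × ℝ × R3) => sq x.1 (x.2.1, x.2.2.1 • x.2.2.2))
      (Ici 0 ×ˢ univ) := by
    have h : ContinuousOn ((fun q : ℝ × R4 => sq q.1 q.2) ∘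
        fun x : ℝ × (ℝ × ℝ × R3) => ((x.1, (x.2.1, x.2.2.1 • x.2.2.2)) : ℝ × R4))
        (Ici 0 ×ˢ univ) :=
      hS3.comp (by fun_prop) (fun x hx => ⟨hx.1, mem_univ _⟩)
    exact h
  have hc0 : ContinuousOn (fun x : ℝ × (ℝ × ℝ × R3) => sq 0 (x.2.1, x.2.2.1 • x.2.2.2))
      (Ici 0 ×ˢ univ) := by
    have h : ContinuousOn ((fun q : ℝ × R4 => sq q.1 q.2) ∘
        fun x : ℝ × (ℝ × ℝ × R3) => (((0 : ℝ), (x.2.1, x.2.2.1 • x.2.2.2)) : ℝ × R4))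
        (Ici 0 ×ˢ univ) :=
      hS3.comp (by fun_prop) (fun x hx => ⟨self_mem_Ici, mem_univ _⟩)
    exact h
  have key : ∀ᶠ ε in 𝓝 (0 : ℝ), ∀ z ∈ T, 0 ≤ ε → sq ε (z.1, z.2.1 • z.2.2) ∈ O ∧
      dist (F (sq ε (z.1, z.2.1 • z.2.2))) (F (sq 0 (z.1, z.2.1 • z.2.2))) < δ ∧
      (3 / 5 ≤ 73 / 100 * z.2.2.1 → sq ε (z.1, z.2.1 • z.2.2) ∈ U) := by
    refine hT.eventually_forall_of_forall_eventually fun z hzT => ?_
    have hmem : ((0 : ℝ), z) ∈ Ici (0 : ℝ) ×ˢ (univ : Set (ℝ × ℝ × R3)) :=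
      ⟨self_mem_Ici, mem_univ _⟩
    have t1 := hc (0, z) hmem
    have t0 := hc0 (0, z) hmem
    have hFa : ContinuousAt F (sq 0 (z.1, z.2.1 • z.2.2)) := hF.continuousAt (hO.mem_nhds (hz z hzT))
    have a1 : ∀ᶠ x in 𝓝[Ici (0 : ℝ) ×ˢ univ] ((0 : ℝ), z),
        sq x.1 (x.2.1, x.2.2.1 • x.2.2.2) ∈ O := t1.eventually (hO.mem_nhds (hz z hzT))
    have a2 : ∀ᶠ x in 𝓝[Ici (0 : ℝ) ×ˢ univ] ((0 : ℝ), z),
        dist (F (sq x.1 (x.2.1, x.2.2.1 • x.2.2.2))) (F (sq 0 (x.2.1, x.2.2.1 • x.2.2.2))) < δ := by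
      have b1 : Filter.Tendsto (fun x : ℝ × (ℝ × ℝ × R3) => F (sq x.1 (x.2.1, x.2.2.1 • x.2.2.2)))
          (𝓝[Ici (0 : ℝ) ×ˢ univ] ((0 : ℝ), z)) (𝓝 (F (sq 0 (z.1, z.2.1 • z.2.2)))) :=
        hFa.tendsto.comp t1
      have b0 : Filter.Tendsto (fun x : ℝ × (ℝ × ℝ × R3) => F (sq 0 (x.2.1, x.2.2.1 • x.2.2.2)))
          (𝓝[Ici (0 : ℝ) ×ˢ univ] ((0 : ℝ), z)) (𝓝 (F (sq 0 (z.1, z.2.1 • z.2.2)))) :=
        hFa.tendsto.comp t0
      have b2 := b1.dist b0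
      rw [dist_self] at b2
      exact b2.eventually_lt_const hδ
    have a3 : ∀ᶠ x in 𝓝[Ici (0 : ℝ) ×ˢ univ] ((0 : ℝ), z),
        (3 / 5 ≤ 73 / 100 * x.2.2.2.1 → sq x.1 (x.2.1, x.2.2.1 • x.2.2.2) ∈ U) := by
      by_cases h : 3 / 5 ≤ 73 / 100 * z.2.2.1
      · exact (t1.eventually (hU.mem_nhds (hzU z hzT h))).mono fun x hx _ => hx
      · rw [not_le] at h
        have hcc : Continuous (fun x : ℝ × (ℝ × ℝ × R3) => 73 / 100 * x.2.2.2.1) := by fun_prop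
        have := (hcc.tendsto (0, z)).eventually_lt_const h
        refine (this.filter_mono nhdsWithin_le_nhds).mono fun x hx hx' => ?_
        exact absurd hx' (not_le.2 hx)
    have a4 := (a1.and (a2.and a3))
    rw [eventually_nhdsWithin_iff] at a4
    exact a4.mono fun x hx h0 => hx ⟨h0, mem_univ _⟩
  obtain ⟨ε₀, h0, h1⟩ := Metric.eventually_nhds_iff.1 key
  refine ⟨ε₀, h0, fun ε hε z hz' => h1 ?_ z hz' hε.1.le⟩
  rw [Real.dist_eq, sub_zero, abs_of_pos hε.1]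
  exact hε.2

private theorem conv_sm {v w : R4} {t δ : ℝ} (ht : t ∈ Icc (0 : ℝ) 1) (h1 : ‖v‖ ≤ δ)
    (h2 : ‖w‖ ≤ δ) : ‖(1 - t) • v + t • w‖ ≤ δ := by
  refine (norm_add_le _ _).trans ?_
  have h3 : (0 : ℝ) ≤ 1 - t := sub_nonneg.2 ht.2
  rw [norm_smul, norm_smul, Real.norm_of_nonneg ht.1, Real.norm_of_nonneg h3]
  have h4 := mul_le_mul_of_nonneg_left h1 h3
  have h5 := mul_le_mul_of_nonneg_left h2 ht.1
  linarith only [h4, h5]

private theorem fin_sm {x y z w : R4} {r : ℝ} (h1 : dist x y ≤ r / 8) (h2 : dist z x < r / 8)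
    (h3 : r < dist y w) (hr : 0 < r) : r / 2 ≤ dist z w := by
  have d6 : dist y w ≤ dist y x + dist x z + dist z w := dist_triangle4 _ _ _ _
  rw [dist_comm y x, dist_comm x z] at d6
  linarith only [d6, h1, h2, h3, hr]

private theorem SM_sph : IsCompact (sph 1) := by
  have h1 : IsClosed (sph 1) := by
    have hc : Continuous (fun p : R4 => rsq 1 p) := by
      unfold rsq nsq
      fun_prop
    exact (isClosed_singleton.preimage continuous_fst).inter (isClosed_singleton.preimage hc)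
  exact hS4.2.2.2.2.2.2.2.2.1.of_isClosed_subset h1 (fun p hp => Or.inl (Or.inr hp))

private theorem SM_rm {ρ : ℝ → ℝ} (hρ : ContDiff ℝ ∞ ρ) :
    ContDiff ℝ ∞ (fun x : ℝ × ℝ => ρ x.2 • mm x.1 x.2) :=
  ContDiff.smul (𝕜 := ℝ) (F := R3) (hρ.comp contDiff_snd) mm_smooth

private theorem SM_sm (x : ℝ) : x • ((1, 0) : R3) = (x, 0) := Prod.ext (mul_one x) (smul_zero x)

private theorem SM_d {F : R4 → R4} {ε s δ : ℝ} {m : R3} {z : ℝ × ℝ × R3} (hz : z = (s, 73 / 100, m))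
    (h : dist (F (sq ε (z.1, z.2.1 • z.2.2))) (F (sq 0 (z.1, z.2.1 • z.2.2))) < δ) :
    ‖F (sq ε (z.1, z.2.1 • z.2.2)) - F (nu m)‖ ≤ δ := by
  subst hz
  rw [← dist_eq_norm]
  have e : nu m = sq 0 (s, (73 / 100 : ℝ) • m) := (sq_fst_sm s _).symm
  rw [e]
  exact h.le

private theorem SM_f0 {K G N G' N' : R4} {t : ℝ} (ht : t = 0) (e : K = N) :
    K + ((1 - t) • (G - N) + t • (G' - N')) = G := by
  rw [ht, e, sub_zero, one_smul, zero_smul, add_zero, add_sub_cancel]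

private theorem SM_f1 {K G N G' N' : R4} {t : ℝ} (ht : t = 1) (e : K = N') :
    K + ((1 - t) • (G - N) + t • (G' - N')) = G' := by
  rw [ht, e, sub_self, zero_smul, zero_add, one_smul, add_sub_cancel]

private theorem SM_f2 {K G N G' N' : R4} {t : ℝ} (e : K = N) (e1 : N' = N) (e2 : G' = G) :
    K + ((1 - t) • (G - N) + t • (G' - N')) = G := by
  rw [e, e1, e2, ← add_smul, sub_add_cancel, one_smul, add_sub_cancel]

private theorem SM_Gs {F : R4 → R4} {O : Set R4} {G g : ℝ × ℝ → R4} {a b : ℝ} {x : ℝ × ℝ}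
    (hO : IsOpen O) (hFO : ContDiffOn ℝ ∞ F O) (hg : ContDiff ℝ ∞ g) (h1 : g x ∈ O)
    (hx : x.2 ∈ Ioo a b) (hG : ∀ y : ℝ × ℝ, y.2 ∈ Icc a b → G y = F (g y)) :
    ContDiffAt ℝ ∞ G x := by
  have h2 : ContDiffAt ℝ ∞ (fun x => F (g x)) x :=
    (hFO.contDiffAt (hO.mem_nhds h1)).comp x hg.contDiffAt
  refine h2.congr_of_eventuallyEq (Filter.eventuallyEq_of_mem
    ((isOpen_Ioo.preimage continuous_snd).mem_nhds hx) ?_)
  exact fun y hy => hG y ⟨hy.1.le, hy.2.le⟩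

private theorem SM_V {f g : ℝ × ℝ × ℝ → R4} {z : ℝ × ℝ × ℝ} {P : Set (ℝ × ℝ × ℝ)} (hP : IsOpen P)
    (hz : z ∈ P) (hg : ContDiffAt ℝ ∞ g z) (h : ∀ y ∈ P, f y = g y) : ContDiffAt ℝ ∞ f z :=
  hg.congr_of_eventuallyEq (Filter.eventuallyEq_of_mem (hP.mem_nhds hz) h)

private theorem SM_fc {K : ℝ × ℝ × ℝ → R4} {D D' : ℝ × ℝ → R4} {t : ℝ → ℝ} (hK : Continuous K)
    (ht : Continuous t) (hD : Continuous D) (hD' : Continuous D') :
    Continuous (fun z : ℝ × ℝ × ℝ => K z + ((1 - t z.1) • D z.2 + t z.1 • D' z.2)) := by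
  have h1 : Continuous (fun z : ℝ × ℝ × ℝ => t z.1) := ht.comp continuous_fst
  exact hK.add (((continuous_const.sub h1).smul (hD.comp continuous_snd)).add
    (h1.smul (hD'.comp continuous_snd)))

private theorem SM_ev {ρ : ℝ → ℝ} (hρc : Continuous ρ) (x : ℝ) (h1 : 73 / 100 ≤ ρ x)
    (h2 : ρ x ≤ 3 / 4) : ∃ η > 0, ∀ y, dist y x < η → 7 / 10 ≤ ρ y ∧ ρ y ≤ 39 / 50 := by
  have a1 : (7 : ℝ) / 10 < ρ x := lt_of_lt_of_le (by norm_num) h1
  have a2 : ρ x < 39 / 50 := lt_of_le_of_lt h2 (by norm_num)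
  exact Metric.eventually_nhds_iff.1 (((hρc.tendsto x).eventually_const_le a1).and
    ((hρc.tendsto x).eventually_le_const a2))

private theorem SM_rab {ρ : ℝ → ℝ} {n₀ n₁ a b η₀ η₁ : ℝ} (ha : a = n₀ - η₀ / 2)
    (hb : b = n₁ + η₁ / 2) (hη₀ : 0 < η₀) (hη₁ : 0 < η₁)
    (h0 : ∀ y, dist y n₀ < η₀ → 7 / 10 ≤ ρ y ∧ ρ y ≤ 39 / 50)
    (h1 : ∀ y, dist y n₁ < η₁ → 7 / 10 ≤ ρ y ∧ ρ y ≤ 39 / 50)
    (h2 : ∀ s ∈ Icc n₀ n₁, 73 / 100 ≤ ρ s ∧ ρ s ≤ 3 / 4) :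
    ∀ s ∈ Icc a b, 7 / 10 ≤ ρ s ∧ ρ s ≤ 39 / 50 := by
  rintro s ⟨hs1, hs2⟩
  rcases lt_or_ge s n₀ with h | h
  · refine h0 s ?_
    rw [Real.dist_eq, abs_lt]
    exact ⟨by linarith only [hs1, ha, hη₀], by linarith only [h, hη₀]⟩
  · rcases lt_or_ge n₁ s with h' | h'
    · refine h1 s ?_
      rw [Real.dist_eq, abs_lt]
      exact ⟨by linarith only [h', hη₁], by linarith only [hs2, hb, hη₁]⟩
    · have h3 := h2 s ⟨h, h'⟩
      exact ⟨le_trans (by norm_num) h3.1, h3.2.trans (by norm_num)⟩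

private theorem SM_T (a b : ℝ) : IsCompact {z : ℝ × ℝ × R3 | z.1 ∈ Icc a b ∧
    z.2.1 ∈ Icc (7 / 10) (39 / 50) ∧ nsq z.2.2 = 1 ∧ (z.2.1 = 73 / 100 ∨ z.2.2 = (1, 0))} := by
  refine (isCompact_Icc.prod ((isCompact_Icc (a := (7 : ℝ) / 10) (b := 39 / 50)).prod
    sphere_cpt)).of_isClosed_subset (s := Icc a b ×ˢ (Icc (7 / 10) (39 / 50) ×ˢ
      {m : R3 | nsq m = 1})) ?_ (fun z hz => ⟨hz.1, hz.2.1, hz.2.2.1⟩)
  have d1 : Continuous fun z : ℝ × ℝ × R3 => z.2.1 := continuous_fst.comp continuous_snd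
  have d2 : Continuous fun z : ℝ × ℝ × R3 => z.2.2 := continuous_snd.comp continuous_snd
  have c1 : IsClosed {z : ℝ × ℝ × R3 | z.1 ∈ Icc a b} := isClosed_Icc.preimage continuous_fst
  have c2 : IsClosed {z : ℝ × ℝ × R3 | z.2.1 ∈ Icc (7 / 10 : ℝ) (39 / 50)} :=
    isClosed_Icc.preimage d1
  have c3 : IsClosed {z : ℝ × ℝ × R3 | nsq z.2.2 = 1} := sphere_cpt.isClosed.preimage d2
  have c4 : IsClosed {z : ℝ × ℝ × R3 | z.2.1 = 73 / 100} := isClosed_singleton.preimage d1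
  have c5 : IsClosed {z : ℝ × ℝ × R3 | z.2.2 = (1, 0)} := isClosed_singleton.preimage d2
  exact c1.inter (c2.inter (c3.inter (c4.union c5)))

private theorem SM_cl {a b : ℝ} (ha : a < 9 / 20) (hb : 11 / 20 < b) (q s : ℝ) :
    mm q (max a (min s b)) = mm q s := by
  have hab : a < b := ha.trans (SM_num.1.trans hb)
  rcases le_or_gt a s with h | h
  · rcases le_or_gt s b with h' | h'
    · rw [min_eq_left h', max_eq_right h]
    · rw [min_eq_right h'.le, max_eq_right hab.le, mm_out q b (Or.inr hb.le),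
        mm_out q s (Or.inr (hb.trans h').le)]
  · rw [min_eq_left (h.trans hab).le, max_eq_left h.le, mm_out q a (Or.inl ha.le),
      mm_out q s (Or.inl (h.trans ha).le)]

private theorem SM_th0 {u : ℝ} (hu : u ≤ 1 / 3) : Real.smoothTransition (3 * u - 1) = 0 :=
  Real.smoothTransition.zero_of_nonpos (by linarith only [hu])

private theorem SM_th1 {u : ℝ} (hu : 2 / 3 ≤ u) : Real.smoothTransition (3 * u - 1) = 1 :=
  Real.smoothTransition.one_of_one_le (by linarith only [hu])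

end SM

open SM in
theorem m_SM : StSM := by
  intro F F' U H n₀ n₁ ρ hF hF' hU hUs hFU hH hn₀ hn₁ hρ hρ1 hρ2
  obtain ⟨hHc, hH0, hH1, hHe, hHK⟩ := hH
  obtain ⟨O, hO, hSO, hFO⟩ := near_sm hF
  obtain ⟨O', hO', hSO', hFO'⟩ := near_sm hF'
  have hSPs : sph 1 ⊆ SP := fun p hp => Or.inl (Or.inr hp)
  have hNs : neckE ⊆ SP := fun p hp => Or.inr hp.1
  -- the distance to the fixed cuff
  have hKc : IsCompact (F '' sph 1) :=
    SM_sph.image_of_continuousOn (hFO.continuousOn.mono (hSPs.trans hSO))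
  have hHi : IsCompact (H '' (Icc (0 : ℝ) 1 ×ˢ {m : R3 | nsq m = 1})) :=
    (isCompact_Icc.prod sphere_cpt).image_of_continuousOn hHc
  have hdis : Disjoint (H '' (Icc (0 : ℝ) 1 ×ˢ {m : R3 | nsq m = 1})) (F '' sph 1) := by
    rw [Set.disjoint_left]
    rintro y ⟨⟨u, m⟩, ⟨h1, h2⟩, rfl⟩ h3
    exact hHK u h1 m h2 h3
  obtain ⟨r, hr0, hr⟩ := Metric.exists_pos_forall_lt_edist hHi hKc.isClosed hdis
  have hκ : ∀ u ∈ Icc (0 : ℝ) 1, ∀ m, nsq m = 1 → ∀ y ∈ F '' sph 1, (r : ℝ) < dist (H (u, m)) y := by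
    intro u hu m hm y hy
    have h1 := hr _ ⟨(u, m), ⟨hu, hm⟩, rfl⟩ y hy
    rw [edist_nndist] at h1
    exact_mod_cast h1
  have hr0' : (0 : ℝ) < r := by exact_mod_cast hr0
  -- a slightly larger interval
  have hnl : n₀ ≤ n₁ := (hn₀.trans (SM_num.1.trans hn₁)).le
  have hb₀ := hρ2 n₀ ⟨le_refl _, hnl⟩
  have hb₁ := hρ2 n₁ ⟨hnl, le_refl _⟩
  have hρc : Continuous ρ := hρ.continuous
  obtain ⟨η₀, hη₀, hη₀'⟩ := SM_ev hρc n₀ hb₀.1 hb₀.2
  obtain ⟨η₁, hη₁, hη₁'⟩ := SM_ev hρc n₁ hb₁.1 hb₁.2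
  obtain ⟨a, ha⟩ : ∃ a, a = n₀ - η₀ / 2 := ⟨_, rfl⟩
  obtain ⟨b, hb⟩ : ∃ b, b = n₁ + η₁ / 2 := ⟨_, rfl⟩
  have han : a < n₀ := ha.trans_lt (sub_lt_self _ (half_pos hη₀))
  have hbn : n₁ < b := (lt_add_of_pos_right _ (half_pos hη₁)).trans_eq hb.symm
  have hρab : ∀ s ∈ Icc a b, 7 / 10 ≤ ρ s ∧ ρ s ≤ 39 / 50 :=
    SM_rab ha hb hη₀ hη₁ hη₀' hη₁' hρ2
  have ha9 : a < 9 / 20 := han.trans hn₀
  have hb11 : 11 / 20 < b := hn₁.trans hbn
  have hab' : a < b := ha9.trans (SM_num.1.trans hb11)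
  have hr8 : (0 : ℝ) < r / 8 := div_pos hr0' (by norm_num)
  -- the tube
  let T : Set (ℝ × ℝ × R3) := {z | z.1 ∈ Icc a b ∧ z.2.1 ∈ Icc (7 / 10) (39 / 50) ∧
    nsq z.2.2 = 1 ∧ (z.2.1 = 73 / 100 ∨ z.2.2 = (1, 0))}
  have hT : IsCompact T := SM_T a b
  have hTS : ∀ z ∈ T, sq 0 (z.1, z.2.1 • z.2.2) ∈ SP := fun z hz =>
    mem_SP_sm _ _ _ hz.2.2.1 hz.2.1.1 hz.2.1.2
  have hTN : ∀ z ∈ T, 3 / 5 ≤ 73 / 100 * z.2.2.1 → sq 0 (z.1, z.2.1 • z.2.2) ∈ U :=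
    fun z hz h => hUs (Or.inr (mem_neckE_sm _ _ _ hz.2.2.1 hz.2.1.1 hz.2.1.2 hz.2.2.2 h))
  obtain ⟨ε₁, hε₁, hA⟩ := tube_sm (δ := r / 8) hO hFO.continuousOn hT hU
    (fun z hz => hSO (hTS z hz)) hTN hr8
  obtain ⟨ε₂, hε₂, hB⟩ := tube_sm (δ := r / 8) hO' hFO'.continuousOn hT hU
    (fun z hz => hSO' (hTS z hz)) hTN hr8
  refine ⟨r / 2, half_pos hr0', min ε₁ ε₂, lt_min hε₁ hε₂, fun ε hε => ?_⟩
  have hεp : 0 < ε := hε.1
  replace hA := hA ε ⟨hε.1, hε.2.trans_le (min_le_left _ _)⟩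
  replace hB := hB ε ⟨hε.1, hε.2.trans_le (min_le_right _ _)⟩
  have hsq : ContDiff ℝ ∞ (sq ε) := by
    have h := hS2.2.2.2.comp (s := univ) (g := fun q : ℝ × R4 => sq q.1 q.2)
      (f := fun p : R4 => (ε, p)) (contDiff_const.prodMk contDiff_id).contDiffOn
      (fun p _ => ⟨hεp, mem_univ _⟩)
    exact contDiffOn_univ.1 h
  -- the pieces
  let cl : ℝ → ℝ := fun s => max a (min s b)
  have hcl : Continuous cl := continuous_const.max (continuous_id.min continuous_const)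
  have hclm : ∀ s, cl s ∈ Icc a b := fun s =>
    ⟨le_max_left _ _, max_le hab'.le (min_le_right _ _)⟩
  have hcle : ∀ s ∈ Icc a b, cl s = s := fun s hs => by
    show max a (min s b) = s
    rw [min_eq_left hs.2, max_eq_right hs.1]
  have hclmm : ∀ q s, mm q (cl s) = mm q s := SM_cl ha9 hb11
  have hmmc : Continuous (fun x : ℝ × ℝ => mm x.1 x.2) := mm_smooth.continuous
  let Z : ℝ × ℝ → ℝ × ℝ × R3 := fun x => (cl x.2, ρ (cl x.2), mm x.1 x.2)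
  have hZc : Continuous Z := by
    have h1 : Continuous (fun x : ℝ × ℝ => cl x.2) := hcl.comp continuous_snd
    exact h1.prodMk ((hρc.comp h1).prodMk hmmc)
  have hZT : ∀ x, Z x ∈ T := by
    intro x
    refine ⟨hclm _, hρab _ (hclm _), nsq_mm _ _, ?_⟩
    rcases lt_or_ge (cl x.2) (9 / 20) with h | h
    · right
      show mm x.1 x.2 = _
      rw [← hclmm]
      exact mm_out _ _ (Or.inl h.le)
    · rcases lt_or_ge (11 / 20) (cl x.2) with h' | h'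
      · right
        show mm x.1 x.2 = _
        rw [← hclmm]
        exact mm_out _ _ (Or.inr h'.le)
      · left
        exact hρ1 _ ⟨h, h'⟩
  let G : ℝ × ℝ → R4 := fun x => F (sq ε ((Z x).1, (Z x).2.1 • (Z x).2.2))
  let G' : ℝ × ℝ → R4 := fun x => F' (sq ε ((Z x).1, (Z x).2.1 • (Z x).2.2))
  have hinner : Continuous (fun x : ℝ × ℝ => sq ε ((Z x).1, (Z x).2.1 • (Z x).2.2)) :=
    hsq.continuous.comp ((continuous_fst.comp hZc).prodMk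
      ((continuous_fst.comp (continuous_snd.comp hZc)).smul
        (continuous_snd.comp (continuous_snd.comp hZc))))
  have hGc : Continuous G := continuousOn_univ.1
    (hFO.continuousOn.comp hinner.continuousOn fun x _ => (hA _ (hZT x)).1)
  have hGc' : Continuous G' := continuousOn_univ.1
    (hFO'.continuousOn.comp hinner.continuousOn fun x _ => (hB _ (hZT x)).1)
  have hnuS : ∀ m, nsq m = 1 → nu m ∈ SP := fun m hm =>
    mem_SP_sm _ _ _ hm SM_num.2.2.2.2.2.2.2.2.1 SM_num.2.2.2.2.2.2.2.2.2.1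
  let N : ℝ × ℝ → R4 := fun x => F (nu (mm x.1 x.2))
  let N' : ℝ × ℝ → R4 := fun x => F' (nu (mm x.1 x.2))
  have hNc : Continuous N := continuousOn_univ.1
    (hFO.continuousOn.comp (nu_cont_sm.comp hmmc).continuousOn
      fun x _ => hSO (hnuS _ (nsq_mm _ _)))
  have hNc' : Continuous N' := continuousOn_univ.1
    (hFO'.continuousOn.comp (nu_cont_sm.comp hmmc).continuousOn
      fun x _ => hSO' (hnuS _ (nsq_mm _ _)))
  let θ : ℝ → ℝ := fun u => Real.smoothTransition (3 * u - 1)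
  have hθc : Continuous θ := Real.smoothTransition.continuous.comp (by fun_prop)
  have hθm : ∀ u, θ u ∈ Icc (0 : ℝ) 1 := fun u =>
    ⟨Real.smoothTransition.nonneg _, Real.smoothTransition.le_one _⟩
  have hθ0 : ∀ u, u ≤ 1 / 3 → θ u = 0 := fun u hu => SM_th0 hu
  have hθ1 : ∀ u, 2 / 3 ≤ u → θ u = 1 := fun u hu => SM_th1 hu
  let K : ℝ × ℝ × ℝ → R4 := fun z => H (θ z.1, mm z.2.1 z.2.2)
  have hKcont : Continuous K := by
    refine continuousOn_univ.1 (hHc.comp (f := fun z : ℝ × ℝ × ℝ => (θ z.1, mm z.2.1 z.2.2))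
      (Continuous.continuousOn ?_) fun z _ => ⟨hθm _, nsq_mm _ _⟩)
    exact (hθc.comp continuous_fst).prodMk (hmmc.comp continuous_snd)
  let f : ℝ × ℝ × ℝ → R4 := fun z =>
    K z + ((1 - θ z.1) • (G z.2 - N z.2) + θ z.1 • (G' z.2 - N' z.2))
  have hfc : Continuous f := SM_fc (D := fun x => G x - N x) (D' := fun x => G' x - N' x)
    hKcont hθc (hGc.sub hNc) (hGc'.sub hNc')
  have hf0 : ∀ z : ℝ × ℝ × ℝ, z.1 ≤ 1 / 3 → f z = G z.2 := by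
    intro z hz
    refine SM_f0 (hθ0 _ hz) ?_
    show H (θ z.1, mm z.2.1 z.2.2) = _
    rw [hθ0 _ hz, hH0 _ (nsq_mm _ _)]
  have hf1 : ∀ z : ℝ × ℝ × ℝ, 2 / 3 ≤ z.1 → f z = G' z.2 := by
    intro z hz
    refine SM_f1 (hθ1 _ hz) ?_
    show H (θ z.1, mm z.2.1 z.2.2) = _
    rw [hθ1 _ hz, hH1 _ (nsq_mm _ _)]
  have hf2 : ∀ z : ℝ × ℝ × ℝ, 3 / 5 ≤ 73 / 100 * (mm z.2.1 z.2.2).1 → f z = G z.2 := by
    intro z hz
    have e : K z = N z.2 := hHe _ (hθm _) _ (nsq_mm _ _) hz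
    have e1 : N' z.2 = N z.2 := (hFU (hUs (Or.inr (mem_neckE_sm _ _ _ (nsq_mm _ _)
      SM_num.2.2.2.2.2.2.2.2.1 SM_num.2.2.2.2.2.2.2.2.2.1 (Or.inl rfl) hz)))).symm
    exact SM_f2 e e1 (hFU ((hA _ (hZT z.2)).2.2 hz)).symm
  -- smoothness
  have hGe : ∀ x : ℝ × ℝ, x.2 ∈ Icc a b → G x = F (sq ε (x.2, ρ x.2 • mm x.1 x.2)) := by
    intro x hx
    show F (sq ε (cl x.2, ρ (cl x.2) • mm x.1 x.2)) = _
    rw [hcle _ hx]
  have hGe' : ∀ x : ℝ × ℝ, x.2 ∈ Icc a b → G' x = F' (sq ε (x.2, ρ x.2 • mm x.1 x.2)) := by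
    intro x hx
    show F' (sq ε (cl x.2, ρ (cl x.2) • mm x.1 x.2)) = _
    rw [hcle _ hx]
  have hρm := SM_rm hρ
  have hin : ContDiff ℝ ∞ (fun x : ℝ × ℝ => sq ε (x.2, ρ x.2 • mm x.1 x.2)) :=
    hsq.comp (contDiff_snd.prodMk hρm)
  have hZe : ∀ x : ℝ × ℝ, x.2 ∈ Icc a b → Z x = (x.2, ρ x.2, mm x.1 x.2) := by
    intro x hx
    show (cl x.2, ρ (cl x.2), mm x.1 x.2) = _
    rw [hcle _ hx]
  have hGs : ∀ x : ℝ × ℝ, x.2 ∈ Ioo a b → ContDiffAt ℝ ∞ G x := by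
    intro x hx
    have h1 := (hA _ (hZT x)).1
    rw [hZe x ⟨hx.1.le, hx.2.le⟩] at h1
    exact SM_Gs hO hFO hin h1 hx hGe
  have hGs' : ∀ x : ℝ × ℝ, x.2 ∈ Ioo a b → ContDiffAt ℝ ∞ G' x := by
    intro x hx
    have h1 := (hB _ (hZT x)).1
    rw [hZe x ⟨hx.1.le, hx.2.le⟩] at h1
    exact SM_Gs hO' hFO' hin h1 hx hGe'
  let V : Set (ℝ × ℝ × ℝ) := {z | z.2.2 ∈ Ioo a b ∧
    (z.1 < 1 / 3 ∨ 2 / 3 < z.1 ∨ 3 / 5 < 73 / 100 * (mm z.2.1 z.2.2).1)}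
  let S : Set (ℝ × ℝ × ℝ) := {z | z.2.2 ∈ Icc n₀ n₁ ∧
    (z.1 ≤ 1 / 4 ∨ 3 / 4 ≤ z.1 ∨ 13 / 20 ≤ 73 / 100 * (mm z.2.1 z.2.2).1)}
  have hmc : Continuous (fun z : ℝ × ℝ × ℝ => 73 / 100 * (mm z.2.1 z.2.2).1) :=
    continuous_const.mul (continuous_fst.comp (hmmc.comp continuous_snd))
  have hlast : Continuous (fun z : ℝ × ℝ × ℝ => z.2.2) := continuous_snd.comp continuous_snd
  have hVo : IsOpen V := (isOpen_Ioo.preimage hlast).inter
    ((isOpen_lt continuous_fst continuous_const).union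
      ((isOpen_lt continuous_const continuous_fst).union (isOpen_lt continuous_const hmc)))
  have hSc : IsClosed S := (isClosed_Icc.preimage hlast).inter
    ((isClosed_le continuous_fst continuous_const).union
      ((isClosed_le continuous_const continuous_fst).union (isClosed_le continuous_const hmc)))
  have hSV : S ⊆ V := by
    rintro z ⟨h1, h2⟩
    refine ⟨⟨han.trans_le h1.1, h1.2.trans_lt hbn⟩, ?_⟩
    rcases h2 with h | h | h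
    · exact Or.inl (h.trans_lt SM_num.2.1)
    · exact Or.inr (Or.inl (SM_num.2.2.1.trans_le h))
    · exact Or.inr (Or.inr (SM_num.2.2.2.1.trans_le h))
  have hfV : ContDiffOn ℝ ∞ f V := by
    intro z hz
    refine ContDiffAt.contDiffWithinAt ?_
    have g1 : ContDiffAt ℝ ∞ (fun z : ℝ × ℝ × ℝ => G z.2) z :=
      (hGs z.2 hz.1).comp z contDiffAt_snd
    have g2 : ContDiffAt ℝ ∞ (fun z : ℝ × ℝ × ℝ => G' z.2) z :=
      (hGs' z.2 hz.1).comp z contDiffAt_snd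
    rcases hz.2 with h | h | h
    · exact SM_V (isOpen_lt continuous_fst continuous_const) h g1 fun y hy => hf0 y (le_of_lt hy)
    · exact SM_V (isOpen_lt continuous_const continuous_fst) h g2 fun y hy => hf1 y (le_of_lt hy)
    · exact SM_V (isOpen_lt continuous_const hmc) h g1 fun y hy => hf2 y (le_of_lt hy)
  obtain ⟨c, hc, hcf, hcS, -⟩ := hfc.exists_contDiff_approx_and_eqOn (⊤ : ℕ∞)
    (continuous_const (y := (r : ℝ) / 8)) (fun _ => hr8) hSc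
    (hVo.mem_nhdsSet.2 hSV) hfV
  have hab : ∀ s ∈ Icc n₀ n₁, s ∈ Icc a b := fun s hs => ⟨han.le.trans hs.1, hs.2.trans hbn.le⟩
  refine ⟨c, hc, ?_, ?_, ?_, ?_⟩
  · intro q s hs
    have m1 : ((0 : ℝ), q, s) ∈ S := ⟨hs, Or.inl SM_num.2.2.2.2.1⟩
    exact (hcS m1).trans ((hf0 (0, q, s) SM_num.2.2.2.2.2.1).trans (hGe (q, s) (hab s hs)))
  · intro q s hs
    have m1 : ((1 : ℝ), q, s) ∈ S := ⟨hs, Or.inr (Or.inl SM_num.2.2.2.2.2.2.1)⟩
    exact (hcS m1).trans ((hf1 (1, q, s) SM_num.2.2.2.2.2.2.2.1).trans (hGe' (q, s) (hab s hs)))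
  · intro u q s hs hm
    obtain ⟨h1, h2⟩ := SM_one hm
    have m1 : (u, q, s) ∈ S := ⟨hs, Or.inr (Or.inr h2)⟩
    refine (hcS m1).trans ((hf2 (u, q, s) h1).trans ((hGe (q, s) (hab s hs)).trans ?_))
    show F (sq ε (s, ρ s • mm q s)) = _
    rw [hm]
    rw [SM_sm]
  · intro u hu q hq s hs y hy
    have hsab : s ∈ Icc a b := ⟨ha9.le.trans hs.1, hs.2.trans hb11.le⟩
    have hz : Z (q, s) = (s, 73 / 100, mm q s) := by
      show (cl s, ρ (cl s), mm q s) = _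
      rw [hcle s hsab, hρ1 s hs]
    have d1 : ‖G (q, s) - N (q, s)‖ ≤ r / 8 := SM_d hz (hA _ (hZT (q, s))).2.1
    have d2 : ‖G' (q, s) - N' (q, s)‖ ≤ r / 8 := SM_d hz (hB _ (hZT (q, s))).2.1
    have d3 : dist (f (u, q, s)) (K (u, q, s)) ≤ r / 8 := by
      rw [dist_eq_norm]
      have e : f (u, q, s) - K (u, q, s) =
          (1 - θ u) • (G (q, s) - N (q, s)) + θ u • (G' (q, s) - N' (q, s)) :=
        add_sub_cancel_left _ _
      rw [e]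
      exact conv_sm (hθm u) d1 d2
    exact fin_sm d3 (hcf (u, q, s)) (hκ (θ u) (hθm u) (mm q s) (nsq_mm _ _) y hy) hr0'

end Pool.Agent.Helper18.BI.H
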