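import Pool.Agent.Helper18.BI.H.StS7
import Pool.Agent.Helper18.BI.AsmA

/-!
# Project BI, stage 3 (H), module TOP: free homotopy of the cuffs to based homotopy of whiskered spheres
-/

set_option autoImplicit false

open scoped Manifold ContDiff Topology ComplexConjugate
open Set Pool.Agent.Helper65.Barb Pool.Agent.Helper18.BI

namespace Pool.Agent.Helper18.BI.H

namespace TOP

/-- the compression over the axis between the cuffs -/
private theorem sq_bar_top (a : ℝ) (w : ℂ) (h1 : 1 / 5 ≤ a) (h2 : a ≤ 4 / 5) :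
    sq 0 (1 / 2, (a, w)) = bar a := by
  have hp : prof 0 a = 0 := by
    unfold prof
    have e1 : √((1 / 25 - a ^ 2) ^ 2 + 0 ^ 2) = -(1 / 25 - a ^ 2) := by
      rw [show ((1 : ℝ) / 25 - a ^ 2) ^ 2 + 0 ^ 2 = (-(1 / 25 - a ^ 2)) ^ 2 by ring]
      exact Real.sqrt_sq (by nlinarith)
    have e2 : √((1 / 25 - (a - 1) ^ 2) ^ 2 + 0 ^ 2) = -(1 / 25 - (a - 1) ^ 2) := by
      rw [show ((1 : ℝ) / 25 - (a - 1) ^ 2) ^ 2 + 0 ^ 2 = (-(1 / 25 - (a - 1) ^ 2)) ^ 2 by ring]
      exact Real.sqrt_sq (by nlinarith)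
    rw [e1, e2]
    ring
  have hf : ∀ k : ℝ, fac 0 a k = 0 := by
    intro k
    unfold fac
    rw [hp]
    simp
  have ha : axc 0 a = a := by
    unfold axc
    have e1 : √((a + 1 / 5) ^ 2 + 0 ^ 2) = a + 1 / 5 := by
      rw [show (a + 1 / 5) ^ 2 + (0 : ℝ) ^ 2 = (a + 1 / 5) ^ 2 by ring]
      exact Real.sqrt_sq (by linarith)
    have e2 : √((a - 6 / 5) ^ 2 + 0 ^ 2) = 6 / 5 - a := by
      rw [show (a - 6 / 5) ^ 2 + (0 : ℝ) ^ 2 = (6 / 5 - a) ^ 2 by ring]
      exact Real.sqrt_sq (by linarith)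
    rw [e1, e2]
    ring
  unfold sq bar
  simp only [hf, ha]
  simp

private theorem axc_le_top (a : ℝ) (h2 : a ≤ 1 / 5) : axc 0 a ≤ 1 / 5 := by
  unfold axc
  have e2 : √((a - 6 / 5) ^ 2 + 0 ^ 2) = 6 / 5 - a := by
    rw [show (a - 6 / 5) ^ 2 + (0 : ℝ) ^ 2 = (6 / 5 - a) ^ 2 by ring]
    exact Real.sqrt_sq (by linarith)
  have e1 : √((a + 1 / 5) ^ 2 + 0 ^ 2) ≤ 3 / 5 - a := by
    rw [show (a + 1 / 5) ^ 2 + (0 : ℝ) ^ 2 = (a + 1 / 5) ^ 2 by ring]
    exact Real.sqrt_le_iff.2 ⟨by linarith, by nlinarith⟩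
  rw [e2]
  linarith

private theorem nu_bar_top (m : R3) (hm : nsq m = 1) (h : 1 / 5 ≤ 73 / 100 * m.1) :
    nu m = bar (73 / 100 * m.1) := by
  have h1 : m.1 ≤ 1 := by
    unfold nsq at hm
    nlinarith [sq_nonneg m.2.re, sq_nonneg m.2.im, sq_nonneg (m.1 - 1)]
  have e : ((1 : ℝ) / 2, ((73 : ℝ) / 100) • m) = ((1 / 2, (73 / 100 * m.1, ((73 : ℝ) / 100) • m.2)) : R4) := by
    refine Prod.ext rfl (Prod.ext ?_ rfl)
    simp
  unfold nu
  rw [e]
  exact sq_bar_top _ _ h (by linarith)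

private theorem nu_sph_top (m : R3) (hm : nsq m = 1) (h : 73 / 100 * m.1 ≤ 1 / 5) :
    nu m ∈ sph 0 := by
  have e : ((1 : ℝ) / 2, ((73 : ℝ) / 100) • m) = ((1 / 2, (73 / 100 * m.1, ((73 : ℝ) / 100) • m.2)) : R4) := by
    refine Prod.ext rfl (Prod.ext ?_ rfl)
    simp
  have hx : (((1 : ℝ) / 2, ((73 : ℝ) / 100) • m) : R4) ∈ Ext := by
    rw [e]
    unfold nsq at hm
    refine ⟨?_, ?_⟩
    · show ((1 : ℝ) / 5) ^ 2 ≤ nsq _
      unfold nsq
      simp only [Complex.real_smul, Complex.mul_re, Complex.mul_im, Complex.ofReal_re,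
        Complex.ofReal_im, zero_mul, sub_zero, add_zero]
      nlinarith
    · show ((1 : ℝ) / 5) ^ 2 ≤ nsq _
      unfold nsq
      simp only [Complex.real_smul, Complex.mul_re, Complex.mul_im, Complex.ofReal_re,
        Complex.ofReal_im, zero_mul, sub_zero, add_zero]
      nlinarith [sq_nonneg m.2.re, sq_nonneg m.2.im]
  have hs : nu m ∈ SP := hS4.1 _ hx
  have ha : (nu m).2.1 ≤ 1 / 5 := by
    unfold nu
    rw [e]
    exact axc_le_top _ h
  rcases hs with (h0 | h1) | h2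
  · exact h0
  · exfalso
    have h3 : rsq 1 (nu m) = 1 / 25 := h1.2
    unfold rsq nsq at h3
    nlinarith [sq_nonneg (nu m).2.2.re, sq_nonneg (nu m).2.2.im]
  · obtain ⟨h3, h4, h5, h6⟩ := h2
    refine ⟨h3, ?_⟩
    have h7 : (nu m).2.1 = 1 / 5 := le_antisymm ha h4
    unfold rsq nsq
    rw [h6, h7]
    norm_num

private theorem nu_foot_top (m : R3) (hm : nsq m = 1) (h : 73 / 100 * m.1 = 1 / 5) :
    nu m = foot0 := by
  rw [nu_bar_top m hm h.ge, h]
  rfl

private theorem foot_mem_top : foot0 ∈ sph 0 := by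
  refine ⟨rfl, ?_⟩
  show nsq _ = _
  unfold nsq foot0
  norm_num

private theorem nu_cont_top : Continuous nu := by
  have h : ContinuousOn ((fun q : ℝ × R4 => sq q.1 q.2) ∘
      fun m : R3 => (((0 : ℝ), ((1 : ℝ) / 2, ((73 : ℝ) / 100) • m)) : ℝ × R4)) univ :=
    hS3.comp (by fun_prop) (fun m _ => ⟨self_mem_Ici, mem_univ _⟩)
  exact continuousOn_univ.1 h

private theorem bar_mem_top (a : ℝ) (h1 : 1 / 5 ≤ a) (h2 : a ≤ 4 / 5) : bar a ∈ SP :=
  Or.inr ⟨rfl, h1, h2, rfl⟩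

private theorem emb_cont_top (F : R4 → R4) (hF : EmbOn 𝓘(ℝ, R4) F SP) : ContinuousOn F SP := by
  intro p hp
  obtain ⟨Φ, h1, h2⟩ := hF.1 p hp
  have h3 : ContinuousOn F Φ.source := Φ.contMDiffOn_toFun.continuousOn.congr h2
  exact (h3.continuousAt (Φ.open_source.mem_nhds h1)).continuousWithinAt

private theorem bar_cont_top : Continuous bar := by
  unfold bar
  fun_prop

end TOP

open TOP in
theorem m_TOP : StTOP := by
  intro F F' h ζ P₂ hF hF' hN hh h0 h1 hK hz1 hz2 hP hP0 hP1 hPa hPb hPK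
  classical
  have hFc := emb_cont_top F hF
  have hfoot := foot_mem_top
  -- continuity of `ζ`
  have hz : ContinuousOn ζ (Icc 0 1) := by
    have e : Icc (0 : ℝ) 1 = Icc 0 (1 / 2) ∪ Icc (1 / 2) 1 :=
      (Icc_union_Icc_eq_Icc (by norm_num) (by norm_num)).symm
    rw [e]
    refine ContinuousOn.union_of_isClosed ?_ ?_ isClosed_Icc isClosed_Icc
    · refine ContinuousOn.congr ?_ hz1
      refine hFc.comp (Continuous.continuousOn (bar_cont_top.comp (by fun_prop))) ?_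
      intro τ hτ
      exact bar_mem_top _ (by linarith [hτ.2]) (by linarith [hτ.1])
    · refine ContinuousOn.congr ?_ hz2
      refine hh.comp (by fun_prop) ?_
      intro τ hτ
      exact ⟨⟨by linarith [hτ.1], by linarith [hτ.2]⟩, hfoot⟩
  have hzK : ∀ τ ∈ Icc (0 : ℝ) 1, ζ τ ∉ F '' sph 1 := by
    intro τ hτ
    rw [← hP0 τ hτ]
    exact hPK 0 ⟨le_rfl, zero_le_one⟩ τ hτ
  -- the homotopy
  let T : ℝ × R3 → ℝ := fun x => 5 / 2 * (3 / 5 - 73 / 100 * x.2.1)
  let H : ℝ × R3 → R4 := fun x =>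
    if 3 / 5 ≤ 73 / 100 * x.2.1 then F (nu x.2)
    else if 1 / 5 ≤ 73 / 100 * x.2.1 then
      (if x.1 ≤ 1 / 2 then ζ (T x * (1 + 2 * x.1) / 2) else P₂ (2 * x.1 - 1, T x))
    else h (min (2 * x.1) 1, nu x.2)
  let D : Set (ℝ × R3) := Icc (0 : ℝ) 1 ×ˢ {m : R3 | nsq m = 1}
  let D1 : Set (ℝ × R3) := D ∩ {x | 3 / 5 ≤ 73 / 100 * x.2.1}
  let D2 : Set (ℝ × R3) := D ∩ (({x | 1 / 5 ≤ 73 / 100 * x.2.1} ∩ {x | 73 / 100 * x.2.1 ≤ 3 / 5}) ∩
    {x | x.1 ≤ 1 / 2})
  let D3 : Set (ℝ × R3) := D ∩ (({x | 1 / 5 ≤ 73 / 100 * x.2.1} ∩ {x | 73 / 100 * x.2.1 ≤ 3 / 5}) ∩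
    {x | 1 / 2 ≤ x.1})
  let D4 : Set (ℝ × R3) := D ∩ {x | 73 / 100 * x.2.1 ≤ 1 / 5}
  have hbar : bar (3 / 5) = bar (3 / 5 - 4 / 5 * 0) := by norm_num
  have hle : ∀ m : R3, nsq m = 1 → 73 / 100 * m.1 ≤ 73 / 100 := by
    intro m hm
    have h1 : m.1 ≤ 1 := by
      unfold nsq at hm
      nlinarith [sq_nonneg m.2.re, sq_nonneg m.2.im, sq_nonneg (m.1 - 1)]
    linarith
  -- values
  have v1 : ∀ x ∈ D1, H x = F (nu x.2) := fun x hx => if_pos hx.2
  have v2 : ∀ x ∈ D2, H x = ζ (T x * (1 + 2 * x.1) / 2) := by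
    intro x hx
    obtain ⟨hxD, ⟨hx1, hx2⟩, hx3⟩ := hx
    simp only [mem_ofPred_eq] at hx1 hx2 hx3
    rcases eq_or_lt_of_le hx2 with he | hl
    · have hT : T x = 0 := by simp only [T, he]; norm_num
      have e1 : H x = F (nu x.2) := if_pos he.ge
      rw [e1, hT, nu_bar_top x.2 hxD.2 hx1, he]
      have h3 := hz1 0 ⟨le_rfl, by norm_num⟩
      rw [show (0 : ℝ) * (1 + 2 * x.1) / 2 = 0 by ring, h3]
      norm_num
    · have e1 : H x = if x.1 ≤ 1 / 2 then ζ (T x * (1 + 2 * x.1) / 2) else P₂ (2 * x.1 - 1, T x) := by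
        show (if _ then _ else _) = _
        rw [if_neg (not_le.2 hl), if_pos hx1]
      rw [e1, if_pos hx3]
  have v3 : ∀ x ∈ D3, H x = P₂ (2 * x.1 - 1, T x) := by
    intro x hx
    obtain ⟨hxD, ⟨hx1, hx2⟩, hx3⟩ := hx
    simp only [mem_ofPred_eq] at hx1 hx2 hx3
    rcases eq_or_lt_of_le hx2 with he | hl
    · have hT : T x = 0 := by simp only [T, he]; norm_num
      have e1 : H x = F (nu x.2) := if_pos he.ge
      rw [e1, hT, nu_bar_top x.2 hxD.2 hx1, he]
      exact (hPa (2 * x.1 - 1) ⟨by linarith, by linarith [hxD.1.2]⟩).symm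
    · have e1 : H x = if x.1 ≤ 1 / 2 then ζ (T x * (1 + 2 * x.1) / 2) else P₂ (2 * x.1 - 1, T x) := by
        show (if _ then _ else _) = _
        rw [if_neg (not_le.2 hl), if_pos hx1]
      rw [e1]
      split_ifs with h4
      · have h5 : x.1 = 1 / 2 := le_antisymm h4 hx3
        have h6 : T x ∈ Icc (0 : ℝ) 1 := by
          simp only [T]
          exact ⟨by linarith, by linarith⟩
        rw [h5, show T x * (1 + 2 * (1 / 2)) / 2 = T x by ring, show (2 : ℝ) * (1 / 2) - 1 = 0 by ring]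
        exact (hP0 _ h6).symm
      · rfl
  have v4 : ∀ x ∈ D4, H x = h (min (2 * x.1) 1, nu x.2) := by
    intro x hx
    obtain ⟨hxD, hx1⟩ := hx
    have hx1' : 73 / 100 * x.2.1 ≤ 1 / 5 := hx1
    have hx0 : ¬ (3 / 5 ≤ 73 / 100 * x.2.1) := by linarith
    rcases eq_or_lt_of_le hx1' with he | hl
    · have hT : T x = 1 := by simp only [T, he]; norm_num
      have e1 : H x = if x.1 ≤ 1 / 2 then ζ (T x * (1 + 2 * x.1) / 2) else P₂ (2 * x.1 - 1, T x) := by
        show (if _ then _ else _) = _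
        rw [if_neg hx0, if_pos he.ge]
      rw [e1, nu_foot_top x.2 hxD.2 he, hT]
      have hu := hxD.1
      split_ifs with h4
      · rw [hz2 (1 * (1 + 2 * x.1) / 2) ⟨by linarith [hu.1], by linarith⟩,
          min_eq_left (by linarith)]
        congr 2
        ring
      · rw [min_eq_right (by linarith), h1 foot0 hfoot]
        exact hPb _ ⟨by linarith, by linarith [hu.2]⟩
    · show (if _ then _ else _) = _
      rw [if_neg hx0, if_neg (not_le.2 hl)]
  have hDu : D = ((D1 ∪ D2) ∪ D3) ∪ D4 := by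
    ext x
    constructor
    · intro hx
      by_cases h5 : 73 / 100 * x.2.1 ≤ 1 / 5
      · exact Or.inr ⟨hx, h5⟩
      · by_cases h6 : 3 / 5 ≤ 73 / 100 * x.2.1
        · exact Or.inl (Or.inl (Or.inl ⟨hx, h6⟩))
        · rcases le_total x.1 (1 / 2) with h7 | h7
          · exact Or.inl (Or.inl (Or.inr ⟨hx, ⟨(not_le.1 h5).le, (not_le.1 h6).le⟩, h7⟩))
          · exact Or.inl (Or.inr ⟨hx, ⟨(not_le.1 h5).le, (not_le.1 h6).le⟩, h7⟩)
    · rintro (((h5 | h5) | h5) | h5)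
      · exact h5.1
      · exact h5.1
      · exact h5.1
      · exact h5.1
  have hDc : IsClosed D := by
    refine isClosed_Icc.prod (isClosed_eq ?_ continuous_const)
    unfold nsq
    fun_prop
  have hD1 : IsClosed D1 := hDc.inter (isClosed_le (by fun_prop) (by fun_prop))
  have hD2 : IsClosed D2 := hDc.inter (((isClosed_le (by fun_prop) (by fun_prop)).inter
    (isClosed_le (by fun_prop) (by fun_prop))).inter (isClosed_le (by fun_prop) (by fun_prop)))
  have hD3 : IsClosed D3 := hDc.inter (((isClosed_le (by fun_prop) (by fun_prop)).inter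
    (isClosed_le (by fun_prop) (by fun_prop))).inter (isClosed_le (by fun_prop) (by fun_prop)))
  have hD4 : IsClosed D4 := hDc.inter (isClosed_le (by fun_prop) (by fun_prop))
  have hT : Continuous T := by
    simp only [T]
    fun_prop
  have c1 : ContinuousOn H D1 := by
    refine ContinuousOn.congr ?_ v1
    refine hFc.comp (nu_cont_top.comp continuous_snd).continuousOn ?_
    intro x hx
    have h3 : 3 / 5 ≤ 73 / 100 * x.2.1 := hx.2
    show nu x.2 ∈ SP
    rw [nu_bar_top x.2 hx.1.2 (by linarith)]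
    exact bar_mem_top _ (by linarith) (by linarith [hle x.2 hx.1.2])
  have c2 : ContinuousOn H D2 := by
    refine ContinuousOn.congr ?_ v2
    refine hz.comp (Continuous.continuousOn (by fun_prop)) ?_
    intro x hx
    obtain ⟨hxD, ⟨hx1, hx2⟩, hx3⟩ := hx
    simp only [mem_ofPred_eq] at hx1 hx2 hx3
    have h6 : 0 ≤ T x ∧ T x ≤ 1 := by
      simp only [T]
      exact ⟨by linarith, by linarith⟩
    have hu := hxD.1
    refine ⟨?_, ?_⟩
    · have := mul_nonneg h6.1 (by linarith [hu.1] : (0 : ℝ) ≤ 1 + 2 * x.1)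
      linarith
    · have : T x * (1 + 2 * x.1) ≤ 1 * 2 :=
        mul_le_mul h6.2 (by linarith) (by linarith [hu.1]) (by norm_num)
      linarith
  have c3 : ContinuousOn H D3 := by
    refine ContinuousOn.congr ?_ v3
    refine hP.comp (Continuous.continuousOn (by fun_prop)) ?_
    intro x hx
    obtain ⟨hxD, ⟨hx1, hx2⟩, hx3⟩ := hx
    simp only [mem_ofPred_eq] at hx1 hx2 hx3
    have hu := hxD.1
    refine ⟨⟨by linarith, by linarith [hu.2]⟩, ?_⟩
    simp only [T]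
    exact ⟨by linarith, by linarith⟩
  have c4 : ContinuousOn H D4 := by
    refine ContinuousOn.congr ?_ v4
    refine hh.comp (Continuous.continuousOn ?_) ?_
    · exact ((continuous_const.mul continuous_fst).min continuous_const).prodMk
        (nu_cont_top.comp continuous_snd)
    · intro x hx
      have hu := hx.1.1
      exact ⟨⟨le_min (by linarith [hu.1]) zero_le_one, min_le_right _ _⟩,
        nu_sph_top x.2 hx.1.2 hx.2⟩
  refine ⟨H, ?_, ?_, ?_, ?_, ?_⟩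
  · show ContinuousOn H D
    rw [hDu]
    exact ((c1.union_of_isClosed c2 hD1 hD2).union_of_isClosed c3 (hD1.union hD2) hD3).union_of_isClosed
      c4 ((hD1.union hD2).union hD3) hD4
  · intro m hm
    have hx : ((0 : ℝ), m) ∈ D := ⟨⟨le_rfl, zero_le_one⟩, hm⟩
    rw [hDu] at hx
    rcases hx with ((h5 | h5) | h5) | h5
    · exact v1 _ h5
    · rw [v2 _ h5]
      obtain ⟨-, ⟨hx1, hx2⟩, -⟩ := h5
      have hx1' : 1 / 5 ≤ 73 / 100 * m.1 := hx1
      have hx2' : 73 / 100 * m.1 ≤ 3 / 5 := hx2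
      have hx3 : T (0, m) * (1 + 2 * (0 : ℝ)) / 2 ∈ Icc (0 : ℝ) (1 / 2) := by
        simp only [T]
        exact ⟨by linarith, by linarith⟩
      show ζ (T (0, m) * (1 + 2 * (0 : ℝ)) / 2) = _
      rw [hz1 _ hx3, nu_bar_top m hm hx1']
      congr 2
      simp only [T]
      ring
    · exfalso
      have : (1 : ℝ) / 2 ≤ 0 := h5.2.2
      norm_num at this
    · rw [v4 _ h5]
      have h6 : nu m ∈ sph 0 := nu_sph_top m hm h5.2
      show h (min (2 * (0 : ℝ)) 1, nu m) = _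
      rw [show min (2 * (0 : ℝ)) 1 = 0 by norm_num]
      exact h0 _ h6
  · intro m hm
    have hx : ((1 : ℝ), m) ∈ D := ⟨⟨zero_le_one, le_rfl⟩, hm⟩
    rw [hDu] at hx
    rcases hx with ((h5 | h5) | h5) | h5
    · rw [v1 _ h5]
      have h6 : 3 / 5 ≤ 73 / 100 * m.1 := h5.2
      show F (nu m) = _
      rw [nu_bar_top m hm (by linarith)]
      exact hN ⟨⟨rfl, by show (1 : ℝ) / 5 ≤ 73 / 100 * m.1; linarith,
        by show 73 / 100 * m.1 ≤ (4 : ℝ) / 5; linarith [hle m hm], rfl⟩, h6⟩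
    · exfalso
      have : (1 : ℝ) ≤ 1 / 2 := h5.2.2
      norm_num at this
    · rw [v3 _ h5]
      obtain ⟨-, ⟨hx1, hx2⟩, -⟩ := h5
      have hx1' : 1 / 5 ≤ 73 / 100 * m.1 := hx1
      have hx2' : 73 / 100 * m.1 ≤ 3 / 5 := hx2
      have hx3 : T (1, m) ∈ Icc (0 : ℝ) 1 := by
        simp only [T]
        exact ⟨by linarith, by linarith⟩
      show P₂ (2 * (1 : ℝ) - 1, T (1, m)) = _
      rw [show (2 : ℝ) * 1 - 1 = 1 by norm_num, hP1 _ hx3, nu_bar_top m hm hx1']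
      congr 2
      simp only [T]
      ring
    · rw [v4 _ h5]
      have h6 : nu m ∈ sph 0 := nu_sph_top m hm h5.2
      show h (min (2 * (1 : ℝ)) 1, nu m) = _
      rw [show min (2 * (1 : ℝ)) 1 = 1 by norm_num]
      exact h1 _ h6
  · intro u _ m _ h5
    exact if_pos h5
  · intro u hu m hm
    have hx : (u, m) ∈ D := ⟨hu, hm⟩
    rw [hDu] at hx
    rcases hx with ((h5 | h5) | h5) | h5
    · rw [v1 _ h5]
      have h6 : 3 / 5 ≤ 73 / 100 * m.1 := h5.2
      have h7 := hle m hm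
      rintro ⟨y, hy, hyF⟩
      have h8 : nu m = bar (73 / 100 * m.1) := nu_bar_top m hm (by linarith)
      have h9 : y = nu m := by
        refine hF.2 (Or.inl (Or.inr hy)) ?_ hyF
        rw [h8]
        exact bar_mem_top _ (by linarith) (by linarith)
      rw [h9, h8] at hy
      have h10 : rsq 1 (bar (73 / 100 * m.1)) = 1 / 25 := hy.2
      unfold rsq nsq bar at h10
      simp only [Complex.zero_re, Complex.zero_im] at h10
      nlinarith
    · rw [v2 _ h5]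
      obtain ⟨-, ⟨hx1, hx2⟩, hx3⟩ := h5
      have hx1' : 1 / 5 ≤ 73 / 100 * m.1 := hx1
      have hx2' : 73 / 100 * m.1 ≤ 3 / 5 := hx2
      have hx3' : u ≤ 1 / 2 := hx3
      have h6 : 0 ≤ T (u, m) ∧ T (u, m) ≤ 1 := by
        simp only [T]
        exact ⟨by linarith, by linarith⟩
      refine hzK _ ⟨?_, ?_⟩
      · have := mul_nonneg h6.1 (by linarith [hu.1] : (0 : ℝ) ≤ 1 + 2 * u)
        show 0 ≤ T (u, m) * (1 + 2 * u) / 2
        linarith
      · have : T (u, m) * (1 + 2 * u) ≤ 1 * 2 :=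
          mul_le_mul h6.2 (by linarith) (by linarith [hu.1]) (by norm_num)
        show T (u, m) * (1 + 2 * u) / 2 ≤ 1
        linarith
    · rw [v3 _ h5]
      obtain ⟨-, ⟨hx1, hx2⟩, hx3⟩ := h5
      have hx1' : 1 / 5 ≤ 73 / 100 * m.1 := hx1
      have hx2' : 73 / 100 * m.1 ≤ 3 / 5 := hx2
      have hx3' : 1 / 2 ≤ u := hx3
      refine hPK _ ⟨by show (0 : ℝ) ≤ 2 * u - 1; linarith, by show 2 * u - 1 ≤ (1 : ℝ); linarith [hu.2]⟩ _ ?_
      simp only [T]
      exact ⟨by linarith, by linarith⟩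
    · rw [v4 _ h5]
      exact hK _ ⟨le_min (by show (0 : ℝ) ≤ 2 * u; linarith [hu.1]) zero_le_one, min_le_right _ _⟩ _
        (nu_sph_top m hm h5.2)

end Pool.Agent.Helper18.BI.H
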