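import Pool.Agent.Helper70.BI.AsmE
import Pool.Agent.Helper70.BI.H.M_NORM
import Pool.Agent.Helper70.BI.H.M_NCT
import Pool.Agent.Helper70.BI.H.M_SLD
import Pool.Agent.Helper70.BI.H.M_CEN
import Pool.Agent.Helper70.BI.H.M_LOCL
import Pool.Agent.Helper70.BI.H.M_SML
import Pool.Agent.Helper70.BI.H.M_GLL
import Pool.Agent.Helper34.BI.H.AsmCross
import Pool.Agent.Helper34.BI.H.M_BAR
import Pool.Agent.Helper34.BI.H.M_SMH
import Pool.Agent.Helper27.BI.H.M_CUM
import Pool.Agent.Helper18.BI.H.HatN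
import Pool.Agent.Helper18.BI.H.EndR4
import Pool.Agent.Helper18.BI.H.M_STR
import Pool.Agent.Helper18.BI.H.M_TOP
import Pool.Agent.Helper18.BI.H.M_SM
import Pool.Agent.Helper18.BI.H.M_HC
import Pool.Agent.Helper18.BI.H.M_NUL
import Pool.Agent.Helper18.BI.H.M_F3

/-!
# Project BI, stage 3 (H): assembly
-/

set_option autoImplicit false

open Pool.Agent.Helper18.BI Pool.Agent.Helper65.Barb
open Pool.Agent.Helper70.BI (hMain2 hW4 hX2c hEI hR3real hMWL exists_isW')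

namespace Pool.Agent.Helper18.BI.H

theorem hSML : Pool.Agent.Helper70.H.StSML :=
  Pool.Agent.Helper70.H.m_SML Pool.Agent.Helper70.BI.hPT

theorem hGLL : Pool.Agent.Helper70.H.StGLL :=
  Pool.Agent.Helper70.H.m_GLL hSML Pool.Agent.Helper70.BI.hGL

theorem hLOCL : Pool.Agent.Helper70.H.StLOCL := Pool.Agent.Helper70.H.m_LOCL hSML hGLL

theorem hNORM : Pool.Agent.Helper27.H.StNORM :=
  Pool.Agent.Helper70.H.m_NORM
    (Pool.Agent.Helper70.H.m_NCT (Pool.Agent.Helper70.H.m_CEN hLOCL) Pool.Agent.Helper70.BI.hCL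
      Pool.Agent.Helper70.BI.hFam Pool.Agent.Helper70.BI.hDET hA1)
    (Pool.Agent.Helper70.H.m_SLD Pool.Agent.Helper70.BI.hRM hA1) Pool.Agent.Helper70.BI.hFam hMain2

/-- the homotopy theorem for loops of arcs -/
theorem hArcH : Pool.Agent.Helper27.H.StArcH :=
  Pool.Agent.Helper27.H.hArcH_of Pool.Agent.Helper34.BI.H.hCROSS Pool.Agent.Helper27.H.m_CUM hNORM

theorem hHMain : StHMain :=
  m_HMain m_STR Pool.Agent.Helper34.BI.H.m_BAR m_TOP m_SM hHATn hArcH hMain2 hT2 hCI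

/-- **the main theorem of stage 3** -/
theorem hFinal3 : StFinal3 := by
  obtain ⟨W, hW⟩ := exists_isW'
  have hHC : StHC := m_HC hHMain hMWL
  have hNULC : StNULC := m_NULC hHC m_NUL hT2 hCI Pool.Agent.Helper27.BI.hR2sw
  exact m_F3 hW4 hHC hNULC Pool.Agent.Helper34.BI.H.m_SMH hR3real hA1 hS4 hT2 hT4 hX1 hX2c hX3 hEI
    hCI hW

end Pool.Agent.Helper18.BI.H
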