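import Pool.Agent.Helper18.BI.H.M_PI2C

/-!
# Project BI, stage 3 (H), module PI2B: the quaternion lift of a map of a square to `GL₃`
-/

set_option autoImplicit false
set_option linter.unusedSimpArgs false

open scoped Manifold ContDiff Topology ComplexConjugate
open Set Pool.Agent.Helper65.Barb Pool.Agent.Helper18.BI

namespace Pool.Agent.Helper18.BI.H

namespace PI2B

open PI2C

/-- the rotation with scaling, as a continuous linear map -/
noncomputable def rc (q : ℂ × ℂ) : E3 := (rotM q).toContinuousLinearMap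

theorem rc_apply (q : ℂ × ℂ) (v : ℝ × ℂ) : rc q v = rot q.1 q.2 v := rfl

theorem rc_one : rc (1, 0) = 1 := by
  refine ContinuousLinearMap.ext fun v => ?_
  rw [rc_apply]
  exact rot_one v

theorem rc_qm (p q : ℂ × ℂ) : rc (qm p q) = rc p * rc q := by
  refine ContinuousLinearMap.ext fun v => ?_
  exact rot_qm p q v

theorem rc_qi {p : ℂ × ℂ} (h : qn p ≠ 0) : rc p * rc (qi p) = 1 := by
  rw [← rc_qm, qm_qi h, rc_one]

theorem contDiff_rc : ContDiff ℝ ∞ rc := by
  rw [contDiff_clm_apply_iff]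
  intro v
  exact contDiff_rot contDiff_fst contDiff_snd contDiff_const

theorem norm_sq_le (v : ℝ × ℂ) : ‖v‖ ^ 2 ≤ nsq v := by
  have h1 : ‖v.2‖ ^ 2 = v.2.re ^ 2 + v.2.im ^ 2 := by
    rw [Complex.sq_norm, Complex.normSq_apply]
    ring
  have h2 : ‖v.1‖ ^ 2 = v.1 ^ 2 := by
    rw [Real.norm_eq_abs, sq_abs]
  rw [Prod.norm_def]
  unfold nsq
  rcases le_total ‖v.1‖ ‖v.2‖ with h | h
  · rw [max_eq_right h, h1]
    nlinarith [sq_nonneg v.1]
  · rw [max_eq_left h, h2]
    nlinarith [sq_nonneg v.2.re, sq_nonneg v.2.im]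

theorem le_norm_sq (v : ℝ × ℂ) : nsq v ≤ 2 * ‖v‖ ^ 2 := by
  have h1 : ‖v.2‖ ^ 2 = v.2.re ^ 2 + v.2.im ^ 2 := by
    rw [Complex.sq_norm, Complex.normSq_apply]
    ring
  have h2 : ‖v.1‖ ^ 2 = v.1 ^ 2 := by
    rw [Real.norm_eq_abs, sq_abs]
  have h3 : ‖v.1‖ ≤ ‖v‖ := norm_fst_le v
  have h4 : ‖v.2‖ ≤ ‖v‖ := norm_snd_le v
  have h5 : ‖v.1‖ ^ 2 ≤ ‖v‖ ^ 2 := pow_le_pow_left₀ (norm_nonneg _) h3 2
  have h6 : ‖v.2‖ ^ 2 ≤ ‖v‖ ^ 2 := pow_le_pow_left₀ (norm_nonneg _) h4 2
  unfold nsq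
  linarith

theorem qn_nonneg (p : ℂ × ℂ) : 0 ≤ qn p :=
  add_nonneg (Complex.normSq_nonneg _) (Complex.normSq_nonneg _)

theorem norm_conj {p : ℂ × ℂ} (h : qn p ≠ 0) (A : E3) :
    ‖rc (qi p) * A * rc p‖ ≤ 2 * ‖A‖ := by
  refine ContinuousLinearMap.opNorm_le_bound _ (by positivity) fun v => ?_
  have hq : qn (qi p) * qn p = 1 := by
    rw [mul_comm, ← qn_qm, qm_qi h]
    simp [qn]
  set w : ℝ × ℂ := rc p v with hw
  have h1 : ‖w‖ ^ 2 ≤ qn p ^ 2 * (2 * ‖v‖ ^ 2) := by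
    refine (norm_sq_le w).trans ?_
    rw [hw, rc_apply, nsq_rot]
    exact mul_le_mul_of_nonneg_left (le_norm_sq v) (sq_nonneg _)
  have h2 : ‖A w‖ ≤ ‖A‖ * ‖w‖ := A.le_opNorm w
  have h3 : ‖rc (qi p) (A w)‖ ^ 2 ≤ qn (qi p) ^ 2 * (2 * ‖A w‖ ^ 2) := by
    refine (norm_sq_le _).trans ?_
    rw [rc_apply, nsq_rot]
    exact mul_le_mul_of_nonneg_left (le_norm_sq _) (sq_nonneg _)
  have h4 : ‖A w‖ ^ 2 ≤ ‖A‖ ^ 2 * ‖w‖ ^ 2 := by
    rw [← mul_pow]
    exact pow_le_pow_left₀ (norm_nonneg _) h2 2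
  have h5 : ‖rc (qi p) (A w)‖ ^ 2 ≤ (2 * ‖A‖ * ‖v‖) ^ 2 := by
    calc ‖rc (qi p) (A w)‖ ^ 2 ≤ qn (qi p) ^ 2 * (2 * ‖A w‖ ^ 2) := h3
      _ ≤ qn (qi p) ^ 2 * (2 * (‖A‖ ^ 2 * (qn p ^ 2 * (2 * ‖v‖ ^ 2)))) := by
          refine mul_le_mul_of_nonneg_left ?_ (sq_nonneg _)
          refine mul_le_mul_of_nonneg_left ?_ (by norm_num)
          exact h4.trans (mul_le_mul_of_nonneg_left h1 (sq_nonneg _))
      _ = (qn (qi p) * qn p) ^ 2 * (2 * ‖A‖ * ‖v‖) ^ 2 := by ring
      _ = (2 * ‖A‖ * ‖v‖) ^ 2 := by rw [hq]; ring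
  have h6 := abs_le_of_sq_le_sq h5 (by positivity)
  show ‖rc (qi p) (A w)‖ ≤ 2 * ‖A‖ * ‖v‖
  exact (le_abs_self _).trans h6

theorem rc_qi' {p : ℂ × ℂ} (h : qn p ≠ 0) : rc (qi p) * rc p = 1 := by
  have h1 := rc_qi h
  have h2 := rc_qi (qn_qi h)
  -- the right inverse of the right inverse
  calc rc (qi p) * rc p = rc (qi p) * rc p * (rc (qi p) * rc (qi (qi p))) := by rw [h2, mul_one]
    _ = rc (qi p) * (rc p * rc (qi p)) * rc (qi (qi p)) := by simp only [mul_assoc]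
    _ = 1 := by rw [h1, mul_one, h2]

theorem isUnit_of_inj {A : E3} (h : ∀ v, A v = 0 → v = 0) : IsUnit A := by
  have hinj : Function.Injective (A : (ℝ × ℂ) →ₗ[ℝ] (ℝ × ℂ)) :=
    (injective_iff_map_eq_zero _).2 h
  let e := (LinearEquiv.ofInjectiveEndo (A : (ℝ × ℂ) →ₗ[ℝ] (ℝ × ℂ)) hinj).toContinuousLinearEquiv
  have he : (e : E3) = A := by
    refine ContinuousLinearMap.ext fun v => ?_
    rfl
  refine ⟨⟨(e : E3), (e.symm : E3), ?_, ?_⟩, he⟩
  · refine ContinuousLinearMap.ext fun v => ?_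
    exact e.apply_symm_apply v
  · refine ContinuousLinearMap.ext fun v => ?_
    exact e.symm_apply_apply v

theorem tri_one : Tri (1 : E3) := by
  refine ⟨rfl, ?_, ?_, ?_⟩ <;> simp

theorem tri_mul {S T : E3} (hS : Tri S) (hT : Tri T) : Tri (S * T) := by
  obtain ⟨s1, s2, s3, s4⟩ := hS
  obtain ⟨t1, t2, t3, t4⟩ := hT
  have key : ∀ v : ℝ × ℂ, S v = v.1 • ((1 : ℝ), (0 : ℂ)) + v.2.re • S (0, 1)
      + v.2.im • S (0, Complex.I) := by
    intro v
    conv_lhs => rw [decomp v]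
    rw [map_add, map_add, map_smul, map_smul, map_smul, s1]
  refine ⟨?_, ?_, ?_, ?_⟩
  · show S (T (1, 0)) = (1, 0)
    rw [t1, s1]
  · show (S (T (0, 1))).2.im = 0
    rw [key (T (0, 1)), t2]
    simp [s2]
  · show 0 < (S (T (0, 1))).2.re
    rw [key (T (0, 1)), t2]
    simp only [zero_smul, add_zero, Prod.snd_add, Prod.smul_snd, smul_zero, zero_add,
      Complex.smul_re, smul_eq_mul]
    exact mul_pos t3 s3
  · show 0 < (S (T (0, Complex.I))).2.im
    rw [key (T (0, Complex.I))]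
    simp only [Prod.snd_add, Prod.smul_snd, smul_zero, zero_add, Complex.add_im,
      Complex.smul_im, smul_eq_mul, s2, mul_zero]
    exact mul_pos t4 s4

/-- a decomposition of the identity -/
theorem rc_tri_one {q : ℂ × ℂ} {T : E3} (hT : Tri T) (h : rc q * T = 1) :
    (q = (1, 0) ∨ q = (-1, 0)) ∧ T = 1 := by
  obtain ⟨t1, t2, t3, t4⟩ := hT
  obtain ⟨α, β⟩ := q
  have e1 : rot α β (1, 0) = (1, 0) := by
    have : rc (α, β) (T (1, 0)) = (1, 0) := congrArg (fun A : E3 => A (1, 0)) h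
    rw [t1] at this
    exact this
  have e2 : Complex.normSq α - Complex.normSq β = 1 := by
    have := congrArg Prod.fst e1
    simpa [rot] using this
  have e3 : α * β = 0 := by
    have := congrArg Prod.snd e1
    simp only [rot] at this
    have h2 : (2 * Complex.I) * (α * β) = 0 := by
      simp only [mul_zero, map_zero, add_zero, Complex.ofReal_one, mul_one, zero_sub, neg_eq_zero]
        at this
      rw [← this]
      ring
    exact (mul_eq_zero.1 h2).resolve_left (by simp)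
  have hα : α ≠ 0 := by
    rintro rfl
    have := Complex.normSq_nonneg β
    simp at e2
    linarith
  have hβ : β = 0 := (mul_eq_zero.1 e3).resolve_left hα
  subst hβ
  have hn : Complex.normSq α = 1 := by simpa using e2
  have hT : ∀ v, ((T v).1, α ^ 2 * (T v).2) = v := by
    intro v
    have : rot α 0 (T v) = v := congrArg (fun A : E3 => A v) h
    rw [rot_diag hn] at this
    exact this
  have hα2 : α ^ 2 = 1 := by
    have h1 := congrArg Prod.snd (hT (0, 1))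
    simp only at h1
    have hc : (T (0, 1)).2 = (((T (0, 1)).2.re : ℝ) : ℂ) := by
      apply Complex.ext
      · simp
      · simp [t2]
    rw [hc] at h1
    have h2 := congrArg Complex.normSq h1
    rw [map_mul, map_pow, hn, Complex.normSq_ofReal, one_pow, one_mul, map_one] at h2
    have h3 : (T (0, 1)).2.re = 1 := by nlinarith
    rw [h3] at h1
    simpa using h1
  refine ⟨?_, ?_⟩
  · rcases (mul_self_eq_one_iff (a := α)).1 (by rw [← pow_two]; exact hα2) with h | h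
    · left; rw [h]
    · right; rw [h]
  · refine ContinuousLinearMap.ext fun v => ?_
    have := hT v
    rw [hα2, one_mul] at this
    exact this

/-- a bounded reparametrization of the line -/
noncomputable def gg (u : ℝ) : ℝ :=
  u * (step (2 - u) + step (1 + u) - 1) + 2 * (1 - step (2 - u)) - (1 - step (1 + u))

theorem contDiff_gg : ContDiff ℝ ∞ gg := by
  have h1 : ContDiff ℝ ∞ (fun u : ℝ => step (2 - u)) :=
    Real.smoothTransition.contDiff.comp (contDiff_const.sub contDiff_id)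
  have h2 : ContDiff ℝ ∞ (fun u : ℝ => step (1 + u)) :=
    Real.smoothTransition.contDiff.comp (contDiff_const.add contDiff_id)
  unfold gg
  exact ((contDiff_id.mul ((h1.add h2).sub contDiff_const)).add
    (contDiff_const.mul (contDiff_const.sub h1))).sub (contDiff_const.sub h2)

theorem gg_mid {u : ℝ} (h0 : 0 ≤ u) (h1 : u ≤ 1) : gg u = u := by
  unfold gg
  rw [step_of_one_le (by linarith : 1 ≤ 2 - u), step_of_one_le (by linarith : 1 ≤ 1 + u)]
  ring

theorem gg_nonpos {u : ℝ} (h : u ≤ 0) : gg u ≤ 0 ∧ -2 ≤ gg u := by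
  have h0 : 0 ≤ step (1 + u) := Real.smoothTransition.nonneg _
  have h1 : step (1 + u) ≤ 1 := Real.smoothTransition.le_one _
  unfold gg
  rw [step_of_one_le (by linarith : 1 ≤ 2 - u)]
  rcases le_total u (-1) with h2 | h2
  · rw [step_of_nonpos (by linarith : 1 + u ≤ 0)]
    constructor <;> linarith
  · constructor <;> nlinarith

theorem gg_one_le {u : ℝ} (h : 1 ≤ u) : 1 ≤ gg u ∧ gg u ≤ 2 := by
  have h0 : 0 ≤ step (2 - u) := Real.smoothTransition.nonneg _
  have h1 : step (2 - u) ≤ 1 := Real.smoothTransition.le_one _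
  unfold gg
  rw [step_of_one_le (by linarith : 1 ≤ 1 + u)]
  rcases le_total 2 u with h2 | h2
  · rw [step_of_nonpos (by linarith : 2 - u ≤ 0)]
    constructor <;> linarith
  · constructor <;> nlinarith

theorem abs_gg (u : ℝ) : |gg u| ≤ 2 := by
  rcases le_total u 0 with h | h
  · have := gg_nonpos h
    rw [abs_le]
    constructor <;> linarith
  · rcases le_total u 1 with h1 | h1
    · rw [gg_mid h h1, abs_le]
      constructor <;> linarith
    · have := gg_one_le h1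
      rw [abs_le]
      constructor <;> linarith

/-- the recursion -/
noncomputable def seqQ (q : E3 → ℂ × ℂ) (τ : E3 → E3) (A : ℕ → ℝ × ℝ → E3) :
    ℕ → ℝ × ℝ → (ℂ × ℂ) × E3
  | 0 => fun _ => ((1, 0), 1)
  | k + 1 => fun x =>
      (qm (seqQ q τ A k x).1 (q (rc (qi (seqQ q τ A k x).1) *
          (A (k + 1) x * Ring.inverse (A k x)) * rc (seqQ q τ A k x).1)),
        τ (rc (qi (seqQ q τ A k x).1) *
          (A (k + 1) x * Ring.inverse (A k x)) * rc (seqQ q τ A k x).1) * (seqQ q τ A k x).2)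

theorem seqQ_one {q : E3 → ℂ × ℂ} {τ : E3 → E3} {A : ℕ → ℝ × ℝ → E3} (hq1 : q 1 = (1, 0))
    (hτ1 : τ 1 = 1) {x : ℝ × ℝ} {N : ℕ} (h : ∀ k ≤ N, A k x = 1) :
    ∀ k ≤ N, seqQ q τ A k x = ((1, 0), 1) := by
  intro k
  induction k with
  | zero => intro _; rfl
  | succ k ih =>
    intro hk
    have hk' : k ≤ N := by omega
    have e := ih hk'
    rw [seqQ]
    beta_reduce
    rw [e, h k hk', h (k + 1) hk]
    simp only [Ring.inverse_one, mul_one, qi_one, rc_one, one_mul, hq1, hτ1, qm_one]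

theorem seqQ_main {r : ℝ} {q : E3 → ℂ × ℂ} {τ : E3 → E3}
    (hq : ContDiffOn ℝ ∞ q (Metric.ball 1 r)) (hτ : ContDiffOn ℝ ∞ τ (Metric.ball 1 r))
    (hA : ∀ B ∈ Metric.ball (1 : E3) r, q B ≠ 0 ∧ Tri (τ B) ∧ rc (q B) * τ B = B)
    {A : ℕ → ℝ × ℝ → E3} (hA0 : ∀ x, A 0 x = 1) (hAs : ∀ k, ContDiff ℝ ∞ (A k))
    (hAu : ∀ k x, IsUnit (A k x)) {N : ℕ}
    (hst : ∀ k < N, ∀ x, ‖A (k + 1) x * Ring.inverse (A k x) - 1‖ < r / 2) :
    ∀ k ≤ N, ContDiff ℝ ∞ (seqQ q τ A k) ∧ ∀ x, (seqQ q τ A k x).1 ≠ 0 ∧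
      Tri (seqQ q τ A k x).2 ∧ rc (seqQ q τ A k x).1 * (seqQ q τ A k x).2 = A k x := by
  intro k
  induction k with
  | zero =>
    intro _
    refine ⟨contDiff_const, fun x => ⟨?_, tri_one, ?_⟩⟩
    · show ((1 : ℂ), (0 : ℂ)) ≠ 0
      intro h
      exact one_ne_zero (congrArg Prod.fst h)
    · show rc (1, 0) * 1 = A 0 x
      rw [rc_one, hA0, one_mul]
  | succ k ih =>
    intro hk
    obtain ⟨hs, hx⟩ := ih (by omega)
    have hqn : ∀ x, qn (seqQ q τ A k x).1 ≠ 0 := fun x => qn_ne (hx x).1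
    set D : ℝ × ℝ → E3 := fun x => rc (qi (seqQ q τ A k x).1) *
      (A (k + 1) x * Ring.inverse (A k x)) * rc (seqQ q τ A k x).1 with hD
    have hDb : ∀ x, D x ∈ Metric.ball (1 : E3) r := by
      intro x
      rw [mem_ball_iff_norm]
      have e : D x - 1 = rc (qi (seqQ q τ A k x).1) *
          (A (k + 1) x * Ring.inverse (A k x) - 1) * rc (seqQ q τ A k x).1 := by
        rw [mul_sub, sub_mul, mul_one, rc_qi' (hqn x)]
      rw [e]
      have h1 := norm_conj (hqn x) (A (k + 1) x * Ring.inverse (A k x) - 1)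
      have h2 := hst k (by omega) x
      linarith
    have hinv : ContDiff ℝ ∞ (fun x => Ring.inverse (A k x)) := by
      rw [contDiff_iff_contDiffAt]
      intro x
      obtain ⟨U, hU⟩ := hAu k x
      have := contDiffAt_ringInverse (n := ∞) ℝ U
      rw [hU] at this
      exact this.comp x (hAs k).contDiffAt
    have hDs : ContDiff ℝ ∞ D := by
      have h1 : ContDiff ℝ ∞ (fun x => rc (qi (seqQ q τ A k x).1)) :=
        contDiff_rc.comp (contDiff_qi hs.fst hqn)
      have h2 : ContDiff ℝ ∞ (fun x => rc (seqQ q τ A k x).1) := contDiff_rc.comp hs.fst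
      exact (h1.mul ((hAs (k + 1)).mul hinv)).mul h2
    have hqD : ContDiff ℝ ∞ (fun x => q (D x)) := hq.comp_contDiff hDs hDb
    have hτD : ContDiff ℝ ∞ (fun x => τ (D x)) := hτ.comp_contDiff hDs hDb
    refine ⟨?_, fun x => ?_⟩
    · show ContDiff ℝ ∞ (fun x => (qm (seqQ q τ A k x).1 (q (D x)),
        τ (D x) * (seqQ q τ A k x).2))
      exact (contDiff_qm hs.fst hqD).prodMk (hτD.mul hs.snd)
    · show qm (seqQ q τ A k x).1 (q (D x)) ≠ 0 ∧ Tri (τ (D x) * (seqQ q τ A k x).2) ∧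
        rc (qm (seqQ q τ A k x).1 (q (D x))) * (τ (D x) * (seqQ q τ A k x).2) = A (k + 1) x
      obtain ⟨a1, a2, a3⟩ := hA (D x) (hDb x)
      obtain ⟨b1, b2, b3⟩ := hx x
      refine ⟨?_, tri_mul a2 b2, ?_⟩
      · intro h0
        have h1 := qn_qm (seqQ q τ A k x).1 (q (D x))
        rw [h0] at h1
        have h2 : qn (0 : ℂ × ℂ) = 0 := by simp [qn]
        rw [h2] at h1
        exact mul_ne_zero (hqn x) (qn_ne a1) h1.symm
      · rw [rc_qm]
        calc rc (seqQ q τ A k x).1 * rc (q (D x)) * (τ (D x) * (seqQ q τ A k x).2)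
            = rc (seqQ q τ A k x).1 * (rc (q (D x)) * τ (D x)) * (seqQ q τ A k x).2 := by
              simp only [mul_assoc]
          _ = (rc (seqQ q τ A k x).1 * rc (qi (seqQ q τ A k x).1)) *
                (A (k + 1) x * Ring.inverse (A k x)) *
                (rc (seqQ q τ A k x).1 * (seqQ q τ A k x).2) := by
              rw [a3, hD]
              simp only [mul_assoc]
          _ = A (k + 1) x := by
              rw [rc_qi (hqn x), b3, one_mul, mul_assoc, Ring.inverse_mul_cancel _ (hAu k x),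
                mul_one]

/-- uniform continuity -/
theorem exists_N {s₀ s₁ r : ℝ} {M : ℝ × ℝ → E3} (hM : SqM s₀ s₁ M) (hr : 0 < r) :
    ∃ N : ℕ, 0 < N ∧ ∀ a b s : ℝ, |a| ≤ 2 → |b| ≤ 2 → |a - b| ≤ 2 / N →
      ‖M (a, s) * Ring.inverse (M (b, s)) - 1‖ < r := by
  obtain ⟨hM1, hM2, hM3⟩ := hM
  have hinv : Continuous (fun x => Ring.inverse (M x)) := by
    rw [continuous_iff_continuousAt]
    intro x
    obtain ⟨U, hU⟩ := isUnit_of_inj (hM2 x)
    have := (contDiffAt_ringInverse (n := ∞) ℝ U).continuousAt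
    rw [hU] at this
    exact ContinuousAt.comp (f := M) this hM1.continuous.continuousAt
  let F : ℝ × ℝ × ℝ → E3 := fun z => M (z.1, z.2.2) * Ring.inverse (M (z.2.1, z.2.2))
  have hF : Continuous F := by
    have h1 : Continuous (fun z : ℝ × ℝ × ℝ => M (z.1, z.2.2)) :=
      hM1.continuous.comp (by fun_prop)
    have h2 : Continuous (fun z : ℝ × ℝ × ℝ => Ring.inverse (M (z.2.1, z.2.2))) :=
      hinv.comp (by fun_prop : Continuous fun z : ℝ × ℝ × ℝ => (z.2.1, z.2.2))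
    exact h1.mul h2
  have hK : IsCompact (Icc (-2 : ℝ) 2 ×ˢ Icc (-2 : ℝ) 2 ×ˢ Icc s₀ s₁) :=
    isCompact_Icc.prod (isCompact_Icc.prod isCompact_Icc)
  have hU := hK.uniformContinuousOn_of_continuous hF.continuousOn
  rw [Metric.uniformContinuousOn_iff] at hU
  obtain ⟨δ, hδ, hU⟩ := hU r hr
  obtain ⟨N, hN⟩ := exists_nat_gt (2 / δ)
  have hNpos : (0 : ℝ) < N := lt_trans (by positivity) hN
  refine ⟨N, by exact_mod_cast hNpos, fun a b s ha hb hab => ?_⟩
  by_cases hs : s ∈ Icc s₀ s₁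
  · have ha' : a ∈ Icc (-2 : ℝ) 2 := abs_le.1 ha
    have hb' : b ∈ Icc (-2 : ℝ) 2 := abs_le.1 hb
    have hlt : 2 / (N : ℝ) < δ := by
      rw [div_lt_iff₀ hNpos]
      rw [div_lt_iff₀ hδ] at hN
      linarith
    have h1 := hU (a, b, s) ⟨ha', hb', hs⟩ (b, b, s) ⟨hb', hb', hs⟩ (by
      rw [Prod.dist_eq, dist_self]
      simp only [Real.dist_eq]
      rw [max_lt_iff]
      exact ⟨lt_of_le_of_lt hab hlt, hδ⟩)
    have h2 : F (b, b, s) = 1 := Ring.mul_inverse_cancel _ (isUnit_of_inj (hM2 _))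
    rw [h2, dist_eq_norm] at h1
    exact h1
  · have e : ∀ c, M (c, s) = 1 := fun c => hM3 _ fun h => hs ⟨h.2.1.le, h.2.2.le⟩
    rw [e, e]
    simpa using hr

end PI2B

open PI2C PI2B

theorem m_PI2B (h : StPI2A) : StPI2B := by
  obtain ⟨r, hr, q, τ, hq, hτ, hq1, hτ1, hA⟩ := h
  intro s₀ s₁ M hs hM
  obtain ⟨N, hN0, hN⟩ := exists_N hM (half_pos hr)
  obtain ⟨hM1, hM2, hM3⟩ := hM
  have hNpos : (0 : ℝ) < N := by exact_mod_cast hN0
  let A : ℕ → ℝ × ℝ → E3 := fun k x => M (k * gg x.1 / N, x.2)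
  have hA0 : ∀ x, A 0 x = 1 := by
    intro x
    simp only [A, Nat.cast_zero, zero_mul, zero_div]
    exact hM3 _ fun h => lt_irrefl _ h.1.1
  have hAs : ∀ k, ContDiff ℝ ∞ (A k) := by
    intro k
    refine hM1.comp (ContDiff.prodMk ?_ contDiff_snd)
    exact (contDiff_const.mul (contDiff_gg.comp contDiff_fst)).div_const _
  have hAu : ∀ k x, IsUnit (A k x) := fun k x => isUnit_of_inj (hM2 _)
  have hst : ∀ k < N, ∀ x, ‖A (k + 1) x * Ring.inverse (A k x) - 1‖ < r / 2 := by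
    intro k hk x
    have hg := abs_gg x.1
    have hb : ∀ j : ℕ, j ≤ N → |(j : ℝ) * gg x.1 / N| ≤ 2 := by
      intro j hj
      rw [abs_div, abs_mul, Nat.abs_cast, Nat.abs_cast, div_le_iff₀ hNpos]
      have : (j : ℝ) ≤ N := by exact_mod_cast hj
      nlinarith [abs_nonneg (gg x.1)]
    refine hN _ _ _ (hb (k + 1) hk) (hb k hk.le) ?_
    have e : ((k + 1 : ℕ) : ℝ) * gg x.1 / N - k * gg x.1 / N = gg x.1 / N := by
      push_cast
      ring
    rw [e, abs_div, Nat.abs_cast]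
    gcongr
  have main := seqQ_main hq hτ (fun B hB => ?_) hA0 hAs hAu hst N le_rfl
  swap
  · obtain ⟨h1, h2, h3⟩ := hA B hB
    exact ⟨h1, h2, ContinuousLinearMap.ext fun v => h3 v⟩
  obtain ⟨hsm, hx⟩ := main
  have hAN : ∀ x, A N x = M x := by
    intro x
    have e : (N : ℝ) * gg x.1 / N = gg x.1 := by field_simp
    simp only [A]
    rw [e]
    rcases le_or_gt x.1 0 with h0 | h0
    · have h1 : M (gg x.1, x.2) = 1 := hM3 _ fun h => absurd h.1.1 (not_lt.2 (gg_nonpos h0).1)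
      have h2 : M x = 1 := hM3 _ fun h => absurd h.1.1 (not_lt.2 h0)
      rw [h1, h2]
    · rcases le_or_gt 1 x.1 with h1 | h1
      · have h2 : M (gg x.1, x.2) = 1 := hM3 _ fun h => absurd h.1.2 (not_lt.2 (gg_one_le h1).1)
        have h3 : M x = 1 := hM3 _ fun h => absurd h.1.2 (not_lt.2 h1)
        rw [h2, h3]
      · rw [gg_mid h0.le h1.le]
  -- where everything is trivial
  have htriv : ∀ x : ℝ × ℝ, (x.1 ≤ 0 ∨ x.2 ∉ Ioo s₀ s₁) → seqQ q τ A N x = ((1, 0), 1) := by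
    intro x hx0
    refine seqQ_one hq1 hτ1 (N := N) (fun k _ => ?_) N le_rfl
    rcases hx0 with h0 | h0
    · refine hM3 _ fun h => absurd h.1.1 (not_lt.2 ?_)
      have := (gg_nonpos h0).1
      exact div_nonpos_of_nonpos_of_nonneg
        (mul_nonpos_of_nonneg_of_nonpos (Nat.cast_nonneg k) this) hNpos.le
    · exact hM3 _ fun h => h0 h.2
  refine ⟨fun x => (seqQ q τ A N x).1, fun x => (seqQ q τ A N x).2, hsm.fst, hsm.snd,
    fun x => (hx x).1, fun x => (hx x).2.1, fun x v => ?_, fun x hxo => ?_⟩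
  · have := (hx x).2.2
    rw [hAN] at this
    rw [← this]
    rfl
  · show (seqQ q τ A N x).1 = (1, 0) ∧ (seqQ q τ A N x).2 = 1
    by_cases hc : x.1 ≤ 0 ∨ x.2 ∉ Ioo s₀ s₁
    · rw [htriv x hc]
      exact ⟨rfl, rfl⟩
    · push Not at hc
      have hx1 : 1 ≤ x.1 := by
        by_contra hlt
        exact hxo ⟨⟨hc.1, not_le.1 hlt⟩, hc.2⟩
      -- the line above the point
      have hval : ∀ s : ℝ, ((seqQ q τ A N (x.1, s)).1 = (1, 0) ∨
          (seqQ q τ A N (x.1, s)).1 = (-1, 0)) ∧ (seqQ q τ A N (x.1, s)).2 = 1 := by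
        intro s
        refine rc_tri_one (hx (x.1, s)).2.1 ?_
        rw [(hx (x.1, s)).2.2, hAN]
        exact hM3 _ fun h => absurd h.1.2 (not_lt.2 hx1)
      refine ⟨?_, (hval x.2).2⟩
      rcases (hval x.2).1 with h1 | h1
      · exact h1
      · exfalso
        let f : ℝ → ℝ := fun s => (seqQ q τ A N (x.1, s)).1.1.re
        have hf : Continuous f := by
          have h2 : Continuous (fun s : ℝ => seqQ q τ A N (x.1, s)) :=
            hsm.continuous.comp (by fun_prop)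
          exact Complex.continuous_re.comp (continuous_fst.comp (continuous_fst.comp h2))
        have ha : f x.2 ≤ 0 := by
          simp only [f, h1]
          simp
        have hb : 0 ≤ f s₀ := by
          have := htriv (x.1, s₀) (Or.inr fun h => lt_irrefl _ h.1)
          simp only [f, this]
          simp
        obtain ⟨s, hs0⟩ := mem_range_of_exists_le_of_exists_ge hf ⟨x.2, ha⟩ ⟨s₀, hb⟩
        rcases (hval s).1 with h3 | h3
        · simp only [f, h3] at hs0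
          simp at hs0
        · simp only [f, h3] at hs0
          simp at hs0

end Pool.Agent.Helper18.BI.H
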