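import Pool.Agent.Helper18.BI.H.StPI2
import Pool.Agent.Helper34.BI.Null

/-!
# Project BI, stage 3 (H), module PI2C: contraction of the lift
-/

set_option autoImplicit false
set_option linter.unusedSimpArgs false

open scoped Manifold ContDiff Topology ComplexConjugate
open Set MeasureTheory Pool.Agent.Helper65.Barb Pool.Agent.Helper18.BI

namespace Pool.Agent.Helper18.BI.H

namespace PI2C

lemma qn_eq_zero {p : ℂ × ℂ} (h : qn p = 0) : p = 0 := by
  unfold qn at h
  have h1 := Complex.normSq_nonneg p.1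
  have h2 := Complex.normSq_nonneg p.2
  refine Prod.ext (Complex.normSq_eq_zero.1 (by linarith)) (Complex.normSq_eq_zero.1 (by linarith))

lemma qn_ne {p : ℂ × ℂ} (h : p ≠ 0) : qn p ≠ 0 := fun h0 => h (qn_eq_zero h0)

lemma qn_qm (p q : ℂ × ℂ) : qn (qm p q) = qn p * qn q := by
  simp only [qn, qm, Complex.normSq_apply, Complex.sub_re, Complex.sub_im, Complex.add_re,
    Complex.add_im, Complex.mul_re, Complex.mul_im, Complex.conj_re, Complex.conj_im]
  ring

lemma qm_qi {p : ℂ × ℂ} (h : qn p ≠ 0) : qm p (qi p) = (1, 0) := by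
  have hc : ((qn p : ℝ) : ℂ) ≠ 0 := by exact_mod_cast h
  refine Prod.ext ?_ ?_
  · simp only [qm, qi, map_neg, map_mul, Complex.conj_ofReal]
    have h1 : p.1 * (((qn p)⁻¹ : ℝ) * conj p.1) - p.2 * -(((qn p)⁻¹ : ℝ) * conj p.2) =
        ((qn p)⁻¹ : ℝ) * (p.1 * conj p.1 + p.2 * conj p.2) := by ring
    rw [h1, Complex.mul_conj, Complex.mul_conj, ← Complex.ofReal_add, ← Complex.ofReal_mul]
    change (((qn p)⁻¹ * qn p : ℝ) : ℂ) = 1
    rw [inv_mul_cancel₀ h]
    simp
  · simp only [qm, qi, map_neg, map_mul, Complex.conj_ofReal, Complex.conj_conj]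
    ring

lemma qn_qi {p : ℂ × ℂ} (h : qn p ≠ 0) : qn (qi p) ≠ 0 := by
  intro h0
  have h1 := qn_qm p (qi p)
  rw [qm_qi h, h0, mul_zero] at h1
  simp [qn] at h1

lemma qi_one : qi (1, 0) = (1, 0) := by
  simp [qi, qn]

lemma qm_one (p : ℂ × ℂ) : qm p (1, 0) = p := by
  simp [qm]

lemma nsq_eq_zero {x : ℝ × ℂ} (h : nsq x = 0) : x = 0 := by
  unfold nsq at h
  have h1 := sq_nonneg x.1
  have h2 := sq_nonneg x.2.re
  have h3 := sq_nonneg x.2.im
  refine Prod.ext (pow_eq_zero_iff (two_ne_zero) |>.1 (by linarith)) (Complex.ext ?_ ?_)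
  · exact pow_eq_zero_iff (two_ne_zero) |>.1 (by linarith)
  · exact pow_eq_zero_iff (two_ne_zero) |>.1 (by linarith)

lemma rot_inj {q : ℂ × ℂ} (h : qn q ≠ 0) {x : ℝ × ℂ} (hx : rot q.1 q.2 x = 0) : x = 0 := by
  have h1 := nsq_rot q.1 q.2 x
  rw [hx] at h1
  have h2 : nsq (0 : ℝ × ℂ) = 0 := by simp [nsq]
  rw [h2] at h1
  apply nsq_eq_zero
  rcases mul_eq_zero.1 h1.symm with h3 | h3
  · exact absurd (pow_eq_zero_iff (two_ne_zero) |>.1 h3) h
  · exact h3

/-- the rotation as a linear map -/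
noncomputable def rotM (q : ℂ × ℂ) : (ℝ × ℂ) →ₗ[ℝ] (ℝ × ℂ) where
  toFun := rot q.1 q.2
  map_add' x y := by
    refine Prod.ext ?_ (Complex.ext ?_ ?_)
    all_goals
      simp only [rot, Complex.normSq_apply, Complex.sub_re, Complex.sub_im, Complex.add_re,
        Complex.add_im, Complex.mul_re, Complex.mul_im, pow_two, Complex.conj_re, Complex.conj_im,
        Complex.I_re, Complex.I_im, Complex.ofReal_re, Complex.ofReal_im, Complex.re_ofNat,
        Complex.im_ofNat, Complex.neg_re, Complex.neg_im, Prod.fst_add, Prod.snd_add, map_add]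
      ring
  map_smul' c x := by
    refine Prod.ext ?_ (Complex.ext ?_ ?_)
    all_goals
      simp only [rot, Complex.normSq_apply, Complex.sub_re, Complex.sub_im, Complex.add_re,
        Complex.add_im, Complex.mul_re, Complex.mul_im, pow_two, Complex.conj_re, Complex.conj_im,
        Complex.I_re, Complex.I_im, Complex.ofReal_re, Complex.ofReal_im, Complex.re_ofNat,
        Complex.im_ofNat, Complex.neg_re, Complex.neg_im, Prod.smul_fst, Prod.smul_snd, smul_eq_mul,
        Complex.real_smul, RingHom.id_apply, map_mul, Complex.conj_ofReal]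
      ring

/-- every vector in the standard basis -/
lemma decomp (v : ℝ × ℂ) : v = v.1 • ((1 : ℝ), (0 : ℂ)) + v.2.re • ((0 : ℝ), (1 : ℂ)) +
    v.2.im • ((0 : ℝ), Complex.I) := by
  refine Prod.ext ?_ (Complex.ext ?_ ?_) <;> simp

lemma tri_inj {T : E3} (hT : Tri T) {v : ℝ × ℂ} (hv : T v = 0) : v = 0 := by
  obtain ⟨h1, h2, h3, h4⟩ := hT
  have e := congrArg T (decomp v)
  rw [map_add, map_add, map_smul, map_smul, map_smul, h1, hv] at e
  have e1 := congrArg (fun z : ℝ × ℂ => z.2.im) e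
  have e2 := congrArg (fun z : ℝ × ℂ => z.2.re) e
  have e3 := congrArg (fun z : ℝ × ℂ => z.1) e
  simp only [Prod.fst_add, Prod.snd_add, Prod.smul_fst, Prod.smul_snd, Complex.add_im,
    Complex.add_re, Complex.smul_im, Complex.smul_re, smul_eq_mul, h2, Prod.fst_zero,
    Prod.snd_zero, Complex.zero_im, Complex.zero_re, mul_zero, zero_add, add_zero, mul_one] at e1 e2 e3
  have i1 : v.2.im = 0 := by
    rcases mul_eq_zero.1 e1.symm with h | h
    · exact h
    · exact absurd h h4.ne'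
  rw [i1, zero_mul, add_zero] at e2 e3
  have i2 : v.2.re = 0 := by
    rcases mul_eq_zero.1 e2.symm with h | h
    · exact h
    · exact absurd h h3.ne'
  rw [i2, zero_mul, add_zero] at e3
  exact Prod.ext e3.symm (Complex.ext i2 i1)

lemma tri_conv {T : E3} (hT : Tri T) {σ : ℝ} (h0 : 0 ≤ σ) (h1 : σ ≤ 1) :
    Tri ((1 - σ) • T + σ • ContinuousLinearMap.id ℝ (ℝ × ℂ)) := by
  obtain ⟨t1, t2, t3, t4⟩ := hT
  refine ⟨?_, ?_, ?_, ?_⟩
  · simp only [_root_.add_apply, _root_.smul_apply, t1,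
      ContinuousLinearMap.id_apply]
    rw [← add_smul, sub_add_cancel, one_smul]
  · simp [t2]
  · simp only [_root_.add_apply, _root_.smul_apply,
      ContinuousLinearMap.id_apply, Prod.snd_add, Prod.smul_snd, Complex.add_re, Complex.smul_re,
      smul_eq_mul, Complex.one_re, mul_one]
    rcases h1.lt_or_eq with h | h
    · have := mul_pos (sub_pos.2 h) t3
      linarith
    · rw [h]; simp
  · simp only [_root_.add_apply, _root_.smul_apply,
      ContinuousLinearMap.id_apply, Prod.snd_add, Prod.smul_snd, Complex.add_im, Complex.smul_im,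
      smul_eq_mul, Complex.I_im, mul_one]
    rcases h1.lt_or_eq with h | h
    · have := mul_pos (sub_pos.2 h) t4
      linarith
    · rw [h]; simp

lemma exists_p {Q : ℝ × ℝ → ℂ × ℂ} (hQ : ContDiff ℝ ∞ Q) :
    ∃ p : ℂ × ℂ, ∀ (r : ℝ) (x : ℝ × ℝ), -p ≠ r • Q x := by
  have h1 : Module.finrank ℝ (ℝ × (ℝ × ℝ)) < Module.finrank ℝ (ℂ × ℂ) := by
    simp [Module.finrank_prod, Complex.finrank_real_complex]
  have h2 : DifferentiableOn ℝ (fun y : ℝ × (ℝ × ℝ) => y.1 • Q y.2) univ := by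
    apply Differentiable.differentiableOn
    exact (contDiff_fst.smul (hQ.comp contDiff_snd)).differentiable (by simp)
  have h3 := Pool.Agent.Helper34.BI.null_image (Measure.addHaar : Measure (ℂ × ℂ)) h1 h2
  have h4 : ∃ z : ℂ × ℂ, z ∉ (fun y : ℝ × (ℝ × ℝ) => y.1 • Q y.2) '' univ := by
    by_contra hcon
    push Not at hcon
    have h5 : (fun y : ℝ × (ℝ × ℝ) => y.1 • Q y.2) '' univ = univ := eq_univ_of_forall hcon
    rw [h5] at h3
    have h6 : (Measure.addHaar : Measure (ℂ × ℂ)) univ ≠ 0 := by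
      intro h0
      exact (isOpen_univ.measure_pos (Measure.addHaar : Measure (ℂ × ℂ)) univ_nonempty).ne' h0
    exact h6 h3
  obtain ⟨z, hz⟩ := h4
  refine ⟨-z, fun r x h => hz ⟨(r, x), mem_univ _, ?_⟩⟩
  rw [neg_neg] at h
  exact h.symm

section smooth
variable {F : Type} [NormedAddCommGroup F] [NormedSpace ℝ F]

lemma contDiff_qm {a b : F → ℂ × ℂ} (ha : ContDiff ℝ ∞ a) (hb : ContDiff ℝ ∞ b) :
    ContDiff ℝ ∞ (fun y => qm (a y) (b y)) := by
  unfold qm
  apply ContDiff.prodMk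
  · exact (ha.fst.mul hb.fst).sub (ha.snd.mul (Complex.conjCLE.contDiff.comp hb.snd))
  · exact (ha.fst.mul hb.snd).add (ha.snd.mul (Complex.conjCLE.contDiff.comp hb.fst))

lemma contDiff_nS {a : F → ℂ} (ha : ContDiff ℝ ∞ a) :
    ContDiff ℝ ∞ (fun y => Complex.normSq (a y)) := by
  simp only [Complex.normSq_apply]
  exact ((Complex.reCLM.contDiff.comp ha).mul (Complex.reCLM.contDiff.comp ha)).add
    ((Complex.imCLM.contDiff.comp ha).mul (Complex.imCLM.contDiff.comp ha))

lemma contDiff_qi {a : F → ℂ × ℂ} (ha : ContDiff ℝ ∞ a) (h : ∀ y, qn (a y) ≠ 0) :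
    ContDiff ℝ ∞ (fun y => qi (a y)) := by
  unfold qi
  have h1 : ContDiff ℝ ∞ (fun y => (qn (a y))⁻¹) := by
    apply ContDiff.inv _ h
    unfold qn
    exact (contDiff_nS ha.fst).add (contDiff_nS ha.snd)
  have h2 : ContDiff ℝ ∞ (fun y => (((qn (a y))⁻¹ : ℝ) : ℂ)) := Complex.ofRealCLM.contDiff.comp h1
  apply ContDiff.prodMk
  · exact h2.mul (Complex.conjCLE.contDiff.comp ha.fst)
  · exact (h2.mul ha.snd).neg

end smooth

end PI2C

open PI2C

theorem m_PI2 (h : StPI2B) : StPI2 := by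
  intro s₀ s₁ M hs hM
  obtain ⟨Q, T, hQ, hT, hQ0, hTri, hQT, hout⟩ := h s₀ s₁ M hs hM
  obtain ⟨p, hp⟩ := exists_p hQ
  let x₀ : ℝ × ℝ := (-1, 0)
  have hx₀ : x₀ ∉ Ioo (0 : ℝ) 1 ×ˢ Ioo s₀ s₁ := by
    intro hx
    have := hx.1.1
    simp only [x₀] at this
    linarith
  have hσ0 : ∀ t, 0 ≤ step t := fun t => Real.smoothTransition.nonneg t
  have hσ1 : ∀ t, step t ≤ 1 := fun t => Real.smoothTransition.le_one t
  let y : ℝ → ℝ × ℝ → ℂ × ℂ := fun t x => (1 - step t) • Q x + step t • p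
  have hy : ∀ t x, qn (y t x) ≠ 0 := by
    intro t x
    apply qn_ne
    intro h0
    simp only [y] at h0
    by_cases hσ : step t = 0
    · rw [hσ, sub_zero, one_smul, zero_smul, add_zero] at h0
      exact hQ0 x h0
    · apply hp ((step t)⁻¹ * (1 - step t)) x
      rw [mul_smul]
      have e1 : (1 - step t) • Q x = -(step t • p) := eq_neg_of_add_eq_zero_left h0
      rw [e1, smul_neg, smul_smul, inv_mul_cancel₀ hσ, one_smul]
  let Qt : ℝ → ℝ × ℝ → ℂ × ℂ := fun t x => qm (y t x) (qi (y t x₀))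
  let Tt : ℝ → ℝ × ℝ → E3 := fun t x => (1 - step t) • T x + step t •
    ContinuousLinearMap.id ℝ (ℝ × ℂ)
  have hQt : ∀ t x, qn (Qt t x) ≠ 0 := by
    intro t x
    simp only [Qt]
    rw [qn_qm]
    exact mul_ne_zero (hy t x) (qn_qi (hy t x₀))
  have hstep : ContDiff ℝ ∞ (fun z : ℝ × ℝ × ℝ => step z.1) :=
    Real.smoothTransition.contDiff.comp contDiff_fst
  have hys : ContDiff ℝ ∞ (fun z : ℝ × ℝ × ℝ => y z.1 z.2) :=
    ((contDiff_const.sub hstep).smul (hQ.comp contDiff_snd)).add (hstep.smul contDiff_const)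
  have hys0 : ContDiff ℝ ∞ (fun z : ℝ × ℝ × ℝ => y z.1 x₀) :=
    ((contDiff_const.sub hstep).smul contDiff_const).add (hstep.smul contDiff_const)
  have hQts : ContDiff ℝ ∞ (fun z : ℝ × ℝ × ℝ => Qt z.1 z.2) :=
    contDiff_qm hys (contDiff_qi hys0 (fun z => hy z.1 x₀))
  have hTts : ContDiff ℝ ∞ (fun z : ℝ × ℝ × ℝ => Tt z.1 z.2) :=
    ((contDiff_const.sub hstep).smul (hT.comp contDiff_snd)).add (hstep.smul contDiff_const)
  let Γ : ℝ × ℝ × ℝ → E3 := fun z =>
    (LinearMap.toContinuousLinearMap (rotM (Qt z.1 z.2))).comp (Tt z.1 z.2)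
  have hΓ : ∀ z v, Γ z v = rot (Qt z.1 z.2).1 (Qt z.1 z.2).2 (Tt z.1 z.2 v) := fun z v => rfl
  refine ⟨Γ, ?_, ?_, ?_, ?_, ?_⟩
  · rw [contDiff_clm_apply_iff]
    intro v
    simp only [hΓ]
    exact contDiff_rot hQts.fst hQts.snd (hTts.clm_apply contDiff_const)
  · intro z v hv
    rw [hΓ] at hv
    exact tri_inj (tri_conv (hTri z.2) (hσ0 z.1) (hσ1 z.1)) (rot_inj (hQt z.1 z.2) hv)
  · intro x
    apply ContinuousLinearMap.ext
    intro v
    rw [hΓ]
    have e0 : step 0 = 0 := step_of_nonpos le_rfl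
    have e1 : Qt 0 x = Q x := by
      simp only [Qt, y, e0, sub_zero, one_smul, zero_smul, add_zero]
      rw [(hout x₀ hx₀).1, qi_one, qm_one]
    have e2 : Tt 0 x = T x := by
      apply ContinuousLinearMap.ext
      intro v
      simp [Tt, e0]
    change rot (Qt 0 x).1 (Qt 0 x).2 (Tt 0 x v) = M x v
    rw [e1, e2]
    exact hQT x v
  · intro x
    apply ContinuousLinearMap.ext
    intro v
    rw [hΓ]
    have e0 : step 1 = 1 := step_of_one_le le_rfl
    have e1 : Qt 1 x = (1, 0) := by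
      have h1 := qm_qi (hy 1 x₀)
      simp only [Qt, y, e0, sub_self, one_smul, zero_smul, zero_add] at h1 ⊢
      exact h1
    have e2 : Tt 1 x = ContinuousLinearMap.id ℝ (ℝ × ℂ) := by
      apply ContinuousLinearMap.ext
      intro v
      simp [Tt, e0]
    change rot (Qt 1 x).1 (Qt 1 x).2 (Tt 1 x v) = _
    rw [e1, e2]
    exact rot_one v
  · intro t x hx
    apply ContinuousLinearMap.ext
    intro v
    rw [hΓ]
    have e1 : Qt t x = (1, 0) := by
      have h1 := qm_qi (hy t x₀)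
      simp only [Qt]
      have h2 : y t x = y t x₀ := by
        simp only [y]
        rw [(hout x hx).1, (hout x₀ hx₀).1]
      rw [h2]
      exact h1
    have e2 : Tt t x = ContinuousLinearMap.id ℝ (ℝ × ℂ) := by
      apply ContinuousLinearMap.ext
      intro v
      simp only [Tt]
      rw [(hout x hx).2]
      simp only [_root_.add_apply, _root_.smul_apply, ContinuousLinearMap.id_apply]
      rw [← add_smul, sub_add_cancel, one_smul]
    change rot (Qt t x).1 (Qt t x).2 (Tt t x v) = _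
    rw [e1, e2]
    exact rot_one v

end Pool.Agent.Helper18.BI.H
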