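import Pool.Agent.Helper18.BI.H.StPI2
import Pool.Agent.Helper27.BI.H.StH1

set_option autoImplicit false

open scoped Manifold ContDiff Topology ComplexConjugate
open Set Pool.Agent.Helper65.Barb Pool.Agent.Helper18.BI

namespace Pool.Agent.Helper18.BI.H

theorem inj_of_det_pos {A : R3 →L[ℝ] R3} (h : 0 < A.det) (v : R3) (hv : A v = 0) : v = 0 := by
  have h1 : IsUnit (LinearMap.det (A : R3 →ₗ[ℝ] R3)) := by
    have : LinearMap.det (A : R3 →ₗ[ℝ] R3) = A.det := rfl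
    rw [this]
    exact h.ne'.isUnit
  have h2 := LinearMap.isUnit_iff_isUnit_det (A : R3 →ₗ[ℝ] R3) |>.2 h1
  have h3 : Function.Injective (A : R3 →ₗ[ℝ] R3) := by
    have := (Module.End.isUnit_iff _).1 h2
    exact this.injective
  apply h3
  rw [map_zero]
  exact hv

theorem det_ne_zero_of_inj {A : R3 →L[ℝ] R3} (h : ∀ v, A v = 0 → v = 0) : A.det ≠ 0 := by
  have h1 : Function.Injective (A : R3 →ₗ[ℝ] R3) := by
    rw [← LinearMap.ker_eq_bot, LinearMap.ker_eq_bot']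
    exact fun v hv => h v hv
  have h2 : Function.Bijective (A : R3 →ₗ[ℝ] R3) :=
    ⟨h1, LinearMap.surjective_of_injective h1⟩
  have h3 := (LinearMap.isUnit_iff_isUnit_det (A : R3 →ₗ[ℝ] R3)).1 ((Module.End.isUnit_iff _).2 h2)
  exact h3.ne_zero

theorem pi2_adapt (h : StPI2) : Pool.Agent.Helper27.H.StPI2 := by
  intro M hM hdet h1
  have hoff : ∀ x : ℝ × ℝ, x ∉ Ioo (0 : ℝ) 1 ×ˢ Ioo (0 : ℝ) 1 →
      M x = ContinuousLinearMap.id ℝ (ℝ × ℂ) := by
    intro x hx
    have hcl : IsClosed {x : ℝ × ℝ | M x = ContinuousLinearMap.id ℝ (ℝ × ℂ)} :=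
      isClosed_eq hM.continuous continuous_const
    have hsub : (Pool.Agent.Helper27.H.Q2)ᶜ ⊆
        {x : ℝ × ℝ | M x = ContinuousLinearMap.id ℝ (ℝ × ℂ)} := fun y hy => h1 y hy
    have h2 := closure_minimal hsub hcl
    apply h2
    rw [closure_compl]
    intro hx'
    apply hx
    have : interior Pool.Agent.Helper27.H.Q2 = Ioo (0 : ℝ) 1 ×ˢ Ioo (0 : ℝ) 1 := by
      rw [Pool.Agent.Helper27.H.Q2, interior_prod_eq, interior_Icc]
    rwa [this] at hx'
  obtain ⟨Γ, hΓ, hinj, h0, h1', hb⟩ := h 0 1 M one_pos ⟨hM, fun x v hv =>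
    inj_of_det_pos (hdet x) v hv, hoff⟩
  refine ⟨fun z => Γ z, hΓ, ?_, h0, h1', fun t x hx => hb t x (fun hx' => hx ?_)⟩
  · have hc : Continuous fun z => (Γ z).det :=
      ContinuousLinearMap.continuous_det.comp hΓ.continuous
    have hne : ∀ z, (Γ z).det ≠ 0 := fun z => det_ne_zero_of_inj (hinj z)
    intro z
    by_contra hz
    have hz' : (Γ z).det < 0 := lt_of_le_of_ne (not_lt.1 hz) (hne z)
    have hp : 0 < (Γ (1, (0, 0))).det := by
      rw [h1']
      have : (ContinuousLinearMap.id ℝ (ℝ × ℂ)).det = 1 := by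
        change LinearMap.det (LinearMap.id : (ℝ × ℂ) →ₗ[ℝ] (ℝ × ℂ)) = 1
        exact LinearMap.det_id
      rw [this]
      exact one_pos
    obtain ⟨y, hy⟩ := mem_range_of_exists_le_of_exists_ge hc ⟨z, hz'.le⟩ ⟨_, hp.le⟩
    exact hne y hy
  · exact prod_mono Ioo_subset_Icc_self Ioo_subset_Icc_self hx'

end Pool.Agent.Helper18.BI.H
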