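import Pool.Agent.Helper18.BI.H.M_PI2A
import Pool.Agent.Helper18.BI.H.M_PI2B
import Pool.Agent.Helper18.BI.H.M_PI2C
import Pool.Agent.Helper18.BI.H.PI2Adapt

set_option autoImplicit false

namespace Pool.Agent.Helper18.BI.H

theorem hPI2 : StPI2 := m_PI2 (m_PI2B m_PI2A)

/-- `π₂` of the group of linear maps of three-space with positive determinant is trivial. -/
theorem hPI2' : Pool.Agent.Helper27.H.StPI2 := pi2_adapt hPI2

end Pool.Agent.Helper18.BI.H
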