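import Pool.Agent.Helper18.BI.H.StS7

/-!
# Project BI, stage 3 (H): the end

The fixed cuff is `sph 1`, the cuff `sph 0` is moved by a homotopy in the complement of the fixed cuff.
-/

set_option autoImplicit false

open scoped Manifold ContDiff Topology ComplexConjugate
open Set Pool.Agent.Helper65.Barb Pool.Agent.Helper18.BI
open Pool.Agent.Helper70.BI (I4 IsW MW StMain2)
open Pool.Agent.Helper27.H (ArcD StArcH)

namespace Pool.Agent.Helper18.BI.H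

/-- the loop of arcs of the germ `F`: on `[n₀, n₁]` the arc is `F (sq ε (s, 73/100 • mm q s))`, elsewhere it is the
base arc -/
noncomputable def loopF (F : R4 → R4) (n₀ n₁ ε : ℝ) (D : ArcD) (q s : ℝ) : R4 :=
  open Classical in if n₀ ≤ s ∧ s ≤ n₁ then F (sq ε (s, (73 / 100 : ℝ) • mm q s)) else D.c s

/-- **HAT** (helper27) for finite families.  For germs `F i` which agree with the germ `F` near `sph 1 ∪ neckE` and all
small `ε` there is an arc datum `D`, whose wall is close to `F '' sph 1`, such that for all `i` the class of the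
loop of arcs of `F i` is the implantation class of `F i`. -/
def StHATn : Prop :=
  ∀ (ι : Type) [Finite ι] (F : R4 → R4) (Fi φ : ι → R4 → R4) (V : Set R4), EmbOn I4 F SP →
    (∀ i, EmbOn I4 (Fi i) SP) → IsOpen V → sph 1 ∪ neckE ⊆ V → (∀ i, EqOn F (Fi i) V) →
    (∀ i, Thin I4 (Fi i) (φ i)) → ∀ κ > 0, ∃ ε₀ > 0, ∀ ε ∈ Ioo 0 ε₀, ∃ D : ArcD,
      D.m₀ = 9 / 20 ∧ D.m₁ = 11 / 20 ∧ D.s₀ < 3 / 10 ∧ 7 / 10 < D.s₁ ∧
      (∀ x, x ∉ D.U → ∃ y ∈ F '' sph 1, dist x y < κ) ∧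
      (∀ s ∈ Icc (3 / 10 : ℝ) (7 / 10), D.c s = F (sq ε (s, ((73 / 100 : ℝ), 0)))) ∧
      ∀ i, D.Cls (loopF (Fi i) (3 / 10) (7 / 10) ε D) (φ i)

/-- **(H) for `R4`.** -/
def StHMain : Prop :=
  ∀ (F F' : R4 → R4) (U : Set R4) (h : ℝ × R4 → R4) (W φ φ' : R4 → R4), IsW W →
    EmbOn I4 F SP → EmbOn I4 F' SP → IsOpen U → sph 1 ⊆ U → EqOn F F' U →
    ContinuousOn h (Icc (0 : ℝ) 1 ×ˢ sph 0) → (∀ p ∈ sph 0, h (0, p) = F p) →
    (∀ p ∈ sph 0, h (1, p) = F' p) → (∀ u ∈ Icc (0 : ℝ) 1, ∀ p ∈ sph 0, h (u, p) ∉ F '' sph 1) →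
    Thin I4 F φ → Thin I4 F' φ' → CIsot I4 φ' φ ∨ CIsot I4 φ' (fun x => W (φ x))

end Pool.Agent.Helper18.BI.H
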