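import Pool.Agent.Helper18.BI.H.StPI2
import Pool.Agent.Helper18.BI.M_A0

set_option autoImplicit false
set_option linter.unusedSimpArgs false

/-!
# Project BI, module H-PI2A: local decomposition of matrices near the identity
-/

open scoped Manifold ContDiff Topology ComplexConjugate
open Set Pool.Agent.Helper65.Barb Pool.Agent.Helper18.BI

namespace Pool.Agent.Helper18.BI.H

namespace PI2A

/-- the parameter space -/
abbrev V0 : Type := (ℂ × ℂ) × (ℝ × ℝ × ℝ × ℝ × ℝ)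

/-- the two real coordinates of the second factor -/
noncomputable def cre : (ℝ × ℂ) →L[ℝ] ℝ := Complex.reCLM.comp (ContinuousLinearMap.snd ℝ ℝ ℂ)

noncomputable def cim : (ℝ × ℂ) →L[ℝ] ℝ := Complex.imCLM.comp (ContinuousLinearMap.snd ℝ ℝ ℂ)

noncomputable def inA (l : (ℝ × ℂ) →L[ℝ] ℝ) : E3 := l.prod 0

noncomputable def inB (l : (ℝ × ℂ) →L[ℝ] ℝ) : E3 :=
  ContinuousLinearMap.prod 0 (Complex.ofRealCLM.comp l)

noncomputable def inC (l : (ℝ × ℂ) →L[ℝ] ℝ) : E3 :=
  ContinuousLinearMap.prod 0 (Complex.I • (Complex.ofRealCLM.comp l))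

/-- the triangular map -/
noncomputable def tri (t : ℝ × ℝ × ℝ × ℝ × ℝ) : E3 :=
  inA (ContinuousLinearMap.fst ℝ ℝ ℂ) + t.1 • inA cre + t.2.1 • inB cre + t.2.2.1 • inA cim +
    t.2.2.2.1 • inB cim + t.2.2.2.2 • inC cim

theorem tri_apply (t : ℝ × ℝ × ℝ × ℝ × ℝ) (x : ℝ × ℂ) :
    tri t x = (x.1 + t.1 * x.2.re + t.2.2.1 * x.2.im,
      ⟨t.2.1 * x.2.re + t.2.2.2.1 * x.2.im, t.2.2.2.2 * x.2.im⟩) := by
  refine Prod.ext ?_ (Complex.ext ?_ ?_) <;>
    simp [tri, inA, inB, inC, cre, cim, Complex.reCLM_apply, Complex.imCLM_apply,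
      Complex.ofRealCLM_apply]

theorem contDiff_tri : ContDiff ℝ ∞ tri := by
  unfold tri
  fun_prop

/-- the rotation as a linear map -/
noncomputable def rhoL (q : ℂ × ℂ) : E3 :=
  LinearMap.toContinuousLinearMap
    { toFun := fun x => rot q.1 q.2 x
      map_add' := by
        intro x y
        refine Prod.ext ?_ ?_
        · simp only [rot, Prod.fst_add, Prod.snd_add, mul_add, Complex.add_im]
          ring
        · simp only [rot, Prod.fst_add, Prod.snd_add, map_add, Complex.ofReal_add]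
          ring
      map_smul' := by
        intro c x
        refine Prod.ext ?_ ?_
        · simp only [rot, Prod.smul_fst, Prod.smul_snd, smul_eq_mul, RingHom.id_apply,
            Complex.real_smul]
          have e : q.1 * conj q.2 * ((c : ℂ) * x.2) = (c : ℂ) * (q.1 * conj q.2 * x.2) := by ring
          rw [e, Complex.im_ofReal_mul]
          ring
        · simp only [rot, Prod.smul_fst, Prod.smul_snd, smul_eq_mul, RingHom.id_apply,
            Complex.real_smul, map_mul, Complex.conj_ofReal, Complex.ofReal_mul]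
          ring }

theorem rhoL_apply (q : ℂ × ℂ) (x : ℝ × ℂ) : rhoL q x = rot q.1 q.2 x := rfl

theorem contDiff_rhoL : ContDiff ℝ ∞ rhoL := by
  rw [contDiff_clm_apply_iff]
  intro x
  exact contDiff_rot contDiff_fst contDiff_snd contDiff_const

/-- the product -/
noncomputable def Xi (v : V0) : E3 := (rhoL v.1).comp (tri v.2)

theorem contDiff_Xi : ContDiff ℝ ∞ Xi :=
  (contDiff_rhoL.comp contDiff_fst).clm_comp (contDiff_tri.comp contDiff_snd)

theorem Xi_apply (v : V0) (x : ℝ × ℂ) : Xi v x = rot v.1.1 v.1.2 (tri v.2 x) := rfl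

/-- the base point -/
def p0 : V0 := ((1, 0), (0, 1, 0, 0, 1))

theorem Xi_p0 : Xi p0 = ContinuousLinearMap.id ℝ (ℝ × ℂ) := by
  ext x
  all_goals simp [Xi_apply, tri_apply, p0, rot]
  all_goals rfl

theorem hd {F : ℝ → ℝ} {F0 F1 : ℝ} {R : ℝ → ℝ} (hR : Continuous R)
    (h : ∀ s, F s = F0 + s * F1 + s ^ 2 * R s) (hF : HasDerivAt F 0 0) : F1 = 0 := by
  have h1 : HasDerivAt F F1 0 := by
    rw [hasDerivAt_iff_tendsto_slope]
    have h2 : Filter.Tendsto (fun s : ℝ => F1 + s * R s) (𝓝[≠] 0) (𝓝 F1) := by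
      have h3 : Filter.Tendsto (fun s : ℝ => F1 + s * R s) (𝓝 0) (𝓝 (F1 + 0 * R 0)) :=
        (continuous_const.add (continuous_id.mul hR)).tendsto 0
      rw [zero_mul, add_zero] at h3
      exact h3.mono_left nhdsWithin_le_nhds
    refine h2.congr' ?_
    filter_upwards [self_mem_nhdsWithin] with s hs
    have hs' : s ≠ 0 := hs
    rw [slope_def_field, h s, h 0]
    field_simp
    ring
  exact h1.unique hF

/-- if the derivative vanishes in the direction `w` then so do the derivatives of all coordinates -/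
theorem hder {w : V0} (hw : fderiv ℝ Xi p0 w = 0) (l : (ℝ × ℂ) →L[ℝ] ℝ) (x : ℝ × ℂ) :
    HasDerivAt (fun s : ℝ => l (Xi (p0 + s • w) x)) 0 0 := by
  have h1 : HasFDerivAt Xi (fderiv ℝ Xi p0) p0 :=
    (contDiff_Xi.differentiable (by simp)).differentiableAt.hasFDerivAt
  have h2 : HasDerivAt (fun s : ℝ => p0 + s • w) w 0 := by
    have := ((hasDerivAt_id (0 : ℝ)).smul_const w).const_add p0
    simpa using this
  have h3 : HasFDerivAt Xi (fderiv ℝ Xi p0) (p0 + (0 : ℝ) • w) := by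
    rw [zero_smul, add_zero]
    exact h1
  have h4 : HasDerivAt (fun s : ℝ => Xi (p0 + s • w)) (fderiv ℝ Xi p0 w) 0 :=
    HasFDerivAt.comp_hasDerivAt (f := fun s : ℝ => p0 + s • w) (0 : ℝ) h3 h2
  rw [hw] at h4
  have h5 : HasDerivAt (fun s : ℝ => Xi (p0 + s • w) x) ((0 : E3) x) 0 :=
    (ContinuousLinearMap.apply ℝ (ℝ × ℂ) x).hasFDerivAt.comp_hasDerivAt 0 h4
  have h6 : HasDerivAt (fun s : ℝ => l (Xi (p0 + s • w) x)) (l ((0 : E3) x)) 0 :=
    l.hasFDerivAt.comp_hasDerivAt (0 : ℝ) h5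
  rw [_root_.zero_apply, map_zero] at h6
  exact h6

theorem stage1 {a1 a2 b1 b2 b c d e f : ℝ}
    (hw : fderiv ℝ Xi p0 (((⟨a1, a2⟩ : ℂ), (⟨b1, b2⟩ : ℂ)), (b, c, d, e, f)) = 0) :
    a1 = 0 ∧ b1 = 0 ∧ b2 = 0 := by
  refine ⟨?_, ?_, ?_⟩
  · have h := hder hw (ContinuousLinearMap.fst ℝ ℝ ℂ) (1, 0)
    have h2 : 2 * a1 = 0 := by
      refine hd (F0 := 1) (R := fun _ => a1 ^ 2 + a2 ^ 2 - b1 ^ 2 - b2 ^ 2) continuous_const
        (fun s => ?_) h
      simp [Xi_apply, tri_apply, p0, rot, Complex.normSq_apply]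
      ring
    linarith
  · have h := hder hw cim (1, 0)
    have h2 : -2 * b1 = 0 := by
      refine hd (F0 := 0) (R := fun _ => -2 * (a1 * b1 - a2 * b2)) continuous_const
        (fun s => ?_) h
      simp [Xi_apply, tri_apply, p0, rot, Complex.normSq_apply, cim]
      ring
    linarith
  · have h := hder hw cre (1, 0)
    have h2 : 2 * b2 = 0 := by
      refine hd (F0 := 0) (R := fun _ => 2 * (a1 * b2 + a2 * b1)) continuous_const
        (fun s => ?_) h
      simp [Xi_apply, tri_apply, p0, rot, Complex.normSq_apply, cre]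
      ring
    linarith

theorem stage2 {a2 b c d e f : ℝ}
    (hw : fderiv ℝ Xi p0 (((⟨0, a2⟩ : ℂ), (⟨0, 0⟩ : ℂ)), (b, c, d, e, f)) = 0) :
    a2 = 0 ∧ b = 0 ∧ c = 0 := by
  refine ⟨?_, ?_, ?_⟩
  · have h := hder hw cim (0, 1)
    have h2 : 2 * a2 = 0 := by
      refine hd (F0 := 0) (R := fun _ => 2 * a2 * c) continuous_const (fun s => ?_) h
      simp [Xi_apply, tri_apply, p0, rot, Complex.normSq_apply, cim, pow_two]
      ring
    linarith
  · have h := hder hw (ContinuousLinearMap.fst ℝ ℝ ℂ) (0, 1)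
    refine hd (F0 := 0) (R := fun s => s * b * a2 ^ 2) (by fun_prop) (fun s => ?_) h
    simp [Xi_apply, tri_apply, p0, rot, Complex.normSq_apply]
    ring
  · have h := hder hw cre (0, 1)
    refine hd (F0 := 1) (R := fun s => -a2 ^ 2 * (1 + s * c)) (by fun_prop) (fun s => ?_) h
    simp [Xi_apply, tri_apply, p0, rot, Complex.normSq_apply, cre, pow_two]
    ring

theorem stage3 {d e f : ℝ}
    (hw : fderiv ℝ Xi p0 (((⟨0, 0⟩ : ℂ), (⟨0, 0⟩ : ℂ)), (0, 0, d, e, f)) = 0) :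
    d = 0 ∧ e = 0 ∧ f = 0 := by
  refine ⟨?_, ?_, ?_⟩
  · have h := hder hw (ContinuousLinearMap.fst ℝ ℝ ℂ) (0, Complex.I)
    refine hd (F0 := 0) (R := fun _ => 0) continuous_const (fun s => ?_) h
    simp [Xi_apply, tri_apply, p0, rot, Complex.normSq_apply]
  · have h := hder hw cre (0, Complex.I)
    refine hd (F0 := 0) (R := fun _ => 0) continuous_const (fun s => ?_) h
    simp [Xi_apply, tri_apply, p0, rot, Complex.normSq_apply, cre, pow_two]
  · have h := hder hw cim (0, Complex.I)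
    refine hd (F0 := 1) (R := fun _ => 0) continuous_const (fun s => ?_) h
    simp [Xi_apply, tri_apply, p0, rot, Complex.normSq_apply, cim, pow_two]

theorem inj {w : V0} (hw : fderiv ℝ Xi p0 w = 0) : w = 0 := by
  obtain ⟨⟨⟨a1, a2⟩, ⟨b1, b2⟩⟩, b, c, d, e, f⟩ := w
  obtain ⟨rfl, rfl, rfl⟩ := stage1 hw
  obtain ⟨rfl, rfl, rfl⟩ := stage2 hw
  obtain ⟨rfl, rfl, rfl⟩ := stage3 hw
  rfl

theorem finrank_eq : Module.finrank ℝ V0 = Module.finrank ℝ E3 := by
  have h1 : Module.finrank ℝ E3 = Module.finrank ℝ ((ℝ × ℂ) →ₗ[ℝ] (ℝ × ℂ)) :=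
    (LinearMap.toContinuousLinearMap (𝕜 := ℝ) (E := ℝ × ℂ) (F' := ℝ × ℂ)).finrank_eq.symm
  rw [h1, Module.finrank_linearMap]
  simp [Module.finrank_prod, Complex.finrank_real_complex]

end PI2A

open PI2A in
theorem m_PI2A : StPI2A := by
  have hfd : FiniteDimensional ℝ E3 := inferInstance
  let L : V0 ≃L[ℝ] E3 := ContinuousLinearEquiv.ofFinrankEq finrank_eq
  let F : E3 → E3 := fun A => Xi (L.symm A)
  have hF : ContDiff ℝ ∞ F := contDiff_Xi.comp L.symm.contDiff
  have hloc : IsLocalDiffeomorphAt 𝓘(ℝ, E3) 𝓘(ℝ, E3) ∞ F (L p0) := by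
    refine (m_A0 E3 F (L p0)).2 ⟨⟨univ, isOpen_univ, mem_univ _, hF.contDiffOn⟩, fun v hv => ?_⟩
    have h1 : HasFDerivAt Xi (fderiv ℝ Xi p0) (L.symm (L p0)) := by
      rw [L.symm_apply_apply]
      exact (contDiff_Xi.differentiable (by simp)).differentiableAt.hasFDerivAt
    have h2 : HasFDerivAt F ((fderiv ℝ Xi p0).comp (L.symm : E3 →L[ℝ] V0)) (L p0) :=
      h1.comp (L p0) L.symm.hasFDerivAt
    rw [h2.fderiv] at hv
    have h3 : L.symm v = 0 := inj hv
    have h4 := congrArg L h3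
    rwa [L.apply_symm_apply, map_zero] at h4
  obtain ⟨Φ, hp, hΦ⟩ := hloc
  let G : E3 → V0 := fun A => L.symm (Φ.invFun A)
  have hG1 : ContDiffOn ℝ ∞ Φ.invFun Φ.target := contMDiffOn_iff_contDiffOn.1 Φ.contMDiffOn_invFun
  have hG : ContDiffOn ℝ ∞ G Φ.target := L.symm.contDiff.comp_contDiffOn hG1
  have hF1 : F (L p0) = ContinuousLinearMap.id ℝ (ℝ × ℂ) := by
    change Xi (L.symm (L p0)) = _
    rw [L.symm_apply_apply, Xi_p0]
  have hΦ1 : Φ.toFun (L p0) = ContinuousLinearMap.id ℝ (ℝ × ℂ) := by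
    rw [← hF1]
    exact (hΦ hp).symm
  have h1t : ContinuousLinearMap.id ℝ (ℝ × ℂ) ∈ Φ.target := by
    rw [← hΦ1]
    exact Φ.map_source hp
  have hG0 : G (ContinuousLinearMap.id ℝ (ℝ × ℂ)) = p0 := by
    have h1 : Φ.invFun (ContinuousLinearMap.id ℝ (ℝ × ℂ)) = L p0 := by
      rw [← hΦ1]
      exact Φ.left_inv hp
    change L.symm (Φ.invFun _) = p0
    rw [h1, L.symm_apply_apply]
  have hXG : ∀ A ∈ Φ.target, Xi (G A) = A := by
    intro A hA
    have h1 : F (Φ.invFun A) = Φ.toFun (Φ.invFun A) := hΦ (Φ.map_target hA)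
    have h2 : Φ.toFun (Φ.invFun A) = A := Φ.right_inv hA
    rw [h2] at h1
    exact h1
  have hGc : ContinuousAt G (ContinuousLinearMap.id ℝ (ℝ × ℂ)) :=
    hG.continuousOn.continuousAt (Φ.open_target.mem_nhds h1t)
  have hev : ∀ᶠ v in 𝓝 p0, v.1 ≠ 0 ∧ 0 < v.2.2.1 ∧ 0 < v.2.2.2.2.2 := by
    refine Filter.Eventually.and ?_ (Filter.Eventually.and ?_ ?_)
    · refine (continuous_fst.continuousAt (x := p0)).eventually_ne ?_
      intro h
      have := congrArg Prod.fst h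
      simp [p0] at this
    · have hc : Continuous (fun v : V0 => v.2.2.1) := by fun_prop
      refine hc.continuousAt.eventually (lt_mem_nhds ?_)
      simp [p0]
    · have hc : Continuous (fun v : V0 => v.2.2.2.2.2) := by fun_prop
      refine hc.continuousAt.eventually (lt_mem_nhds ?_)
      simp [p0]
  rw [← hG0] at hev
  have hev2 := (hGc.eventually hev).and (Φ.open_target.mem_nhds h1t)
  obtain ⟨r, hr, hball⟩ := Metric.eventually_nhds_iff_ball.1 hev2
  refine ⟨r, hr, fun A => (G A).1, fun A => PI2A.tri (G A).2, ?_, ?_, ?_, ?_, ?_⟩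
  · exact contDiff_fst.comp_contDiffOn (hG.mono fun A hA => (hball A hA).2)
  · exact (PI2A.contDiff_tri.comp contDiff_snd).comp_contDiffOn (hG.mono fun A hA => (hball A hA).2)
  · change (G (ContinuousLinearMap.id ℝ (ℝ × ℂ))).1 = _
    rw [hG0]
    rfl
  · change PI2A.tri (G (ContinuousLinearMap.id ℝ (ℝ × ℂ))).2 = _
    rw [hG0]
    ext x
    all_goals simp [PI2A.tri_apply, p0]
    all_goals rfl
  · intro A hA
    obtain ⟨⟨h1, h2, h3⟩, h4⟩ := hball A hA
    refine ⟨h1, ⟨?_, ?_, ?_, ?_⟩, fun x => ?_⟩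
    · change PI2A.tri (G A).2 (1, 0) = _
      rw [PI2A.tri_apply]
      refine Prod.ext ?_ (Complex.ext ?_ ?_) <;> simp
    · change (PI2A.tri (G A).2 (0, 1)).2.im = 0
      rw [PI2A.tri_apply]
      simp
    · change 0 < (PI2A.tri (G A).2 (0, 1)).2.re
      rw [PI2A.tri_apply]
      simpa using h2
    · change 0 < (PI2A.tri (G A).2 (0, Complex.I)).2.im
      rw [PI2A.tri_apply]
      simpa using h3
    · have h5 := hXG A h4
      have h6 := congrArg (fun B : E3 => B x) h5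
      exact h6

end Pool.Agent.Helper18.BI.H
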