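import Pool.Agent.Helper18.BI.H.StEnd
import Pool.Agent.Helper70.BI.StF2

/-!
# Project BI, stage 3 (H): consequences and the transfer to the 4-sphere

Statements (as `Prop` definitions) with complete proofs in the docstrings.  A module `M_X` proves
`theorem m_X : StX` (possibly from other statements as hypotheses `(h : StY)`).
-/

set_option autoImplicit false

open scoped Manifold ContDiff Topology ComplexConjugate
open Set Pool.Agent.Helper65.Barb Pool.Agent.Helper18.BI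
open Pool.Agent.Helper70.BI (I4 IsW MW)

namespace Pool.Agent.Helper18.BI.H

/-- **HC.** (H) for `R4`, for both cuffs: the cuff `sph c` is fixed, the cuff `sph d` is moved by a homotopy. -/
def StHC : Prop :=
  ∀ (F F' : R4 → R4) (U : Set R4) (h : ℝ × R4 → R4) (W : R4 → R4) (c d : ℝ), IsW W →
    (c = 0 ∧ d = 1 ∨ c = 1 ∧ d = 0) → EmbOn I4 F SP → EmbOn I4 F' SP → IsOpen U → sph c ⊆ U →
    EqOn F F' U → ContinuousOn h (Icc (0 : ℝ) 1 ×ˢ sph d) → (∀ p ∈ sph d, h (0, p) = F p) →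
    (∀ p ∈ sph d, h (1, p) = F' p) → (∀ u ∈ Icc (0 : ℝ) 1, ∀ p ∈ sph d, h (u, p) ∉ F '' sph c) →
    MW W F F'

/-- **NULC.** A germ one of whose cuffs is null-homotopic in the complement of the other one has class `1` or `W`
(from `StNUL`, `StHC`; swap). -/
def StNULC : Prop :=
  ∀ (F : R4 → R4) (h : ℝ × R4 → R4) (y : R4) (W φ : R4 → R4) (c d : ℝ), IsW W →
    (c = 0 ∧ d = 1 ∨ c = 1 ∧ d = 0) → EmbOn I4 F SP →
    ContinuousOn h (Icc (0 : ℝ) 1 ×ˢ sph d) → (∀ p ∈ sph d, h (0, p) = F p) →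
    (∀ p ∈ sph d, h (1, p) = y) → (∀ u ∈ Icc (0 : ℝ) 1, ∀ p ∈ sph d, h (u, p) ∉ F '' sph c) →
    Thin I4 F φ → CIsot I4 φ (fun x => x) ∨ CIsot I4 φ W

/-- **NUL** (null-homotopic cuffs).  If the cuff `sph 0` is null-homotopic in the complement of the cuff `sph 1`, the
germ is connected by a homotopy as in (H) to a germ with trivial class.
Proof.  `T a = step (20 a - 14)` (`step (2 a' - 1)`-like: `0` for `a ≤ 7/10`, `1` for `a ≥ 3/4`), `0 < r < 1/50`,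
`k a = T a * a + (1 - T a) * (3/5 + 5 r a)`, `m a = T a + (1 - T a) * 5 r`, `κ (s, a, w) = (s, k a, m a • w)`.
`k' > 0` for `1/5 ≤ a` (for `7/10 ≤ a ≤ 3/4` the term with `T' ≥ 0` is `T' (a - 3/5 - 5 r a)`, and `a - 3/5 - 5 r a > 0`), `m > 0`, so `κ` is a
local diffeomorphism at the points of `SP` (`Pool.Agent.Helper70.BI.ld_iff`; triangular derivative), injective on `flat 0 ∪ sph 1 ∪ neck`, the
identity near `sph 1`, maps `flat 0` to the flat ball of radius `r` around `(1/2, (3/5, 0))` and `neck` into `neck`.  `F` is injective and a local diffeomorphism on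
an open set containing `SP` (`StA1`), so for small `r` (compactness) `F' = F ∘ κ` is `EmbOn` on `flat 0 ∪ sph 1 ∪ neck`, hence
`Thin F' id` by `StVanT` (`Pool.Agent.Helper27.BI.hVanT`).  The homotopy `h'` is the concatenation (`u ∈ [0,1/4]`, ...) of
`h`, of `h (1 - v, foot0)` (constant in `p`), of the path `F (bar (1/5 + 2/5 v))` (constant in `p`) and of the homotopy
`F (1/2, ((3/5, 0) + v * 5 r • p.2))`; continuous by `ContinuousOn.union_of_isClosed` or `ContinuousOn.if`; off `F '' sph 1` by the injectivity of `F` on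
the open set (`bar a ∉ sph 1` for `a < 4/5`; the small flat ball is disjoint from `sph 1`). -/
def StNUL : Prop :=
  ∀ (F : R4 → R4) (h : ℝ × R4 → R4) (y : R4), EmbOn I4 F SP →
    ContinuousOn h (Icc (0 : ℝ) 1 ×ˢ sph 0) → (∀ p ∈ sph 0, h (0, p) = F p) →
    (∀ p ∈ sph 0, h (1, p) = y) → (∀ u ∈ Icc (0 : ℝ) 1, ∀ p ∈ sph 0, h (u, p) ∉ F '' sph 1) →
    ∃ (F' : R4 → R4) (U : Set R4) (h' : ℝ × R4 → R4), EmbOn I4 F' SP ∧ IsOpen U ∧ sph 1 ⊆ U ∧
      EqOn F F' U ∧ ContinuousOn h' (Icc (0 : ℝ) 1 ×ˢ sph 0) ∧ (∀ p ∈ sph 0, h' (0, p) = F p) ∧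
      (∀ p ∈ sph 0, h' (1, p) = F' p) ∧
      (∀ u ∈ Icc (0 : ℝ) 1, ∀ p ∈ sph 0, h' (u, p) ∉ F '' sph 1) ∧
      Thin I4 F' (fun x => x)

/-- **SMH** (smoothing a homotopy in the 4-sphere, only the emptiness of the interior of the image is used).
Proof.  `S4` is the unit sphere of `R⁵ = EuclideanSpace ℝ (Fin 5)`.  By compactness there is `ρ ∈ (0, 1/8)` with
`8 ρ ≤ dist (h (u, p)) y` for `u ∈ [0,1]`, `p ∈ sph d`, `y ∈ K`.  `ĥ : ℝ × R4 → R⁵` continuous with `ĥ = h` on `[0,1] × sph d` (Tietze,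
`ContinuousMap.exists_restrict_eq` / `ContinuousOn` version on the closed set), `g : ℝ × R4 → R⁵` smooth with
`‖g - ĥ‖ ≤ ρ` (`Continuous.exists_contDiff_approx_and_eqOn` with `S = ∅`, or the version used in `M_SM.lean`).  For `p ∈ sph d` put
`v (u, p) = (1 - 3u) b p + 3u g (0, p)` for `u ≤ 1/3`, `g (3u - 1, p)` for `1/3 ≤ u ≤ 2/3`, `(3 - 3u) g (1, p) + (3u - 2) b' p` for `2/3 ≤ u`; its distance
to `h (0, p)`, `h (3u - 1, p)`, `h (1, p)` respectively is `≤ ρ`, so `‖v‖ ≥ 7/8` and `h' = v / ‖v‖` (as a point of `S4`) is within `2 ρ`·2 of the same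
point, off `K`.  Image: it is the union of three compact sets `E_j`, the images of `[0,1] × sph d` under three
maps `v_j / ‖v_j‖`, `v_j` smooth near `[0,1] × sph d`.  `interior E_j = ∅`: let `σ : ℝ × ℝ → R4` be the smooth parametrization of
`sph d` by spherical coordinates (onto), and `f_j (r, u, θ, ψ) = r • v_j (u, σ (θ, ψ))`, `C^∞` on the open set of
`(r, u, θ, ψ)` with `v_j` smooth there, from a space of dimension `4` to `R⁵`, so the image of a subset has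
dense complement (`ContDiffOn.dense_compl_image_of_dimH_lt_finrank`, with `dimH ≤ 4 < 5`; or `ContDiff.dense_compl_range_of_finrank_lt_finrank` after making
`v_j` globally smooth by a cutoff: replace `b`, `b'` by globally smooth functions `R4 → R⁵` equal to them on `sph d`, `exists_contMDiff..`/extension by a bump function).
It contains the cone `{r y | r > 0, y ∈ E_j}`; if `O ⊆ E_j` is open and nonempty in `S4` then the cone over `O` is open and nonempty in `R⁵` (preimage of `O` under the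
continuous map `x ↦ x/‖x‖` on `x ≠ 0`), a contradiction.  Union of three closed sets: `interior_union_isClosed_of_interior_empty`. -/
def StSMH : Prop :=
  ∀ (b b' : R4 → S4) (h : ℝ × R4 → S4) (K : Set S4) (d : ℝ), IsCompact K →
    (∀ p ∈ sph d, ContMDiffAt 𝓘(ℝ, R4) (𝓡 4) ∞ b p) →
    (∀ p ∈ sph d, ContMDiffAt 𝓘(ℝ, R4) (𝓡 4) ∞ b' p) →
    ContinuousOn h (Icc (0 : ℝ) 1 ×ˢ sph d) → (∀ p ∈ sph d, h (0, p) = b p) →
    (∀ p ∈ sph d, h (1, p) = b' p) → (∀ u ∈ Icc (0 : ℝ) 1, ∀ p ∈ sph d, h (u, p) ∉ K) →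
    ∃ h' : ℝ × R4 → S4, ContinuousOn h' (Icc (0 : ℝ) 1 ×ˢ sph d) ∧ (∀ p ∈ sph d, h' (0, p) = b p) ∧
      (∀ p ∈ sph d, h' (1, p) = b' p) ∧ (∀ u ∈ Icc (0 : ℝ) 1, ∀ p ∈ sph d, h' (u, p) ∉ K) ∧
      interior (h' '' (Icc (0 : ℝ) 1 ×ˢ sph d)) = ∅

/-! ### the 4-sphere -/

/-- the class `W` in the 4-sphere: properties which do not involve barbells -/
def IsW4 (W : S4 → S4) : Prop :=
  (∃ (B₀ δ₀ : PartialDiffeomorph 𝓘(ℝ, R4) (𝓡 4) R4 S4 ∞), NB ⊆ B₀.source ∧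
    flat 0 ∪ flat 1 ⊆ δ₀.source ∧ (∀ p ∈ sph 0 ∪ sph 1, δ₀ p = B₀ p) ∧
      W = implantation B₀ barMap) ∧
  Isot (𝓡 4) (fun x => W (W x)) (fun x => x) ∧
  ∀ Ψ Ψ' : S4 → S4, ContMDiff (𝓡 4) (𝓡 4) ∞ Ψ → ContMDiff (𝓡 4) (𝓡 4) ∞ Ψ' →
      (∀ x, Ψ (Ψ' x) = x) → (∀ x, Ψ' (Ψ x) = x) → Isot (𝓡 4) (fun x => Ψ (W (Ψ' x))) W

/-- equal up to isotopy and `W` -/
def UpTo (W φ ψ : S4 → S4) : Prop := Isot (𝓡 4) φ ψ ∨ Isot (𝓡 4) φ (fun x => W (ψ x))

/-- **THE MAIN THEOREM OF STAGE 3.** -/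
def StFinal3 : Prop :=
  ∃ W : S4 → S4, IsW4 W ∧
    ∀ (B : PartialDiffeomorph 𝓘(ℝ, R4) (𝓡 4) R4 S4 ∞) (β : R4 → R4) (c d : ℝ),
      NB ⊆ B.source → IsBarbellMap β → (c = 0 ∧ d = 1 ∨ c = 1 ∧ d = 0) →
      -- homotopy invariance
      (∀ (B' : PartialDiffeomorph 𝓘(ℝ, R4) (𝓡 4) R4 S4 ∞) (β' : R4 → R4) (U : Set R4)
        (h : ℝ × R4 → S4), NB ⊆ B'.source → IsBarbellMap β' → IsOpen U → sph c ⊆ U → EqOn B B' U →
        ContinuousOn h (Icc (0 : ℝ) 1 ×ˢ sph d) → (∀ p ∈ sph d, h (0, p) = B p) →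
        (∀ p ∈ sph d, h (1, p) = B' p) →
        (∀ u ∈ Icc (0 : ℝ) 1, ∀ p ∈ sph d, h (u, p) ∉ B '' sph c) →
        UpTo W (implantation B' β') (implantation B β)) ∧
      -- null-homotopic cuffs
      (∀ (h : ℝ × R4 → S4) (y : S4), ContinuousOn h (Icc (0 : ℝ) 1 ×ˢ sph d) →
        (∀ p ∈ sph d, h (0, p) = B p) → (∀ p ∈ sph d, h (1, p) = y) →
        (∀ u ∈ Icc (0 : ℝ) 1, ∀ p ∈ sph d, h (u, p) ∉ B '' sph c) →
        UpTo W (implantation B β) (fun x => x))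

end Pool.Agent.Helper18.BI.H
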