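import Pool.Agent.Helper18.BI.StFr

/-!
# Project BI, stage 3 (H): `π₂(GL₃) = 0`, relative to the boundary of a square

Quaternions are pairs `q = (α, β) = α + β j`, acting on three-space by `rot α β` (`x ↦ q x q̄`).
-/

set_option autoImplicit false
set_option linter.unusedSimpArgs false

open scoped Manifold ContDiff Topology ComplexConjugate
open Set Pool.Agent.Helper65.Barb Pool.Agent.Helper18.BI

namespace Pool.Agent.Helper18.BI.H

/-- the product of quaternions -/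
noncomputable def qm (p q : ℂ × ℂ) : ℂ × ℂ :=
  (p.1 * q.1 - p.2 * conj q.2, p.1 * q.2 + p.2 * conj q.1)

/-- the squared norm -/
noncomputable def qn (p : ℂ × ℂ) : ℝ := Complex.normSq p.1 + Complex.normSq p.2

/-- the inverse -/
noncomputable def qi (p : ℂ × ℂ) : ℂ × ℂ :=
  (((qn p)⁻¹ : ℝ) * conj p.1, -(((qn p)⁻¹ : ℝ) * p.2))

theorem rot_qm (p q : ℂ × ℂ) (x : ℝ × ℂ) :
    rot (qm p q).1 (qm p q).2 x = rot p.1 p.2 (rot q.1 q.2 x) := by
  refine Prod.ext ?_ (Complex.ext ?_ ?_)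
  all_goals
    simp only [rot, qm, Complex.normSq_apply, Complex.sub_re, Complex.sub_im, Complex.add_re,
      Complex.add_im, Complex.mul_re, Complex.mul_im, pow_two, Complex.conj_re, Complex.conj_im,
      Complex.I_re, Complex.I_im, Complex.ofReal_re, Complex.ofReal_im, Complex.re_ofNat,
      Complex.im_ofNat, Complex.neg_re, Complex.neg_im, Prod.smul_fst, Prod.smul_snd, smul_eq_mul,
      map_neg, map_sub, map_add, map_mul, Complex.real_smul]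
    ring

/-- Upper triangular matrices with upper left entry `1` and positive diagonal, in the basis
`(1, 0), (0, 1), (0, i)`. -/
def Tri (T : E3) : Prop :=
  T (1, 0) = (1, 0) ∧ (T (0, 1)).2.im = 0 ∧ 0 < (T (0, 1)).2.re ∧ 0 < (T (0, Complex.I)).2.im

/-- A smooth map of the plane to `GL₃`, equal to `1` off the open square `(0,1) × (s₀, s₁)`. -/
def SqM (s₀ s₁ : ℝ) (M : ℝ × ℝ → E3) : Prop :=
  ContDiff ℝ ∞ M ∧ (∀ x v, M x v = 0 → v = 0) ∧
    ∀ x, x ∉ Ioo (0 : ℝ) 1 ×ˢ Ioo s₀ s₁ → M x = ContinuousLinearMap.id ℝ (ℝ × ℂ)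

/-- **PI2A.** Matrices near `1` are products of a quaternion (rotation and scaling) and a triangular matrix.
Proof. Inverse function theorem for
`Ξ : (ℂ × ℂ) × (ℝ × ℝ × ℝ × ℝ × ℝ) → E3`, `Ξ (q, t) = rho q ∘ tri t`, where `rho q x = rot q.1 q.2 x` and
`tri (b, c, d, e, f) (y, w) = (y + b w.re + d w.im, c w.re + e w.im + i f w.im)`, at
`((1, 0), (0, 1, 0, 0, 1))`, value `1`.  Both factors are smooth (`contDiff_clm_apply_iff`: it is enough that
`Ξ (·) x` is smooth for every `x`; this is polynomial, see `Helper65.Barb.contDiff_rot`).  The derivative in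
direction `((α, β), (b, c, d, e, f))` sends `(y, w)` to
`(2 α.re y + 2 Im(conj β w), 2 α w - 2 i y β) + (b w.re + d w.im, c w.re + e w.im + i f w.im)`.  Both sides
have dimension `9` (`(ℂ × ℂ) × ℝ⁵`; `E3`: `finrank = 3 · 3`), so it suffices that it is injective: at `(1,0)`:
`(2 α.re, -2 i β) = 0` gives `α.re = 0`, `β = 0`; at `(0,1)`: `(b, 2 α + c) = 0`, the imaginary part gives
`α.im = 0` (`c` real), so `α = 0`, `b = c = 0`; at `(0,i)`: `(d, e + i f) = 0`.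
`ContDiffAt.toOpenPartialHomeomorph` / `HasStrictFDerivAt.to_localInverse` and `ContDiffAt.to_localInverse`:
a smooth local inverse `A ↦ (q A, t A)` near `1`; `τ A = tri (t A)`; by continuity `c, f > 0` and `q ≠ 0` near `1`,
and `ContDiffAt ℝ ∞` at `1` gives smoothness in a neighbourhood only for finite order: use instead that the
inverse of the open partial homeomorphism is `ContDiffAt ℝ ∞` at every point of the target where the
derivative is invertible (`OpenPartialHomeomorph.contDiffAt_symm`), an open condition, as in `M_A0.lean`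
(`StA0`; or apply `StA0` of `StA.lean` after identifying `E3` with `(ℂ × ℂ) × ℝ⁵` by a linear isomorphism,
`ContinuousLinearEquiv.ofFinrankEq`). -/
def StPI2A : Prop :=
  ∃ r > 0, ∃ q : E3 → ℂ × ℂ, ∃ τ : E3 → E3,
    ContDiffOn ℝ ∞ q (Metric.ball (ContinuousLinearMap.id ℝ (ℝ × ℂ)) r) ∧
    ContDiffOn ℝ ∞ τ (Metric.ball (ContinuousLinearMap.id ℝ (ℝ × ℂ)) r) ∧
    q (ContinuousLinearMap.id ℝ (ℝ × ℂ)) = (1, 0) ∧
    τ (ContinuousLinearMap.id ℝ (ℝ × ℂ)) = ContinuousLinearMap.id ℝ (ℝ × ℂ) ∧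
    ∀ A ∈ Metric.ball (ContinuousLinearMap.id ℝ (ℝ × ℂ)) r, q A ≠ 0 ∧ Tri (τ A) ∧
      ∀ x, rot (q A).1 (q A).2 (τ A x) = A x

/-- **PI2B.** Global decomposition.
Proof. Let `r, q, τ` be as in `PI2A`.  For `p ≠ 0` let `C_p A = rho (qi p) ∘ A ∘ rho p` (`rho p = rot p.1 p.2`,
`rho (qi p) = (rho p)⁻¹` by `rot_qm`, `qm (qi p) p = (1,0)`).  `rho p` multiplies the Euclidean norm `√nsq` by
`qn p` (`nsq_rot`), and the norm of `ℝ × ℂ` (sup norm) is between `√nsq / √2` and `√nsq`, so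
`‖C_p A - 1‖ ≤ 2 ‖A - 1‖`.  `M x` is invertible (injective in finite dimension), `x ↦ (M x)⁻¹` is continuous
(smooth: `ContinuousLinearMap.inverse`, `contDiffAt_map_inverse`), and `M` is uniformly continuous on compact
sets and `1` for `s ∉ (s₀, s₁)`; so there is `N ≥ 1` with
`‖M (a, s) ∘ (M (b, s))⁻¹ - 1‖ < r / 2` for all `s` and all `a, b ∈ [-1, 2]` with `|a - b| ≤ 2 / N`.
For `u ∈ (-1, 2)` define recursively `Q₀ = (1,0)`, `T₀ = 1`,
`D_k = C_(Q_(k-1)) (M (k u/N, s) ∘ (M ((k-1) u/N, s))⁻¹)`, `Q_k = qm Q_(k-1) (q D_k)`, `T_k = τ D_k ∘ T_(k-1)`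
(functions of `(u, s)`).  By induction `M (k u/N, s) = rho Q_k ∘ T_k`, `Q_k ≠ 0` (`qn (qm p q) = qn p qn q`),
`Tri T_k` (`Tri` is closed under composition), all smooth on `(-1,2) × ℝ`.  Let `Q = Q_N`, `T = T_N`:
`M (u, s) = rho (Q (u,s)) ∘ T (u,s)`.  If `M (k u/N, s) = 1` for all `k ≤ N` then `Q = (1,0)`, `T = 1`; this
holds for `u ≤ 0` and for `s ∉ (s₀, s₁)`.  If `M (u,s) = 1` then `rho Q ∘ T = 1`: `rho Q (1,0) = (1,0)`, so
`qn Q = 1` and (`rot_diag`-like: `rot α β (1,0) = (|α|² - |β|², -2 i α β)`) `β = 0`; `rho Q (y, w) = (y, α² w)`,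
and `T (0,1) = (b, c)`, `c > 0`, gives `(b, α² c) = (0, 1)`, so `α² = 1`, hence `Q = (±1, 0)` and `T = 1`.
On the connected set `[1, 2) × ℝ` we have `M = 1`, `Q` is continuous with values in `{(1,0), (-1,0)}` and equal
to `(1,0)` at `s = s₀`: so `Q = (1,0)` there.  Extend by `(1, 0)` and `1` to `u ≥ 2` and `u ≤ -1`: smooth. -/
def StPI2B : Prop :=
  ∀ (s₀ s₁ : ℝ) (M : ℝ × ℝ → E3), s₀ < s₁ → SqM s₀ s₁ M →
    ∃ (Q : ℝ × ℝ → ℂ × ℂ) (T : ℝ × ℝ → E3), ContDiff ℝ ∞ Q ∧ ContDiff ℝ ∞ T ∧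
      (∀ x, Q x ≠ 0) ∧ (∀ x, Tri (T x)) ∧ (∀ x v, rot (Q x).1 (Q x).2 (T x v) = M x v) ∧
      ∀ x, x ∉ Ioo (0 : ℝ) 1 ×ˢ Ioo s₀ s₁ →
        Q x = (1, 0) ∧ T x = ContinuousLinearMap.id ℝ (ℝ × ℂ)

/-- **PI2C.** `π₂(GL₃) = 0` relative to the boundary.
Proof. `Q, T` from `PI2B`.  The image of `(r, x) ↦ r • Q x`, `ℝ × (ℝ × ℝ) → ℂ × ℂ`, is a null set
(`Pool.Agent.Helper34.BI.null_image`, dimensions `3 < 4`), so there is `p` such that `-p` is not in it; as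
`Q = (1,0)` somewhere, `-p` is no real multiple of `(1,0)` either; `p ≠ 0` (`r = 0`).  For `t ∈ ℝ` and
`σ = step t ∈ [0,1]`:  `(1-σ) Q x + σ p ≠ 0` and `(1-σ) (1,0) + σ p ≠ 0` (if `(1-σ) Q x + σ p = 0`, then `σ ≠ 0`
because `Q x ≠ 0`, and `-p = ((1-σ)/σ) • Q x`).  Put
`Q_t x = qm ((1-σ) Q x + σ p) (qi ((1-σ) (1,0) + σ p))`, `T_t x = (1-σ) T x + σ 1` (`Tri` is convex) and
`Γ (t, x) v = rot (Q_t x) (T_t x v)`.  At `t = 0`: `σ = 0`, `Q_t = Q`, `T_t = T`.  At `t = 1`: `σ = 1`,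
`Q_t = qm p (qi p) = (1,0)`, `T_t = 1`.  Where `Q x = (1,0)`, `T x = 1`: `Q_t x = qm y (qi y) = (1,0)`, `T_t x = 1`.
Invertible: `nsq_rot` (`nsq (rot ..) = qn² nsq`, `qn ≠ 0`) and an upper triangular matrix with positive
diagonal is injective.  Smooth: composition of smooth maps (`qi` is smooth where `qn ≠ 0`). -/
def StPI2 : Prop :=
  ∀ (s₀ s₁ : ℝ) (M : ℝ × ℝ → E3), s₀ < s₁ → SqM s₀ s₁ M →
    ∃ Γ : ℝ × ℝ × ℝ → E3, ContDiff ℝ ∞ Γ ∧ (∀ x v, Γ x v = 0 → v = 0) ∧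
      (∀ x, Γ (0, x) = M x) ∧ (∀ x, Γ (1, x) = ContinuousLinearMap.id ℝ (ℝ × ℂ)) ∧
      ∀ t x, x ∉ Ioo (0 : ℝ) 1 ×ˢ Ioo s₀ s₁ → Γ (t, x) = ContinuousLinearMap.id ℝ (ℝ × ℂ)

end Pool.Agent.Helper18.BI.H
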