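import Pool.Agent.Helper27.BI.H.StH1

/-!
# Project BI, stage 3 (H), section 7: from homotopies of cuffs to homotopies of loops of arcs

The fixed cuff is `sph 1`, the cuff `sph 0` is moved by a homotopy in the complement of the fixed cuff.
-/

set_option autoImplicit false

open scoped Manifold ContDiff Topology ComplexConjugate
open Set Pool.Agent.Helper65.Barb Pool.Agent.Helper18.BI
open Pool.Agent.Helper27.BI (zarc chi phi)

namespace Pool.Agent.Helper18.BI.H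

/-- the outer part of the bar -/
def neckE : Set R4 := {p | p ∈ neck ∧ 3 / 5 ≤ p.2.1}

/-- the foot of the bar on the moving cuff -/
noncomputable def foot0 : R4 := (1 / 2, (1 / 5, 0))

/-- the point of the bar with coordinate `a` -/
noncomputable def bar (a : ℝ) : R4 := (1 / 2, (a, 0))

/-- The sphere of directions: unit vectors of three-space swept out by the loop `q ↦ mm q ·`. -/
noncomputable def mm (q s : ℝ) : R3 :=
  zarc (Real.sin (Real.pi * q)) (chi (10 * s - 9 / 2)) q (10 * s - 9 / 2)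

/-- The whiskered sphere: the unit sphere of three-space is mapped onto the part `a ≤ 73/100` of the bar
together with the cuff `sph 0`. -/
noncomputable def nu (m : R3) : R4 := sq 0 (1 / 2, ((73 : ℝ) / 100) • m)

/-- **STR** (stretching the bar).  Two germs which agree near the cuff `sph 1` can be replaced by germs of the same
classes, with the same restrictions near both cuffs, which agree near the outer part of the bar.
Proof.  Let `r ∈ (0, 1/10)` such that `U` contains the points `(1/2, a, 0)` with `4/5 - r ≤ a ≤ 4/5`.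
Choose `k : ℝ → ℝ` smooth with positive derivative, `k a = a` for `a ≤ 1/4` and for `4/5 - r/4 ≤ a`, and
`k a ≥ 4/5 - r` for `a ≥ 3/5 - 1/100` (e.g. `k a = a + c ∫ ..`; or: `k` = integral of a smooth positive function which is `1`
for `a ≤ 1/4` and `a ≥ 4/5 - r/4`, with the right total integral and with small values on `[3/5-1/50, 4/5-r/4-small]`;
or compose with `Real.smoothTransition`: `k a = (1 - T) (a) + ...`).  `κ (s, a, w) = (s, k a, w)` and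
`κ_t = (1-t) id + t κ`: injective local diffeomorphisms of `R4` (`StA0`; `k_t' > 0`), mapping `SP` onto `SP` (identity
near `sph 0` and `sph 1`; the bar to the bar), so `J (t, p) = F (κ_t p)` is a family of germs along `SP` (`FamOn`), and `T2` (iii) gives
`Thin F φ → Thin (F ∘ κ) φ`.  `F₁ = F ∘ κ`, `F₁' = F' ∘ κ`, `V = κ ⁻¹' U`. -/
def StSTR : Prop :=
  ∀ (F F' : R4 → R4) (U : Set R4), EmbOn 𝓘(ℝ, R4) F SP → EmbOn 𝓘(ℝ, R4) F' SP → IsOpen U →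
    sph 1 ⊆ U → EqOn F F' U → ∃ (F₁ F₁' : R4 → R4) (U₁ V : Set R4),
      EmbOn 𝓘(ℝ, R4) F₁ SP ∧ EmbOn 𝓘(ℝ, R4) F₁' SP ∧
      IsOpen U₁ ∧ sph 0 ∪ sph 1 ⊆ U₁ ∧ EqOn F₁ F U₁ ∧ EqOn F₁' F' U₁ ∧
      IsOpen V ∧ sph 1 ∪ neckE ⊆ V ∧ EqOn F₁ F₁' V ∧
      (∀ φ, Thin 𝓘(ℝ, R4) F φ → Thin 𝓘(ℝ, R4) F₁ φ) ∧
      ∀ φ, Thin 𝓘(ℝ, R4) F' φ → Thin 𝓘(ℝ, R4) F₁' φ

/-- **BAR** (helper34).  The bar can be replaced by an embedded one in any homotopy class of paths in the complement of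
the fixed cuff, from the point `3/5` of the bar to the foot.
Proof.  Concatenate: the given bar from `3/5` to `3/5 - δ` and back, then `ζ`, then the given bar from `1/5` to `1/5 + δ` and
back; this is homotopic to `ζ` rel ends off `K = F '' sph 1`.  Smooth it and put it in general position rel the two end
segments: an embedded arc which leaves and arrives along the given bar and avoids `F '' (sph 0 ∪ sph 1 ∪ neckE)` otherwise
(codimensions `4 - 1 - 2 = 1`, `4 - 1 - 1 = 2`); thicken it to a germ (as in the module RE / `Thick.lean`), equal to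
`F` near `sph 0 ∪ sph 1 ∪ neckE`.  Close paths in the open set `Kᶜ` are joined by the linear homotopy. -/
def StBAR : Prop :=
  ∀ (F : R4 → R4) (ζ : ℝ → R4), EmbOn 𝓘(ℝ, R4) F SP → ContinuousOn ζ (Icc 0 1) →
    ζ 0 = F (bar (3 / 5)) → ζ 1 = F foot0 → (∀ τ ∈ Icc (0 : ℝ) 1, ζ τ ∉ F '' sph 1) →
    ∃ (F' : R4 → R4) (U : Set R4) (P : ℝ × ℝ → R4), EmbOn 𝓘(ℝ, R4) F' SP ∧ IsOpen U ∧
      sph 0 ∪ sph 1 ∪ neckE ⊆ U ∧ EqOn F F' U ∧
      ContinuousOn P (Icc (0 : ℝ) 1 ×ˢ Icc (0 : ℝ) 1) ∧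
      (∀ τ ∈ Icc (0 : ℝ) 1, P (0, τ) = ζ τ) ∧
      (∀ τ ∈ Icc (0 : ℝ) 1, P (1, τ) = F' (bar (3 / 5 - 2 / 5 * τ))) ∧
      (∀ u ∈ Icc (0 : ℝ) 1, P (u, 0) = F (bar (3 / 5))) ∧
      (∀ u ∈ Icc (0 : ℝ) 1, P (u, 1) = F foot0) ∧
      ∀ u ∈ Icc (0 : ℝ) 1, ∀ τ ∈ Icc (0 : ℝ) 1, P (u, τ) ∉ F '' sph 1

/-- A based homotopy of the whiskered spheres, constant on the outer part of the whisker. -/
def BasedH (F F' : R4 → R4) (H : ℝ × R3 → R4) : Prop :=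
  ContinuousOn H (Icc (0 : ℝ) 1 ×ˢ {m : R3 | nsq m = 1}) ∧
    (∀ m, nsq m = 1 → H (0, m) = F (nu m)) ∧ (∀ m, nsq m = 1 → H (1, m) = F' (nu m)) ∧
    (∀ u ∈ Icc (0 : ℝ) 1, ∀ m, nsq m = 1 → 3 / 5 ≤ 73 / 100 * m.1 → H (u, m) = F (nu m)) ∧
    ∀ u ∈ Icc (0 : ℝ) 1, ∀ m, nsq m = 1 → H (u, m) ∉ F '' sph 1

/-- **TOP.**  A free homotopy of the cuffs gives a based homotopy of the whiskered spheres, if the bar of the
second germ is in the class `bar * track of the foot`.  `ζ` is this path.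
Proof.  For a unit vector `m` put `a = 73/100 * m.1 ∈ [-73/100, 73/100]`.  By `StS4`
(`hS4`, with `sq 0 (s, (a, w)) = (1/2, (clamp a, fac 0 .. • w))`): `nu m = bar a` if `a ≥ 1/5`, and `nu m ∈ sph 0`
if `a ≤ 1/5` (`nsq (73/100 • m) = (73/100)² ≥ 1/25` and `rsq 1 ≥ (27/100)² ≥ 1/25`, so the point is in `Ext`), and
`nu m = foot0` if `a = 1/5`; `nu` is continuous (`StS3`).  Put
`P₁ (v, τ) = ζ (τ (1 + v) / 2)`, `(h', P) (u, ·) = (h (2u, ·), P₁ (2u, ·))` for `u ≤ 1/2` and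
`(h (1, ·), P₂ (2u - 1, ·))` for `u ≥ 1/2`.  Both are continuous on the closed sets (`ContinuousOn.if`/`union` of closed sets;
at `u = 1/2`: `P₁ (1, τ) = ζ τ = P₂ (0, τ)`); `P (u, 1) = h' (u, foot0)` (`ζ ((1+v)/2) = h (v, foot0)`),
`P (u, 0) = F (bar (3/5))`, `P (0, τ) = ζ (τ/2) = F (bar (3/5 - 2/5 τ))`, `P (1, τ) = F' (bar (3/5 - 2/5 τ))`.
`H (u, m) = F (nu m)` if `3/5 ≤ a`; `P (u, 5/2 (3/5 - a))` if `1/5 ≤ a ≤ 3/5`; `h' (u, nu m)` if `a ≤ 1/5`.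
Off `F '' sph 1`: for `3/5 ≤ a` by injectivity of `F` on `SP` (`bar a` with `a ≤ 73/100` is not in `sph 1`). -/
def StTOP : Prop :=
  ∀ (F F' : R4 → R4) (h : ℝ × R4 → R4) (ζ : ℝ → R4) (P₂ : ℝ × ℝ → R4),
    EmbOn 𝓘(ℝ, R4) F SP → EmbOn 𝓘(ℝ, R4) F' SP → EqOn F F' neckE →
    ContinuousOn h (Icc (0 : ℝ) 1 ×ˢ sph 0) → (∀ p ∈ sph 0, h (0, p) = F p) →
    (∀ p ∈ sph 0, h (1, p) = F' p) → (∀ u ∈ Icc (0 : ℝ) 1, ∀ p ∈ sph 0, h (u, p) ∉ F '' sph 1) →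
    (∀ τ ∈ Icc (0 : ℝ) (1 / 2), ζ τ = F (bar (3 / 5 - 4 / 5 * τ))) →
    (∀ τ ∈ Icc (1 / 2 : ℝ) 1, ζ τ = h (2 * τ - 1, foot0)) →
    ContinuousOn P₂ (Icc (0 : ℝ) 1 ×ˢ Icc (0 : ℝ) 1) →
    (∀ τ ∈ Icc (0 : ℝ) 1, P₂ (0, τ) = ζ τ) →
    (∀ τ ∈ Icc (0 : ℝ) 1, P₂ (1, τ) = F' (bar (3 / 5 - 2 / 5 * τ))) →
    (∀ u ∈ Icc (0 : ℝ) 1, P₂ (u, 0) = F (bar (3 / 5))) →
    (∀ u ∈ Icc (0 : ℝ) 1, P₂ (u, 1) = F' foot0) →
    (∀ u ∈ Icc (0 : ℝ) 1, ∀ τ ∈ Icc (0 : ℝ) 1, P₂ (u, τ) ∉ F '' sph 1) →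
    ∃ H : ℝ × R3 → R4, BasedH F F' H

/-- **SM** (smoothing).  A based homotopy of the whiskered spheres gives a smooth homotopy of the loops of arcs, for all
small `ε`, at a distance `≥ κ` from the fixed cuff, `κ` independent of `ε`.
`ρ s` is the distance of the base arc from the vertical line over `0`.

Proof.  `K = F '' sph 1` is compact, `H` has compact image (continuous on the compact `[0,1] × S²`), so there is `κ > 0` with
`2 κ ≤ dist (H (u, m)) y` for all `u, m, y ∈ K`.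
`mm q s` is a unit vector for all `q, s` (`StZnsq`, `m_ZNSQ`), smooth in `(q, s)`, `= (1, 0)` for
`s ≤ 9/20`, for `11/20 ≤ s` (`chi = 0`, `sin φ = 0` there), and for `q = 0, 1`.
Choose `n₀' < n₀`, `n₁ < n₁'` with `73/100 ≤ .. ` replaced by `7/10 ≤ ρ s ≤ 39/50` on `[n₀', n₁']`, and let
`cl s` be the clamp of `s` to `[n₀', n₁']`, `θ u = step (3 u - 1)` (`0` for `u ≤ 1/3`, `1` for `u ≥ 2/3`).
`x (q, s) = ρ (cl s) • mm q (cl s)`.  By `StS3` (joint continuity of `sq` up to `ε = 0`), `StS4` and compactness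
(`mm` ranges over the compact unit sphere, `cl s` over `[n₀', n₁']`) there is `ε₀` such that for `ε < ε₀` and all `s' ∈ [n₀', n₁']`,
unit vectors `m`, and `ρ' ∈ [7/10, 39/50]` with (`ρ' = 73/100` or `m = (1,0)`): the point `sq ε (s', ρ' • m)` is in an open set
around `SP` on which `F` and `F'` are smooth, `e = F (sq ε (s', ρ' m)) - F (nu' )` and
`e' = F' (sq ε (s', ρ' m)) - F' (nu')`, `nu' = sq 0 (1/2, ρ' m)`, have norm `≤ κ/4`, and if `3/5 ≤ 73/100 * m.1` then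
`sq ε (s', ρ' m) ∈ U` (there `sq 0 (1/2, ρ' m)` is in `neckE`, as its first space coordinate is in `[3/5, 39/50]`).
For `s ∈ [9/20, 11/20]` put `f (u, q, s) = H (θ u, mm q s) + (1 - θ u) e + θ u e'`; for the other `s`:
`f (u, q, s) = F (sq ε (cl s, (ρ (cl s), 0)))`; they agree at `s = 9/20, 11/20` (`mm = (1,0)`, `H (·, (1,0)) = F (nu (1,0))`, `e = e'`), so `f` is
continuous on `ℝ × ℝ × ℝ`.  In the open set `{n₀' < s < n₁'} ∩ ({u < 1/3} ∪ {u > 2/3} ∪ {73/100 * (mm q s).1 > 3/5})` it is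
smooth: it is `F (sq ε (s, ρ s • mm q s))` for `u < 1/3` and where `73/100 (mm q s).1 > 3/5` (there `H = F ∘ nu = F' ∘ nu`, `e = e'`), and
`F' (..)` for `u > 2/3` (`StS2` smoothness of `sq ε`).
`Continuous.exists_contDiff_approx_and_eqOn` with error `κ/4` and
`S = {n₀ ≤ s ≤ n₁} ∩ ({u ≤ 1/4} ∪ {u ≥ 3/4} ∪ {13/20 ≤ 73/100 (mm q s).1})` gives `c`.  (i), (ii), (iii) hold on `S`
(`73/100 ≥ 13/20`).  (iv): for `s ∈ [9/20, 11/20]`, `|c - H| ≤ κ/4 + κ/4`, so the distance to `K` is `≥ κ`. -/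
def StSM : Prop :=
  ∀ (F F' : R4 → R4) (U : Set R4) (H : ℝ × R3 → R4) (n₀ n₁ : ℝ) (ρ : ℝ → ℝ),
    EmbOn 𝓘(ℝ, R4) F SP → EmbOn 𝓘(ℝ, R4) F' SP → IsOpen U → sph 1 ∪ neckE ⊆ U → EqOn F F' U →
    BasedH F F' H → n₀ < 9 / 20 → 11 / 20 < n₁ → ContDiff ℝ ∞ ρ →
    (∀ s ∈ Icc (9 / 20 : ℝ) (11 / 20), ρ s = 73 / 100) →
    (∀ s ∈ Icc n₀ n₁, 73 / 100 ≤ ρ s ∧ ρ s ≤ 3 / 4) →
    ∃ κ > 0, ∃ ε₀ > 0, ∀ ε ∈ Ioo 0 ε₀, ∃ c : ℝ × ℝ × ℝ → R4, ContDiff ℝ ∞ c ∧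
      (∀ q, ∀ s ∈ Icc n₀ n₁, c (0, q, s) = F (sq ε (s, ρ s • mm q s))) ∧
      (∀ q, ∀ s ∈ Icc n₀ n₁, c (1, q, s) = F' (sq ε (s, ρ s • mm q s))) ∧
      (∀ u q, ∀ s ∈ Icc n₀ n₁, mm q s = (1, 0) → c (u, q, s) = F (sq ε (s, (ρ s, 0)))) ∧
      ∀ u ∈ Icc (0 : ℝ) 1, ∀ q ∈ Icc (0 : ℝ) 1, ∀ s ∈ Icc (9 / 20 : ℝ) (11 / 20),
        ∀ y ∈ F '' sph 1, κ ≤ dist (c (u, q, s)) y

end Pool.Agent.Helper18.BI.H
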